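import Mathlib

/-!
# The continuous `ℚ_p`-unipotent completion

For a topological group `π` and a prime `p` we define

* `EInt p n π = lim ( (ℤ/p^k)[π/N] / I^(n+1) )`, the limit over all `k` and all open normal
  subgroups `N` of `π` (`I` the augmentation ideal): this is `ℤ_p[[π]] / I^(n+1)`;
* `EQ p n π = ℚ ⊗ EInt p n π`, that is `ℚ_p ⊗ ℤ_p[[π]] / I^(n+1)`;
* `UQ p n π`, the group of group-like elements of `EQ p n π`: the group of `ℚ_p`-points of the
  largest class `n` quotient `U_n` of the continuous `ℚ_p`-pro-unipotent completion `U` of `π`;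
* the canonical homomorphism `UQ.of : π →* UQ p n π` and functoriality `UQ.map`.
-/

open MonoidAlgebra
open scoped TensorProduct

noncomputable section

namespace Pool.Agent.H83.Kim

section groupAlgebra

variable {m m' m'' : ℕ} {H H' H'' : Type*} [Group H] [Group H'] [Group H'']

/-- The augmentation `(ℤ/m)[H] → ℤ/m`, sending every group element to `1`. -/
def aug (m : ℕ) (H : Type*) [Group H] : MonoidAlgebra (ZMod m) H →+* ZMod m :=
  (MonoidAlgebra.lift (ZMod m) (ZMod m) H 1).toRingHom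

/-- The ideal `I^(n+1)`, where `I` is the augmentation ideal of `(ℤ/m)[H]`. -/
def augPow (n m : ℕ) (H : Type*) [Group H] : Ideal (MonoidAlgebra (ZMod m) H) :=
  (RingHom.ker (aug m H)) ^ (n + 1)

instance augPow.instTwoSided (n m : ℕ) (H : Type*) [Group H] : (augPow n m H).IsTwoSided := by
  unfold augPow
  infer_instance

/-- The ring `(ℤ/m)[H] / I^(n+1)`, where `I` is the augmentation ideal. -/
def UA (n m : ℕ) (H : Type*) [Group H] : Type _ := MonoidAlgebra (ZMod m) H ⧸ augPow n m H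

instance UA.instRing (n m : ℕ) (H : Type*) [Group H] : Ring (UA n m H) :=
  Ideal.Quotient.ring (augPow n m H)

/-- The projection `(ℤ/m)[H] → (ℤ/m)[H] / I^(n+1)`. -/
def UA.mk (n m : ℕ) (H : Type*) [Group H] : MonoidAlgebra (ZMod m) H →+* UA n m H :=
  Ideal.Quotient.mk (augPow n m H)

theorem UA.mk_surjective (n m : ℕ) (H : Type*) [Group H] : Function.Surjective (UA.mk n m H) :=
  Ideal.Quotient.mk_surjective

/-- The class of a group element in `(ℤ/m)[H] / I^(n+1)`. -/
def UA.of (n m : ℕ) (H : Type*) [Group H] (h : H) : UA n m H :=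
  UA.mk n m H (MonoidAlgebra.single h 1)

/-- The ring homomorphism `(ℤ/m)[H] → (ℤ/m')[H']` induced by a group homomorphism, for `m' ∣ m`. -/
def preMap (h : m' ∣ m) (ψ : H →* H') :
    MonoidAlgebra (ZMod m) H →+* MonoidAlgebra (ZMod m') H' :=
  (MonoidAlgebra.mapDomainRingHom (ZMod m') ψ).comp
    (MonoidAlgebra.mapRingHom H (ZMod.castHom h (ZMod m')))

theorem aug_preMap (h : m' ∣ m) (ψ : H →* H') :
    (aug m' H').comp (preMap h ψ) = (ZMod.castHom h (ZMod m')).comp (aug m H) := by
  apply MonoidAlgebra.ringHom_ext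
  · intro b; simp [aug, preMap]
  · intro b; simp [aug, preMap]

theorem pow_le_comap {R S : Type*} [Ring R] [Ring S] (f : R →+* S) {I : Ideal R} {J : Ideal S}
    [I.IsTwoSided] [J.IsTwoSided] (h : I ≤ J.comap f) (k : ℕ) : I ^ k ≤ (J ^ k).comap f := by
  induction k with
  | zero =>
    intro x _
    rw [Ideal.mem_comap, Submodule.pow_zero, Ideal.one_eq_top]
    exact Submodule.mem_top
  | succ k ih =>
    rw [Submodule.pow_succ, Submodule.pow_succ, Ideal.mul_le]
    intro r hr s hs
    rw [Ideal.mem_comap, map_mul]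
    exact Ideal.mul_mem_mul (ih hr) (h hs)

theorem preMap_le (n : ℕ) (h : m' ∣ m) (ψ : H →* H') :
    augPow n m H ≤ (augPow n m' H').comap (preMap h ψ) := by
  apply pow_le_comap
  intro x hx
  rw [Ideal.mem_comap, RingHom.mem_ker]
  have := RingHom.congr_fun (aug_preMap h ψ) x
  rw [RingHom.comp_apply, RingHom.comp_apply, (RingHom.mem_ker).mp hx, map_zero] at this
  exact this

/-- Functoriality of `(ℤ/m)[H] / I^(n+1)`. -/
def UA.map (n : ℕ) (h : m' ∣ m) (ψ : H →* H') : UA n m H →+* UA n m' H' :=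
  Ideal.quotientMap (augPow n m' H') (preMap h ψ) (preMap_le n h ψ)

theorem UA.map_mk (n : ℕ) (h : m' ∣ m) (ψ : H →* H') (x : MonoidAlgebra (ZMod m) H) :
    UA.map n h ψ (UA.mk n m H x) = UA.mk n m' H' (preMap h ψ x) :=
  Ideal.quotientMap_mk

end groupAlgebra

section limit

variable (p n : ℕ) (π : Type*) [Group π] [TopologicalSpace π]

/-- The ring `(ℤ/p^k)[π/N] / I^(n+1)`. -/
def Lev (k : ℕ) (N : OpenNormalSubgroup π) : Type _ := UA n (p ^ k) (π ⧸ N.toSubgroup)

instance Lev.instRing (k : ℕ) (N : OpenNormalSubgroup π) : Ring (Lev p n π k N) :=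
  UA.instRing n (p ^ k) (π ⧸ N.toSubgroup)

/-- The transition map from level `(k', N)` to level `(k, M)`, for `k ≤ k'` and `N ≤ M`. -/
def trans {k k' : ℕ} (hk : k ≤ k') {N M : OpenNormalSubgroup π} (h : N ≤ M) :
    Lev p n π k' N →+* Lev p n π k M :=
  UA.map n (pow_dvd_pow p hk) (QuotientGroup.map N.toSubgroup M.toSubgroup (MonoidHom.id π) h)

/-- Families of elements of all finite levels. -/
def Fam : Type _ := ∀ (k : ℕ) (N : OpenNormalSubgroup π), Lev p n π k N

instance Fam.instRing : Ring (Fam p n π) := @Pi.ring ℕ _ fun k => @Pi.ring _ _ fun N => Lev.instRing p n π k N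

/-- Compatible families. -/
def Compat (x : Fam p n π) : Prop :=
  ∀ (k k' : ℕ) (hk : k ≤ k') (N M : OpenNormalSubgroup π) (h : N ≤ M),
    trans p n π hk h (x k' N) = x k M

theorem Compat.mul {x y : Fam p n π} (hx : Compat p n π x) (hy : Compat p n π y) :
    Compat p n π (x * y) := by
  intro k k' hk N M h
  change trans p n π hk h (x k' N * y k' N) = x k M * y k M
  rw [map_mul, hx k k' hk N M h, hy k k' hk N M h]

theorem Compat.one : Compat p n π 1 := fun _ _ _ _ _ _ => map_one _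

theorem Compat.add {x y : Fam p n π} (hx : Compat p n π x) (hy : Compat p n π y) :
    Compat p n π (x + y) := by
  intro k k' hk N M h
  change trans p n π hk h (x k' N + y k' N) = x k M + y k M
  rw [map_add, hx k k' hk N M h, hy k k' hk N M h]

theorem Compat.zero : Compat p n π 0 := fun _ _ _ _ _ _ => map_zero _

theorem Compat.neg {x : Fam p n π} (hx : Compat p n π x) : Compat p n π (-x) := by
  intro k k' hk N M h
  change trans p n π hk h (- x k' N) = - x k M
  rw [map_neg, hx k k' hk N M h]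

/-- The ring of compatible families. -/
def EIntS : Subring (Fam p n π) where
  carrier := {x | Compat p n π x}
  mul_mem' := @Compat.mul p n π _ _
  one_mem' := Compat.one p n π
  add_mem' := @Compat.add p n π _ _
  zero_mem' := Compat.zero p n π
  neg_mem' := @Compat.neg p n π _ _

/-- `ℤ_p[[π]] / I^(n+1)`: the ring of compatible families in the rings
`(ℤ/p^k)[π/N] / I^(n+1)`, for `k` a natural number and `N` an open normal subgroup of `π`. -/
def EInt : Type _ := EIntS p n π

instance EInt.instRing : Ring (EInt p n π) := (EIntS p n π).toRing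

/-- `ℚ_p ⊗ ℤ_p[[π]] / I^(n+1)`, written as `ℚ ⊗ ℤ_p[[π]] / I^(n+1)`. -/
def EQ : Type _ := ℚ ⊗[ℤ] (EInt p n π)

instance EQ.instRing : Ring (EQ p n π) := Algebra.TensorProduct.instRing

/-- The units of `ℚ_p ⊗ ℤ_p[[π]] / I^(n+1)`. -/
abbrev EQU : Type _ := (EQ p n π)ˣ

/-- The element `a ⊗ x`. -/
def EQ.tmul (a : ℚ) (x : EInt p n π) : EQ p n π := a ⊗ₜ[ℤ] x

variable {π} {π' : Type*} [Group π'] [TopologicalSpace π']
  {π'' : Type*} [Group π''] [TopologicalSpace π'']

/-- Preimage of an open normal subgroup. -/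
def onsComap (φ : π →ₜ* π') (N : OpenNormalSubgroup π') : OpenNormalSubgroup π where
  toOpenSubgroup := N.toOpenSubgroup.comap φ.toMonoidHom φ.continuous_toFun
  isNormal' := N.isNormal'.comap φ.toMonoidHom

/-- The map `(ℤ/p^k)[π/φ⁻¹(N)] / I^(n+1) → (ℤ/p^k)[π'/N] / I^(n+1)`. -/
def levMap (φ : π →ₜ* π') (k : ℕ) (N : OpenNormalSubgroup π') :
    Lev p n π k (onsComap φ N) →+* Lev p n π' k N :=
  UA.map n (dvd_refl (p ^ k)) (QuotientGroup.map _ _ φ.toMonoidHom le_rfl)

theorem preMap_comp {m m' m'' : ℕ} {H H' H'' : Type*} [Group H] [Group H'] [Group H'']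
    (h : m' ∣ m) (h' : m'' ∣ m') (ψ : H →* H') (ψ' : H' →* H'') :
    (preMap h' ψ').comp (preMap h ψ) = preMap (h'.trans h) (ψ'.comp ψ) := by
  have hc : (ZMod.castHom h' (ZMod m'')).comp (ZMod.castHom h (ZMod m')) =
      ZMod.castHom (h'.trans h) (ZMod m'') := Subsingleton.elim _ _
  rw [preMap, preMap, preMap, ← hc, MonoidAlgebra.mapDomainRingHom_comp, MonoidAlgebra.mapRingHom_comp]
  rw [RingHom.comp_assoc, ← RingHom.comp_assoc _ (MonoidAlgebra.mapDomainRingHom _ ψ),
    MonoidAlgebra.mapRingHom_comp_mapDomainRingHom]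
  simp only [RingHom.comp_assoc]

theorem UA.map_map {m m' m'' : ℕ} {H H' H'' : Type*} [Group H] [Group H'] [Group H'']
    (n : ℕ) (h : m' ∣ m) (h' : m'' ∣ m') (ψ : H →* H') (ψ' : H' →* H'') (x : UA n m H) :
    UA.map n h' ψ' (UA.map n h ψ x) = UA.map n (h'.trans h) (ψ'.comp ψ) x := by
  obtain ⟨y, rfl⟩ := UA.mk_surjective n m H x
  rw [UA.map_mk, UA.map_mk, UA.map_mk, ← preMap_comp h h' ψ ψ', RingHom.comp_apply]

@[simp]
theorem UA.map_of {m m' : ℕ} {H H' : Type*} [Group H] [Group H']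
    (n : ℕ) (h : m' ∣ m) (ψ : H →* H') (x : H) :
    UA.map n h ψ (UA.of n m H x) = UA.of n m' H' (ψ x) := by
  rw [UA.of, UA.of, UA.map_mk]
  congr 1
  rw [preMap, RingHom.comp_apply, MonoidAlgebra.mapRingHom_single, map_one]
  simp

/-- Functoriality for families. -/
def Fam.map (φ : π →ₜ* π') (x : Fam p n π) : Fam p n π' := fun k N => levMap p n φ k N (x k (onsComap φ N))

theorem compat_map (φ : π →ₜ* π') (x : EInt p n π) : Compat p n π' (Fam.map p n φ x.1) := by
  intro k k' hk N M h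
  have h' : onsComap φ N ≤ onsComap φ M := fun g hg => h hg
  change trans p n π' hk h (levMap p n φ k' N (x.1 k' (onsComap φ N))) =
    levMap p n φ k M (x.1 k (onsComap φ M))
  rw [← x.2 k k' hk (onsComap φ N) (onsComap φ M) h', levMap, levMap, trans, trans]
  erw [UA.map_map, UA.map_map]
  have e : (QuotientGroup.map N.toSubgroup M.toSubgroup (MonoidHom.id π') h).comp
      (QuotientGroup.map (onsComap φ N).toSubgroup N.toSubgroup φ.toMonoidHom le_rfl) =
      (QuotientGroup.map (onsComap φ M).toSubgroup M.toSubgroup φ.toMonoidHom le_rfl).comp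
      (QuotientGroup.map (onsComap φ N).toSubgroup (onsComap φ M).toSubgroup
        (MonoidHom.id π) h') := by
    apply QuotientGroup.monoidHom_ext
    ext g
    rfl
  rw [e]

/-- Functoriality of `ℤ_p[[π]] / I^(n+1)`. -/
def EInt.mapFun (φ : π →ₜ* π') (x : EInt p n π) : EInt p n π' :=
  ⟨Fam.map p n φ x.1, compat_map p n φ x⟩

theorem EInt.mapFun_one (φ : π →ₜ* π') : EInt.mapFun p n φ 1 = 1 := by
  apply Subtype.ext
  funext k N
  exact map_one (levMap p n φ k N)

theorem EInt.mapFun_zero (φ : π →ₜ* π') : EInt.mapFun p n φ 0 = 0 := by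
  apply Subtype.ext
  funext k N
  exact map_zero (levMap p n φ k N)

theorem EInt.mapFun_mul (φ : π →ₜ* π') (x y : EInt p n π) :
    EInt.mapFun p n φ (x * y) = EInt.mapFun p n φ x * EInt.mapFun p n φ y := by
  apply Subtype.ext
  funext k N
  exact map_mul (levMap p n φ k N) _ _

theorem EInt.mapFun_add (φ : π →ₜ* π') (x y : EInt p n π) :
    EInt.mapFun p n φ (x + y) = EInt.mapFun p n φ x + EInt.mapFun p n φ y := by
  apply Subtype.ext
  funext k N
  exact map_add (levMap p n φ k N) _ _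

/-- Functoriality of `ℤ_p[[π]] / I^(n+1)`. -/
def EInt.map (φ : π →ₜ* π') : EInt p n π →+* EInt p n π' where
  toFun := EInt.mapFun p n φ
  map_one' := EInt.mapFun_one p n φ
  map_mul' := EInt.mapFun_mul p n φ
  map_zero' := EInt.mapFun_zero p n φ
  map_add' := EInt.mapFun_add p n φ

/-- Functoriality of `ℚ_p ⊗ ℤ_p[[π]] / I^(n+1)`. -/
def EQ.map (φ : π →ₜ* π') : EQ p n π →+* EQ p n π' :=
  (Algebra.TensorProduct.map (AlgHom.id ℤ ℚ) (EInt.map p n φ).toIntAlgHom).toRingHom

/-- The map underlying `EQ.map`. -/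
def EQ.mapFun (φ : π →ₜ* π') (x : EQ p n π) : EQ p n π' := EQ.map p n φ x

/-- Multiplication in `ℚ_p ⊗ ℤ_p[[π]] / I^(n+1)`. -/
def EQ.mul (x y : EQ p n π) : EQ p n π := x * y

/-- An element of `ℚ_p ⊗ ℤ_p[[π]] / I^(n+1)` is group-like if its image under the map induced by
the diagonal `π → π × π` is the product of its images under the two inclusions `π → π × π`
(that is `Δ(g) = g ⊗ g`, modulo the terms of total degree at least `n + 1`). -/
def IsGroupLike (g : EQ p n π) : Prop :=
  EQ.mapFun p n (ContinuousMonoidHom.diag π) g = EQ.mul p n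
    (EQ.mapFun p n (ContinuousMonoidHom.inl π π) g) (EQ.mapFun p n (ContinuousMonoidHom.inr π π) g)

theorem isGroupLike_iff (g : EQ p n π) : IsGroupLike p n g ↔
  EQ.map p n (ContinuousMonoidHom.diag π) g =
    EQ.map p n (ContinuousMonoidHom.inl π π) g * EQ.map p n (ContinuousMonoidHom.inr π π) g :=
  Iff.rfl

/-! ### Lemmas needed for the group structure -/

theorem EQ.map_tmul (φ : π →ₜ* π') (a : ℚ) (x : EInt p n π) :
    EQ.map p n φ (EQ.tmul p n π a x) = EQ.tmul p n π' a (EInt.map p n φ x) := rfl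

theorem EQ.tmul_mul_tmul (a b : ℚ) (x y : EInt p n π) :
    EQ.tmul p n π a x * EQ.tmul p n π b y = EQ.tmul p n π (a * b) (x * y) :=
  Algebra.TensorProduct.tmul_mul_tmul a b x y

theorem EQ.ind {P : EQ p n π → Prop} (h0 : P 0) (ht : ∀ a x, P (EQ.tmul p n π a x))
    (ha : ∀ x y, P x → P y → P (x + y)) (x : EQ p n π) : P x :=
  TensorProduct.induction_on x h0 ht ha

theorem preMap_commute {m m' : ℕ} {H H' G : Type*} [Group H] [Group H'] [Group G]
    (h : m' ∣ m) (α : H →* G) (β : H' →* G) (hc : ∀ a b, Commute (α a) (β b))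
    (x : MonoidAlgebra (ZMod m) H) (y : MonoidAlgebra (ZMod m) H') :
    Commute (preMap h α x) (preMap h β y) := by
  induction x using MonoidAlgebra.induction_linear with
  | zero => rw [map_zero]; exact Commute.zero_left _
  | add x x' hx hx' => rw [map_add]; exact hx.add_left hx'
  | single a r =>
    induction y using MonoidAlgebra.induction_linear with
    | zero => rw [map_zero]; exact Commute.zero_right _
    | add y y' hy hy' => rw [map_add]; exact hy.add_right hy'
    | single b s =>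
      rw [preMap, preMap, RingHom.comp_apply, RingHom.comp_apply, MonoidAlgebra.mapRingHom_single,
        MonoidAlgebra.mapRingHom_single, MonoidAlgebra.mapDomainRingHom_apply,
        MonoidAlgebra.mapDomainRingHom_apply, MonoidAlgebra.mapDomain_single,
        MonoidAlgebra.mapDomain_single, commute_iff_eq, MonoidAlgebra.single_mul_single,
        MonoidAlgebra.single_mul_single, (hc a b).eq, mul_comm (ZMod.castHom h (ZMod m') r)]

theorem UA.map_commute {m m' : ℕ} {H H' G : Type*} [Group H] [Group H'] [Group G]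
    (h : m' ∣ m) (α : H →* G) (β : H' →* G) (hc : ∀ a b, Commute (α a) (β b))
    (x : UA n m H) (y : UA n m H') : Commute (UA.map n h α x) (UA.map n h β y) := by
  obtain ⟨x, rfl⟩ := UA.mk_surjective n m H x
  obtain ⟨y, rfl⟩ := UA.mk_surjective n m H' y
  rw [UA.map_mk, UA.map_mk]
  exact (preMap_commute h α β hc x y).map (UA.mk n m' G)

theorem EInt.map_commute (φ : π →ₜ* π'') (φ' : π' →ₜ* π'') (hc : ∀ a b, Commute (φ a) (φ' b))
    (x : EInt p n π) (y : EInt p n π') : Commute (EInt.map p n φ x) (EInt.map p n φ' y) := by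
  apply Subtype.ext
  funext k N
  refine UA.map_commute n (dvd_refl (p ^ k)) (QuotientGroup.map _ _ φ.toMonoidHom le_rfl)
    (QuotientGroup.map _ _ φ'.toMonoidHom le_rfl) ?_ (x.1 k (onsComap φ N)) (y.1 k (onsComap φ' N))
  intro a b
  obtain ⟨a, rfl⟩ := QuotientGroup.mk_surjective a
  obtain ⟨b, rfl⟩ := QuotientGroup.mk_surjective b
  exact (hc a b).map (QuotientGroup.mk' N.toSubgroup)

theorem EQ.map_commute (φ : π →ₜ* π'') (φ' : π' →ₜ* π'') (hc : ∀ a b, Commute (φ a) (φ' b))
    (x : EQ p n π) (y : EQ p n π') : Commute (EQ.map p n φ x) (EQ.map p n φ' y) := by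
  induction x using EQ.ind with
  | h0 => rw [map_zero]; exact Commute.zero_left _
  | ha x x' hx hx' => rw [map_add]; exact hx.add_left hx'
  | ht a x =>
    induction y using EQ.ind with
    | h0 => rw [map_zero]; exact Commute.zero_right _
    | ha y y' hy hy' => rw [map_add]; exact hy.add_right hy'
    | ht b y =>
      rw [EQ.map_tmul, EQ.map_tmul, commute_iff_eq]
      have := (EInt.map_commute p n φ φ' hc x y).eq
      rw [EQ.tmul_mul_tmul, EQ.tmul_mul_tmul, this, mul_comm]

theorem inl_commute_inr (a b : π) :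
    Commute (ContinuousMonoidHom.inl π π a) (ContinuousMonoidHom.inr π π b) := by
  change (a, (1 : π)) * ((1 : π), b) = ((1 : π), b) * (a, (1 : π))
  simp

theorem IsGroupLike.mul {g h : EQ p n π} (hg : IsGroupLike p n g) (hh : IsGroupLike p n h) :
    IsGroupLike p n (g * h) := by
  rw [isGroupLike_iff] at hg hh ⊢
  rw [map_mul, map_mul, map_mul, hg, hh]
  have hc := EQ.map_commute p n (ContinuousMonoidHom.inl π π) (ContinuousMonoidHom.inr π π)
    inl_commute_inr h g
  rw [mul_assoc, ← mul_assoc _ (EQ.map p n (ContinuousMonoidHom.inl π π) h), ← hc.eq]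
  simp only [mul_assoc]

theorem IsGroupLike.one : IsGroupLike p n (1 : EQ p n π) := by
  rw [isGroupLike_iff]
  simp only [map_one, mul_one]

theorem IsGroupLike.inv {g : EQU p n π} (hg : IsGroupLike p n (g : EQ p n π)) :
    IsGroupLike p n ((g⁻¹ : EQU p n π) : EQ p n π) := by
  rw [isGroupLike_iff] at *
  have hc := EQ.map_commute p n (ContinuousMonoidHom.inl π π) (ContinuousMonoidHom.inr π π)
    inl_commute_inr (g : EQ p n π) (g : EQ p n π)
  have e0 : Units.map (EQ.map p n (ContinuousMonoidHom.diag π)).toMonoidHom g =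
    Units.map (EQ.map p n (ContinuousMonoidHom.inl π π)).toMonoidHom g *
      Units.map (EQ.map p n (ContinuousMonoidHom.inr π π)).toMonoidHom g := Units.ext hg
  have e := congrArg Inv.inv e0
  have hc' : Commute (Units.map (EQ.map p n (ContinuousMonoidHom.inl π π)).toMonoidHom g)
      (Units.map (EQ.map p n (ContinuousMonoidHom.inr π π)).toMonoidHom g) := Units.ext hc
  rw [hc'.eq, mul_inv_rev, ← map_inv, ← map_inv, ← map_inv] at e
  exact congrArg Units.val e

/-- Group-like units. -/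
def IsGL (g : EQU p n π) : Prop := IsGroupLike p n g.val

theorem IsGL.mul {g h : EQU p n π} (hg : IsGL p n g) (hh : IsGL p n h) : IsGL p n (g * h) :=
  IsGroupLike.mul p n hg hh

theorem IsGL.one : IsGL p n (1 : EQU p n π) := IsGroupLike.one p n

theorem IsGL.inv {g : EQU p n π} (hg : IsGL p n g) : IsGL p n g⁻¹ := IsGroupLike.inv p n hg

variable (π) in
/-- The subgroup of group-like elements. -/
def UQS : Subgroup (EQU p n π) where
  carrier := {g | IsGL p n g}
  mul_mem' := @IsGL.mul p n π _ _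
  one_mem' := @IsGL.one p n π _ _
  inv_mem' := @IsGL.inv p n π _ _

variable (π) in
/-- `U_n(ℚ_p)`: the group of group-like elements of `ℚ_p ⊗ ℤ_p[[π]] / I^(n+1)`. -/
def UQ : Type _ := UQS p n π

instance UQ.instGroup : Group (UQ p n π) := (UQS p n π).toGroup

/-- The unit underlying a group-like element. -/
def UQ.unit (g : UQ p n π) : EQU p n π := g.1

theorem UQ.isGL (g : UQ p n π) : IsGL p n (UQ.unit p n g) := g.2

/-- The element of `U_n(ℚ_p)` defined by a group-like unit. -/
def UQ.mk (g : EQU p n π) (h : IsGL p n g) : UQ p n π := ⟨g, h⟩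

/-- The class of an element of `π` at level `(k, N)`. -/
def Lev.of (g : π) : Fam p n π := fun k N => UA.of n (p ^ k) (π ⧸ N.toSubgroup) (QuotientGroup.mk g)

theorem Lev.of_compat (g : π) : Compat p n π (Lev.of p n g) := fun _ _ _ _ _ _ => UA.map_of n _ _ _

/-- The family defined by an element of `π`. -/
def EInt.ofFun (g : π) : EInt p n π := ⟨Lev.of p n g, Lev.of_compat p n g⟩

/-- The class of an element of `π` in `ℚ_p ⊗ ℤ_p[[π]] / I^(n+1)`. -/
def EQ.ofFun (g : π) : EQ p n π := EQ.tmul p n π 1 (EInt.ofFun p n g)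

theorem UA.of_mul {m : ℕ} {H : Type*} [Group H] (g h : H) :
    UA.of n m H (g * h) = UA.of n m H g * UA.of n m H h := by
  rw [UA.of, UA.of, UA.of, ← map_mul, MonoidAlgebra.single_mul_single, mul_one]

theorem UA.of_one {m : ℕ} {H : Type*} [Group H] : UA.of n m H (1 : H) = 1 := by
  rw [UA.of, ← MonoidAlgebra.one_def, map_one]

theorem EInt.ofFun_mul (g h : π) : EInt.ofFun p n (g * h) = EInt.ofFun p n g * EInt.ofFun p n h := by
  apply Subtype.ext
  funext k N
  exact UA.of_mul n (QuotientGroup.mk g : π ⧸ N.toSubgroup) (QuotientGroup.mk h)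

theorem EInt.ofFun_one : EInt.ofFun p n (1 : π) = 1 := by
  apply Subtype.ext
  funext k N
  exact UA.of_one n (H := π ⧸ N.toSubgroup)

theorem EQ.ofFun_mul (g h : π) : EQ.ofFun p n (g * h) = EQ.ofFun p n g * EQ.ofFun p n h := by
  rw [EQ.ofFun, EQ.ofFun, EQ.ofFun, EQ.tmul_mul_tmul, one_mul, EInt.ofFun_mul]

theorem EQ.ofFun_one : EQ.ofFun p n (1 : π) = 1 := by
  rw [EQ.ofFun, EInt.ofFun_one]
  rfl

theorem EInt.map_of (φ : π →ₜ* π') (g : π) :
    EInt.map p n φ (EInt.ofFun p n g) = EInt.ofFun p n (φ g) := by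
  apply Subtype.ext
  funext k N
  exact UA.map_of n (dvd_refl (p ^ k)) _ (QuotientGroup.mk g)

theorem EQ.map_of (φ : π →ₜ* π') (g : π) : EQ.map p n φ (EQ.ofFun p n g) = EQ.ofFun p n (φ g) := by
  rw [EQ.ofFun, EQ.map_tmul, EInt.map_of]
  rfl

theorem isGroupLike_of (g : π) : IsGroupLike p n (EQ.ofFun p n g) := by
  rw [isGroupLike_iff, EQ.map_of, EQ.map_of, EQ.map_of, ← EQ.ofFun_mul]
  congr 1
  change ((g, g) : π × π) = (g, 1) * (1, g)
  simp

theorem EQ.ofFun_mul_inv (g : π) : EQ.ofFun p n g * EQ.ofFun p n g⁻¹ = 1 := by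
  rw [← EQ.ofFun_mul, mul_inv_cancel, EQ.ofFun_one]

theorem EQ.ofFun_inv_mul (g : π) : EQ.ofFun p n g⁻¹ * EQ.ofFun p n g = 1 := by
  rw [← EQ.ofFun_mul, inv_mul_cancel, EQ.ofFun_one]

/-- The class of an element of `π` as a unit. -/
def EQ.ofUnit (g : π) : EQU p n π where
  val := EQ.ofFun p n g
  inv := EQ.ofFun p n g⁻¹
  val_inv := EQ.ofFun_mul_inv p n g
  inv_val := EQ.ofFun_inv_mul p n g

/-- The class of an element of `π` in `U_n(ℚ_p)`. -/
def UQ.ofFun (g : π) : UQ p n π := UQ.mk p n (EQ.ofUnit p n g) (isGroupLike_of p n g)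

theorem UQ.ofFun_mul (g h : π) : UQ.ofFun p n (g * h) = UQ.ofFun p n g * UQ.ofFun p n h := by
  apply Subtype.ext
  apply Units.ext
  exact EQ.ofFun_mul p n g h

/-- The canonical homomorphism `π → U_n(ℚ_p)`. -/
def UQ.of : π →* UQ p n π := MonoidHom.mk' (UQ.ofFun p n) (UQ.ofFun_mul p n)

theorem EInt.map_map (φ : π →ₜ* π') (φ' : π' →ₜ* π'') (x : EInt p n π) :
    EInt.map p n φ' (EInt.map p n φ x) = EInt.map p n (φ'.comp φ) x := by
  apply Subtype.ext
  funext k N
  change UA.map n (dvd_refl (p ^ k)) _ (UA.map n (dvd_refl (p ^ k)) _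
    (x.1 k (onsComap φ (onsComap φ' N)))) = UA.map n (dvd_refl (p ^ k)) _ (x.1 k (onsComap (φ'.comp φ) N))
  erw [UA.map_map]
  have e : (QuotientGroup.map (onsComap φ' N).toSubgroup N.toSubgroup φ'.toMonoidHom le_rfl).comp
      (QuotientGroup.map (onsComap φ (onsComap φ' N)).toSubgroup (onsComap φ' N).toSubgroup
        φ.toMonoidHom le_rfl) =
      (QuotientGroup.map (onsComap (φ'.comp φ) N).toSubgroup N.toSubgroup (φ'.comp φ).toMonoidHom le_rfl) := by
    apply QuotientGroup.monoidHom_ext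
    ext g
    rfl
  rw [e]
  rfl

theorem EQ.map_map (φ : π →ₜ* π') (φ' : π' →ₜ* π'') (x : EQ p n π) :
    EQ.map p n φ' (EQ.map p n φ x) = EQ.map p n (φ'.comp φ) x := by
  induction x using EQ.ind with
  | h0 => rw [map_zero, map_zero, map_zero]
  | ht a x => rw [EQ.map_tmul, EQ.map_tmul, EQ.map_tmul, EInt.map_map]
  | ha x y hx hy => rw [map_add, map_add, map_add, hx, hy]

theorem IsGroupLike.map (φ : π →ₜ* π') {g : EQ p n π} (hg : IsGroupLike p n g) :
    IsGroupLike p n (EQ.map p n φ g) := by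
  rw [isGroupLike_iff] at *
  have h1 : (ContinuousMonoidHom.diag π').comp φ =
      (ContinuousMonoidHom.prodMap φ φ).comp (ContinuousMonoidHom.diag π) := by
    ext x <;> rfl
  have h2 : (ContinuousMonoidHom.inl π' π').comp φ =
      (ContinuousMonoidHom.prodMap φ φ).comp (ContinuousMonoidHom.inl π π) := by
    apply ContinuousMonoidHom.ext
    intro x
    change (φ x, (1 : π')) = (φ x, φ 1)
    rw [map_one]
  have h3 : (ContinuousMonoidHom.inr π' π').comp φ =
      (ContinuousMonoidHom.prodMap φ φ).comp (ContinuousMonoidHom.inr π π) := by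
    apply ContinuousMonoidHom.ext
    intro x
    change ((1 : π'), φ x) = (φ 1, φ x)
    rw [map_one]
  rw [EQ.map_map, EQ.map_map, EQ.map_map, h1, h2, h3, ← EQ.map_map, ← EQ.map_map, ← EQ.map_map, hg,
    map_mul]

/-- Functoriality of the unit group of `ℚ_p ⊗ ℤ_p[[π]] / I^(n+1)`. -/
def EQ.mapUnit (φ : π →ₜ* π') : EQU p n π →* EQU p n π' := Units.map (EQ.map p n φ).toMonoidHom

theorem IsGL.map (φ : π →ₜ* π') {g : EQU p n π} (hg : IsGL p n g) :
    IsGL p n (EQ.mapUnit p n φ g) := IsGroupLike.map p n φ hg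

/-- Functoriality of `U_n(ℚ_p)`. -/
def UQ.mapFun (φ : π →ₜ* π') (g : UQ p n π) : UQ p n π' :=
  UQ.mk p n (EQ.mapUnit p n φ (UQ.unit p n g)) (IsGL.map p n φ (UQ.isGL p n g))

theorem UQ.mapFun_mul (φ : π →ₜ* π') (g h : UQ p n π) :
    UQ.mapFun p n φ (g * h) = UQ.mapFun p n φ g * UQ.mapFun p n φ h := by
  apply Subtype.ext
  exact map_mul (EQ.mapUnit p n φ) g.1 h.1

/-- Functoriality of `U_n(ℚ_p)`. -/
def UQ.map (φ : π →ₜ* π') : UQ p n π →* UQ p n π' := MonoidHom.mk' (UQ.mapFun p n φ) (UQ.mapFun_mul p n φ)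

/-- The topology of `ℤ_p[[π]] / I^(n+1)` as a limit of discrete rings. -/
instance EInt.instTop : TopologicalSpace (EInt p n π) :=
  TopologicalSpace.induced
    (fun x (k : ℕ) (N : OpenNormalSubgroup π) => x.1 k N)
    (@Pi.topologicalSpace _ _ fun _ => @Pi.topologicalSpace _ _ fun _ => ⊥)

/-- The topology of `ℚ_p ⊗ ℤ_p[[π]] / I^(n+1)`: the finest topology for which all the maps
`x ↦ (1/m) ⊗ x` from `ℤ_p[[π]] / I^(n+1)` are continuous. -/
instance EQ.instTop : TopologicalSpace (EQ p n π) :=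
  ⨆ m : ℕ, TopologicalSpace.coinduced (EQ.tmul p n π (1 / (m + 1))) inferInstance

/-- The topology of `U_n(ℚ_p)`: the topology induced from `ℚ_p ⊗ ℤ_p[[π]] / I^(n+1)`. -/
instance UQ.instTop : TopologicalSpace (UQ p n π) :=
  TopologicalSpace.induced (fun g => (UQ.unit p n g).val) (EQ.instTop p n)

end limit

end Pool.Agent.H83.Kim
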