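import Pool.Agent.H83.Kim.UnivCover

/-! Galois actions on paths defined by points of the universal cover. -/

noncomputable section

namespace Pool.Agent.H83.Kim

section

variable {A W : Type} [CommRing A] [CommRing W] [IsDomain W] [Algebra A W]
  [IsDomain A] [IsPrincipalIdealRing A] [FaithfulSMul A W]

theorem Ahat.map_mem (σA : A ≃+* A) (σW : W ≃+* W)
    (hσ : ∀ a, σW (algebraMap A W a) = algebraMap A W (σA a)) {g : W} (hg : g ∈ Ahat A W) :
    σW g ∈ Ahat A W := by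
  obtain ⟨B, hB, hgB⟩ := hg
  let φ : Fib (algebraMap A W) (hB.cov.twist σA.symm) :=
    ⟨(σW : W →+* W).comp (B.val : B →+* W), by
      ext a
      change σW (algebraMap A W (σA.symm a)) = algebraMap A W a
      rw [hσ, RingEquiv.apply_symm_apply]⟩
  exact φ.mem_Ahat (⟨g, hgB⟩ : B)

/-- The action of an automorphism on the universal cover. -/
def Ahat.equiv (σA : A ≃+* A) (σW : W ≃+* W)
    (hσ : ∀ a, σW (algebraMap A W a) = algebraMap A W (σA a)) : Ahat A W ≃+* Ahat A W where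
  toFun g := ⟨σW g.1, Ahat.map_mem σA σW hσ g.2⟩
  invFun g := ⟨σW.symm g.1, Ahat.map_mem σA.symm σW.symm (fun a => by
    rw [RingEquiv.symm_apply_eq, hσ, RingEquiv.apply_symm_apply]) g.2⟩
  left_inv g := Subtype.ext (σW.symm_apply_apply _)
  right_inv g := Subtype.ext (σW.apply_symm_apply _)
  map_mul' a b := Subtype.ext (map_mul σW _ _)
  map_add' a b := Subtype.ext (map_add σW _ _)

theorem Ahat.coe_equiv (σA : A ≃+* A) (σW : W ≃+* W)
    (hσ : ∀ a, σW (algebraMap A W a) = algebraMap A W (σA a)) (g : Ahat A W) :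
    ((Ahat.equiv σA σW hσ g : Ahat A W) : W) = σW g.1 := rfl

theorem Ahat.coe_equiv_symm (σA : A ≃+* A) (σW : W ≃+* W)
    (hσ : ∀ a, σW (algebraMap A W a) = algebraMap A W (σA a)) (g : Ahat A W) :
    (((Ahat.equiv σA σW hσ).symm g : Ahat A W) : W) = σW.symm g.1 := rfl

variable {κ : Type} [Field κ] [IsAlgClosed κ]

theorem pathOf_act (ε : W →+* κ) (hε : Function.Surjective ε) [IsAdicComplete (RingHom.ker ε) W]
    {x : A →+* κ} (hx : ε.comp (algebraMap A W) = x)
    {Ω : Type} [Field Ω] [IsAlgClosed Ω] {y : A →+* Ω}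
    (h : Ahat A W →+* Ω) (hy : h.comp (algebraMap A (Ahat A W)) = y)
    (σA : A ≃+* A) (σW : W ≃+* W) (σκ : κ ≃+* κ) (τ : Ω ≃+* Ω)
    (hσ : ∀ a, σW (algebraMap A W a) = algebraMap A W (σA a))
    (hε' : ∀ w, ε (σW w) = σκ (ε w))
    (h₁ : ∀ a, σκ (x a) = x (σA a)) (h₂ : ∀ a, τ (y a) = y (σA a))
    (h' : Ahat A W →+* Ω) (hy' : h'.comp (algebraMap A (Ahat A W)) = y)
    (hh' : ∀ g, h' g = τ (h ((Ahat.equiv σA σW hσ).symm g))) :
    (pathOf ε hε hx h hy).act σA σκ τ h₁ h₂ = pathOf ε hε hx h' hy' := by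
  apply Path.ext
  intro c a
  obtain ⟨χ, rfl⟩ := (Fib.push_bijective_of_complete ε hε hx c).2 a
  rw [pathOf_map, Path.act_map]
  let χ' : Fib (algebraMap A W) (c.twist σA) := ⟨(σW.symm : W →+* W).comp χ.1, by
    ext a
    change σW.symm (χ.1 (c.s (σA a))) = algebraMap A W a
    have := RingHom.congr_fun χ.2 (σA a)
    rw [RingHom.comp_apply] at this
    rw [this, RingEquiv.symm_apply_eq, hσ]⟩
  have e1 : Fib.twist σA σκ h₁ c (Fib.push ε hx χ) = Fib.push ε hx χ' := by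
    apply Subtype.ext
    ext b
    change σκ.symm (ε (χ.1 b)) = ε (σW.symm (χ.1 b))
    rw [RingEquiv.symm_apply_eq, ← hε', RingEquiv.apply_symm_apply]
  rw [e1, pathOf_map, Equiv.symm_apply_eq]
  apply Subtype.ext
  ext b
  change h (χ'.toAhat b) = τ.symm (h' (χ.toAhat b))
  rw [hh', RingEquiv.symm_apply_apply]
  rfl

theorem pathOf_diff_map (ε : W →+* κ) (hε : Function.Surjective ε) [IsAdicComplete (RingHom.ker ε) W]
    {x : A →+* κ} (hx : ε.comp (algebraMap A W) = x)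
    {Ω : Type} [Field Ω] [IsAlgClosed Ω] {y : A →+* Ω}
    (h h' : Ahat A W →+* Ω) (hy : h.comp (algebraMap A (Ahat A W)) = y)
    (hy' : h'.comp (algebraMap A (Ahat A W)) = y) (c : Cov A) (χ χ' : Fib (algebraMap A W) c) :
    ((pathOf ε hε hx h hy).diff (pathOf ε hε hx h' hy')).map c (Fib.push ε hx χ) =
      Fib.push ε hx χ' ↔ ∀ b, h (χ'.toAhat b) = h' (χ.toAhat b) := by
  change ((pathOf ε hε hx h hy).map c).symm ((pathOf ε hε hx h' hy').map c (Fib.push ε hx χ)) = _ ↔ _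
  rw [Equiv.symm_apply_eq, pathOf_map, pathOf_map]
  constructor
  · intro H b
    exact (RingHom.congr_fun (congrArg Subtype.val H) b).symm
  · intro H
    apply Subtype.ext
    ext b
    exact (H b).symm

/-- Composition with a homomorphism of the fields of values does not change the difference of
two paths. -/
theorem pathOf_diff_comp (ε : W →+* κ) (hε : Function.Surjective ε) [IsAdicComplete (RingHom.ker ε) W]
    {x : A →+* κ} (hx : ε.comp (algebraMap A W) = x)
    {Ω : Type} [Field Ω] [IsAlgClosed Ω] {y : A →+* Ω} {Ω' : Type} [Field Ω'] [IsAlgClosed Ω']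
    {y' : A →+* Ω'} (ι : Ω →+* Ω')
    (h h' : Ahat A W →+* Ω) (hy : h.comp (algebraMap A (Ahat A W)) = y)
    (hy' : h'.comp (algebraMap A (Ahat A W)) = y)
    (hι : (ι.comp h).comp (algebraMap A (Ahat A W)) = y')
    (hι' : (ι.comp h').comp (algebraMap A (Ahat A W)) = y') :
    (pathOf ε hε hx (ι.comp h) hι).diff (pathOf ε hε hx (ι.comp h') hι') =
      (pathOf ε hε hx h hy).diff (pathOf ε hε hx h' hy') := by
  apply Path.ext
  intro c a
  obtain ⟨χ, rfl⟩ := (Fib.push_bijective_of_complete ε hε hx c).2 a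
  obtain ⟨χ', hχ'⟩ := (Fib.push_bijective_of_complete ε hε hx c).2
    (((pathOf ε hε hx h hy).diff (pathOf ε hε hx h' hy')).map c (Fib.push ε hx χ))
  rw [← hχ', pathOf_diff_map]
  intro b
  rw [RingHom.comp_apply, RingHom.comp_apply]
  exact congrArg ι ((pathOf_diff_map ε hε hx h h' hy hy' c χ χ').mp hχ'.symm b)

end

section group

variable {A : Type} [CommRing A] {Ω₁ Ω₂ Ω₃ : Type*} [CommRing Ω₁] [CommRing Ω₂] [CommRing Ω₃]

theorem Path.diff_mul_diff {x : A →+* Ω₁} {y : A →+* Ω₂} (γ δ η : Path x y) :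
    γ.diff δ * δ.diff η = γ.diff η := by
  apply Path.ext
  intro c a
  change (γ.map c).symm (δ.map c ((δ.map c).symm (η.map c a))) = (γ.map c).symm (η.map c a)
  rw [Equiv.apply_symm_apply]

theorem Path.diff_self {x : A →+* Ω₁} {y : A →+* Ω₂} (γ : Path x y) : γ.diff γ = 1 := by
  apply Path.ext
  intro c a
  exact (γ.map c).symm_apply_apply a

theorem Path.actHom_diff {x : A →+* Ω₁} {y : A →+* Ω₂} (γ δ : Path x y) (σA : A ≃+* A)
    (σ₁ : Ω₁ ≃+* Ω₁) (σ₂ : Ω₂ ≃+* Ω₂)
    (h₁ : ∀ a, σ₁ (x a) = x (σA a)) (h₂ : ∀ a, σ₂ (y a) = y (σA a)) :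
    Path.actHom σA σ₁ h₁ (γ.diff δ) = (γ.act σA σ₁ σ₂ h₁ h₂).diff (δ.act σA σ₁ σ₂ h₁ h₂) := by
  apply Path.ext
  intro c a
  change (Fib.twist σA σ₁ h₁ c).symm (((γ.map _).symm (δ.map _ (Fib.twist σA σ₁ h₁ c a)))) =
    ((γ.act σA σ₁ σ₂ h₁ h₂).map c).symm ((δ.act σA σ₁ σ₂ h₁ h₂).map c a)
  rw [Equiv.eq_symm_apply, Path.act_map, Path.act_map, Equiv.apply_symm_apply,
    Equiv.apply_symm_apply]

instance (x : A →+* Ω₁) : ContinuousMul (Path x x) := by
  constructor
  rw [continuous_path_iff]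
  intro c a b
  have : {t : Path x x × Path x x | (t.1 * t.2).map c a = b} =
      ⋃ a' : Fib x c, {t : Path x x × Path x x | t.2.map c a = a'} ∩
        {t : Path x x × Path x x | t.1.map c a' = b} := by
    ext t
    simp only [Set.mem_setOf_eq, Set.mem_iUnion, Set.mem_inter_iff, Path.mul_map]
    constructor
    · intro h
      exact ⟨_, rfl, h⟩
    · rintro ⟨a', h1, h2⟩
      rw [h1, h2]
  rw [this]
  exact isOpen_iUnion fun a' => ((isOpen_path_eval c a a').preimage continuous_snd).inter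
    ((isOpen_path_eval c a' b).preimage continuous_fst)

end group

end Pool.Agent.H83.Kim
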