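import Mathlib

/-! Extension of homomorphisms to algebraically closed fields along integral extensions. -/

noncomputable section

namespace Pool.Agent.H83.Kim

theorem exists_extension_aux {R S : Type*} [CommRing R] [CommRing S] [IsDomain R] [IsDomain S]
    {Ω : Type*} [Field Ω] [IsAlgClosed Ω] (f : R →+* S) (g : R →+* Ω)
    (hf : Function.Injective f) (hg : Function.Injective g) (hint : f.IsIntegral) :
    ∃ h : S →+* Ω, ∀ r, h (f r) = g r := by
  let := f.toAlgebra
  let := g.toAlgebra
  have t1 : Module.IsTorsionFree R Ω := by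
    rw [Module.isTorsionFree_iff_algebraMap_injective]
    exact hg
  have t2 : Module.IsTorsionFree R S := by
    rw [Module.isTorsionFree_iff_algebraMap_injective]
    exact hf
  have t3 : Algebra.IsIntegral R S := ⟨hint⟩
  let F : S →ₐ[R] Ω := IsAlgClosed.lift
  exact ⟨F.toRingHom, fun r => F.commutes r⟩

theorem exists_extension {R S : Type*} [CommRing R] [CommRing S] {Ω : Type*} [Field Ω] [IsAlgClosed Ω]
    (f : R →+* S) (g : R →+* Ω) (hf : Function.Injective f) (hint : f.IsIntegral) :
    ∃ h : S →+* Ω, ∀ r, h (f r) = g r := by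
  have hp : (RingHom.ker g).IsPrime := RingHom.ker_isPrime g
  let := f.toAlgebra
  have t3 : Algebra.IsIntegral R S := ⟨hint⟩
  obtain ⟨Q, -, hQ, hQP⟩ := Ideal.exists_ideal_over_prime_of_isIntegral (S := S) (RingHom.ker g) ⊥ (by
    intro x hx
    rw [Ideal.mem_comap, Ideal.mem_bot] at hx
    have : x = 0 := hf (by rw [map_zero]; exact hx)
    rw [this]
    exact Ideal.zero_mem _)
  have hQP' : RingHom.ker g ≤ Q.comap f := hQP.ge
  have hg : Function.Injective (Ideal.Quotient.lift (RingHom.ker g) g (fun a ha => ha)) :=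
    RingHom.kerLift_injective g
  have hq : Function.Injective (Ideal.quotientMap Q f hQP') :=
    Ideal.quotientMap_injective' (H := hQP') hQP.le
  obtain ⟨h, hh⟩ := exists_extension_aux (Ideal.quotientMap Q f hQP')
    (Ideal.Quotient.lift (RingHom.ker g) g (fun a ha => ha)) hq hg (by
      intro x
      obtain ⟨s, rfl⟩ := Ideal.Quotient.mk_surjective x
      obtain ⟨P, hP, hPs⟩ := hint s
      refine ⟨P.map (Ideal.Quotient.mk _), hP.map _, ?_⟩
      rw [Polynomial.eval₂_map]
      have e : (Ideal.quotientMap Q f hQP').comp (Ideal.Quotient.mk (RingHom.ker g)) =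
          (Ideal.Quotient.mk Q).comp f := by
        ext r
        rw [RingHom.comp_apply, Ideal.quotientMap_mk]
        rfl
      rw [e, ← Polynomial.hom_eval₂, hPs, map_zero])
  refine ⟨h.comp (Ideal.Quotient.mk Q), fun r => ?_⟩
  have h1 := hh (Ideal.Quotient.mk _ r)
  rw [Ideal.quotientMap_mk, Ideal.Quotient.lift_mk] at h1
  rw [RingHom.comp_apply, h1]

end Pool.Agent.H83.Kim
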