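import Pool.Agent.H83.Kim.Path

/-! Lemmas on étale paths. -/

noncomputable section

namespace Pool.Agent.H83.Kim

variable {A : Type} [CommRing A] {Ω Ω₁ Ω₂ Ω₃ : Type*} [CommRing Ω] [CommRing Ω₁] [CommRing Ω₂]
  [CommRing Ω₃]

/-- Functoriality of the fibre. -/
def Fib.map {x : A →+* Ω} {c d : Cov A} (φ : c.B →+* d.B) (hφ : φ.comp c.s = d.s) (h : Fib x d) :
    Fib x c :=
  ⟨h.1.comp φ, by rw [RingHom.comp_assoc, hφ, h.2]⟩

theorem Path.natural {x : A →+* Ω₁} {y : A →+* Ω₂} (γ : Path x y) (c d : Cov A) (φ : c.B →+* d.B)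
    (hφ : φ.comp c.s = d.s) (h : Fib x d) :
    γ.map c (Fib.map φ hφ h) = Fib.map φ hφ (γ.map d h) := by
  have e : (γ.map d h).1.comp φ = (γ.map c (Fib.map φ hφ h)).1 :=
    γ.nat c d φ hφ h (Fib.map φ hφ h) rfl
  exact (Subtype.ext e).symm

/-- Construction of paths. -/
def Path.ofNatural {x : A →+* Ω₁} {y : A →+* Ω₂} (map : ∀ c : Cov A, Fib x c ≃ Fib y c)
    (natural : ∀ (c d : Cov A) (φ : c.B →+* d.B) (hφ : φ.comp c.s = d.s) (h : Fib x d),
      map c (Fib.map φ hφ h) = Fib.map φ hφ (map d h)) : Path x y where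
  map := map
  nat c d φ hφ h h' e := by
    have e' : h' = Fib.map φ hφ h := Subtype.ext e.symm
    subst e'
    exact (congrArg Subtype.val (natural c d φ hφ h)).symm

theorem Path.ofNatural_map {x : A →+* Ω₁} {y : A →+* Ω₂} (map : ∀ c : Cov A, Fib x c ≃ Fib y c)
    (natural : ∀ (c d : Cov A) (φ : c.B →+* d.B) (hφ : φ.comp c.s = d.s) (h : Fib x d),
      map c (Fib.map φ hφ h) = Fib.map φ hφ (map d h)) (c : Cov A) :
    (Path.ofNatural map natural).map c = map c := rfl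

theorem Path.mul_map {x : A →+* Ω} (g h : Path x x) (c : Cov A) (a : Fib x c) :
    (g * h).map c a = g.map c (h.map c a) := rfl

theorem Path.one_map {x : A →+* Ω} (c : Cov A) (a : Fib x c) :
    (1 : Path x x).map c a = a := rfl

theorem Path.act_map {x : A →+* Ω₁} {y : A →+* Ω₂} (σA : A ≃+* A) (σ₁ : Ω₁ ≃+* Ω₁)
    (σ₂ : Ω₂ ≃+* Ω₂) (h₁ : ∀ a, σ₁ (x a) = x (σA a)) (h₂ : ∀ a, σ₂ (y a) = y (σA a))
    (γ : Path x y) (c : Cov A) (a : Fib x c) :
    (γ.act σA σ₁ σ₂ h₁ h₂).map c a =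
      (Fib.twist σA σ₂ h₂ c).symm (γ.map (c.twist σA) (Fib.twist σA σ₁ h₁ c a)) := rfl

end Pool.Agent.H83.Kim
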