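import Pool.Agent.H83.Kim.Unip

/-! Lemmas on the continuous unipotent completion. -/

open scoped TensorProduct Pointwise

noncomputable section

namespace Pool.Agent.H83.Kim

variable (p n : ℕ) {π : Type*} [Group π] [TopologicalSpace π]
  {π' : Type*} [Group π'] [TopologicalSpace π']
  {π'' : Type*} [Group π''] [TopologicalSpace π'']

theorem UQ.map_of (φ : π →ₜ* π') (g : π) : UQ.map p n φ (UQ.of p n g) = UQ.of p n (φ g) := by
  apply Subtype.ext
  apply Units.ext
  exact EQ.map_of p n φ g

theorem UQ.map_map (φ : π →ₜ* π') (φ' : π' →ₜ* π'') (g : UQ p n π) :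
    UQ.map p n φ' (UQ.map p n φ g) = UQ.map p n (φ'.comp φ) g := by
  apply Subtype.ext
  apply Units.ext
  exact EQ.map_map p n φ φ' _

theorem EInt.continuous_of [ContinuousMul π] : Continuous (EInt.ofFun p n (π := π)) := by
  rw [continuous_induced_rng]
  refine @continuous_pi _ _ _ _ (fun _ => @Pi.topologicalSpace _ _ fun _ => ⊥) _ fun k => ?_
  refine @continuous_pi _ _ _ _ (fun _ => ⊥) _ fun N => ?_
  refine @Continuous.mk _ _ _ ⊥ _ fun b _ => ?_
  rw [isOpen_iff_mem_nhds]
  intro g hg
  have h1 : g • (N : Set π) ∈ nhds g := by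
    have h2 : IsOpen (g • (N : Set π)) := N.toOpenSubgroup.isOpen.leftCoset g
    exact h2.mem_nhds ⟨1, N.toOpenSubgroup.one_mem, by simp⟩
  refine Filter.mem_of_superset h1 ?_
  rintro _ ⟨x, hx, rfl⟩
  change UA.of n (p ^ k) (π ⧸ N.toSubgroup) (QuotientGroup.mk (g * x)) ∈ b
  change UA.of n (p ^ k) (π ⧸ N.toSubgroup) (QuotientGroup.mk g) ∈ b at hg
  rw [QuotientGroup.mk_mul_of_mem g hx]
  exact hg

theorem UQ.continuous_of [ContinuousMul π] : Continuous (UQ.of p n (π := π)) := by
  rw [continuous_induced_rng]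
  have h1 : Continuous fun x : EInt p n π => EQ.tmul p n π (1 / ((0 : ℕ) + 1)) x := by
    rw [continuous_iff_coinduced_le]
    exact le_iSup (fun m : ℕ => TopologicalSpace.coinduced
      (fun x : EInt p n π => EQ.tmul p n π (1 / (m + 1)) x) inferInstance) 0
  have h2 : (fun g : π => (EQ.ofFun p n g)) =
      (fun x : EInt p n π => EQ.tmul p n π (1 / ((0 : ℕ) + 1)) x) ∘ (EInt.ofFun p n) := by
    funext g
    rw [Function.comp_apply, Nat.cast_zero, zero_add, div_one]
    rfl
  change Continuous fun g : π => (EQ.ofFun p n g)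
  rw [h2]
  exact h1.comp (EInt.continuous_of p n)

end Pool.Agent.H83.Kim
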