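import Pool.Agent.H83.Kim.Weier

/-! Bounded power series over the algebraic closure of `ℚ_ℓ` with coefficients in a finite
extension, and the closure lemma for Kummer steps. -/

open PowerSeries
open scoped NormedField Valued Pointwise

noncomputable section

namespace Pool.Agent.H83.Kim

variable (ℓ : ℕ) [Fact ℓ.Prime]

/-- Bounded power series on the open unit disc with coefficients in some finite extension of
`ℚ_ℓ`. -/
def BO : Subring (PadicAlgCl ℓ)⟦X⟧ where
  carrier := {g | ∃ K : IntermediateField ℚ_[ℓ] (PadicAlgCl ℓ), FiniteDimensional ℚ_[ℓ] K ∧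
    (∀ i, coeff i g ∈ K) ∧ ∃ M : ℝ, ∀ i, ‖coeff i g‖ ≤ M}
  mul_mem' := by
    rintro a b ⟨K, hK, hKa, M, hM⟩ ⟨L, hL, hLb, N, hN⟩
    have hM0 : 0 ≤ M := (norm_nonneg _).trans (hM 0)
    have hN0 : 0 ≤ N := (norm_nonneg _).trans (hN 0)
    refine ⟨K ⊔ L, inferInstance, fun i => ?_, M * N, fun i => ?_⟩
    · rw [coeff_mul]
      refine (K ⊔ L).sum_mem fun x _ => (K ⊔ L).mul_mem ?_ ?_
      · exact (le_sup_left : K ≤ K ⊔ L) (hKa _)
      · exact (le_sup_right : L ≤ K ⊔ L) (hLb _)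
    · rw [coeff_mul]
      refine IsUltrametricDist.norm_sum_le_of_forall_le_of_nonneg (by positivity) ?_
      intro x _
      rw [norm_mul]
      exact mul_le_mul (hM _) (hN _) (norm_nonneg _) hM0
  one_mem' := ⟨⊥, inferInstance, fun i => by
    rw [coeff_one]; split_ifs
    · exact (⊥ : IntermediateField ℚ_[ℓ] (PadicAlgCl ℓ)).one_mem
    · exact (⊥ : IntermediateField ℚ_[ℓ] (PadicAlgCl ℓ)).zero_mem, 1, fun i => by
    rw [coeff_one]; split_ifs <;> simp⟩
  add_mem' := by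
    rintro a b ⟨K, hK, hKa, M, hM⟩ ⟨L, hL, hLb, N, hN⟩
    refine ⟨K ⊔ L, inferInstance, fun i => ?_, max M N, fun i => ?_⟩
    · rw [map_add]
      exact (K ⊔ L).add_mem ((le_sup_left : K ≤ K ⊔ L) (hKa _)) ((le_sup_right : L ≤ K ⊔ L) (hLb _))
    · rw [map_add]
      exact (IsUltrametricDist.norm_add_le_max _ _).trans (max_le_max (hM i) (hN i))
  zero_mem' := ⟨⊥, inferInstance, fun i => by
    rw [map_zero]; exact (⊥ : IntermediateField ℚ_[ℓ] (PadicAlgCl ℓ)).zero_mem, 0, fun i => by simp⟩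
  neg_mem' := by
    rintro a ⟨K, hK, hKa, M, hM⟩
    exact ⟨K, hK, fun i => by rw [map_neg]; exact K.neg_mem (hKa i), M, fun i => by simpa using hM i⟩

variable {ℓ}

theorem mem_BO {g : (PadicAlgCl ℓ)⟦X⟧} : g ∈ BO ℓ ↔
    ∃ K : IntermediateField ℚ_[ℓ] (PadicAlgCl ℓ), FiniteDimensional ℚ_[ℓ] K ∧
    (∀ i, coeff i g ∈ K) ∧ ∃ M : ℝ, ∀ i, ‖coeff i g‖ ≤ M := Iff.rfl

theorem map_mem_BO (K : IntermediateField ℚ_[ℓ] (PadicAlgCl ℓ)) [hK : FiniteDimensional ℚ_[ℓ] K]
    {g : K⟦X⟧} (hg : g ∈ BK K) : g.map (algebraMap K (PadicAlgCl ℓ)) ∈ BO ℓ := by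
  obtain ⟨M, hM⟩ := hg
  refine ⟨K, hK, fun i => ?_, M, fun i => ?_⟩
  · rw [coeff_map]
    exact (coeff i g).2
  · rw [coeff_map]
    exact hM i

theorem C_mem_BO (a : PadicAlgCl ℓ) : C a ∈ BO ℓ := by
  refine ⟨IntermediateField.adjoin ℚ_[ℓ] {a}, ?_, fun i => ?_, ‖a‖, fun i => ?_⟩
  · exact IntermediateField.adjoin.finiteDimensional (Algebra.IsIntegral.isIntegral a)
  · rw [coeff_C]
    split_ifs
    · exact IntermediateField.mem_adjoin_simple_self _ a
    · exact (IntermediateField.adjoin ℚ_[ℓ] {a}).zero_mem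
  · rw [coeff_C]
    split_ifs <;> simp

theorem X_mem_BO : (X : (PadicAlgCl ℓ)⟦X⟧) ∈ BO ℓ := by
  refine ⟨⊥, inferInstance, fun i => ?_, 1, fun i => ?_⟩
  · rw [coeff_X]
    split_ifs
    · exact (⊥ : IntermediateField ℚ_[ℓ] (PadicAlgCl ℓ)).one_mem
    · exact (⊥ : IntermediateField ℚ_[ℓ] (PadicAlgCl ℓ)).zero_mem
  · rw [coeff_X]
    split_ifs <;> simp

/-- Finitely many elements of `BO` are defined over a common finite extension. -/
theorem exists_common {κ : Type*} [Finite κ] (g : κ → (PadicAlgCl ℓ)⟦X⟧) (hg : ∀ k, g k ∈ BO ℓ) :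
    ∃ K : IntermediateField ℚ_[ℓ] (PadicAlgCl ℓ), FiniteDimensional ℚ_[ℓ] K ∧
      ∀ k, ∃ g' : K⟦X⟧, g' ∈ BK K ∧ g'.map (algebraMap K (PadicAlgCl ℓ)) = g k := by
  choose K hK hKg M hM using hg
  refine ⟨⨆ k, K k, IntermediateField.finiteDimensional_iSup_of_finite, fun k => ?_⟩
  have hmem : ∀ i, coeff i (g k) ∈ ⨆ k, K k := fun i => (le_iSup K k) (hKg k i)
  refine ⟨PowerSeries.mk fun i => ⟨coeff i (g k), hmem i⟩, ⟨M k, fun i => ?_⟩, ?_⟩
  · rw [coeff_mk]
    exact hM k i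
  · ext i
    rw [coeff_map, coeff_mk]
    rfl

/-- A power series with constant nonzero `p`-th power is constant. -/
theorem eq_C_of_pow_eq_C {F : Type*} [Field F] [CharZero F] {p : ℕ} (hp : p ≠ 0) {b : F⟦X⟧} {κ : F}
    (hκ : κ ≠ 0) (h : b ^ p = C κ) : b = C (constantCoeff b) := by
  have hb : b ≠ 0 := by
    rintro rfl
    rw [zero_pow hp] at h
    apply hκ
    have := congrArg constantCoeff h
    simpa using this.symm
  apply PowerSeries.derivative.ext
  · have h1 := congrArg (PowerSeries.derivative F) h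
    rw [Derivation.leibniz_pow] at h1
    rw [derivative_C]
    simp only [derivative_C, smul_eq_mul, nsmul_eq_mul] at h1 ⊢
    rcases mul_eq_zero.mp h1 with h2 | h2
    · exfalso
      have : (p : F⟦X⟧) ≠ 0 := by
        have h4 : (p : F⟦X⟧) = C (p : F) := by rw [map_natCast]
        rw [h4]
        intro h5
        have h6 := congrArg constantCoeff h5
        rw [constantCoeff_C, map_zero] at h6
        exact hp (by exact_mod_cast h6)
      exact this h2
    · rcases mul_eq_zero.mp h2 with h3 | h3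
      · exact absurd h3 (pow_ne_zero _ hb)
      · exact h3
  · simp

/-- **Closure lemma** for Kummer steps: a system `a`, `c` of dual generators of a `p`-torsion line
bundle on the open disc consists of bounded power series. -/
theorem closure_lemma {p : ℕ} (hp : p.Prime) (hpl : p ≠ ℓ) {ι : Type*} [Fintype ι]
    (a c : ι → (PadicAlgCl ℓ)⟦X⟧) (h1 : ∑ j, a j * c j = 1)
    (ha : ∀ s : Fin p → ι, ∏ i, a (s i) ∈ BO ℓ) (hc : ∀ s : Fin p → ι, ∏ i, c (s i) ∈ BO ℓ) :
    ∀ j, a j ∈ BO ℓ := by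
  classical
  obtain ⟨K, hK, hex⟩ := exists_common (κ := (Fin p → ι) ⊕ (Fin p → ι))
    (fun k => Sum.elim (fun s => ∏ i, a (s i)) (fun s => ∏ i, c (s i)) k)
    (by rintro (s | s); exacts [ha s, hc s])
  have hprop : ProperSpace K := FiniteDimensional.proper ℚ_[ℓ] K
  choose G hG hGe using hex
  set φ := PowerSeries.map (algebraMap K (PadicAlgCl ℓ)) with hφ
  have hφinj : Function.Injective φ := PowerSeries.map_injective _ (algebraMap K _).injective
  -- some `a i₀` is nonzero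
  obtain ⟨i₀, hi₀⟩ : ∃ i₀, a i₀ ≠ 0 := by
    by_contra hcon
    push Not at hcon
    simp only [hcon, zero_mul, Finset.sum_const_zero] at h1
    exact zero_ne_one h1
  obtain ⟨q, rfl⟩ : ∃ q, p = q + 1 := ⟨p - 1, (Nat.succ_pred hp.ne_zero).symm⟩
  let g : ι → K⟦X⟧ := fun j => G (Sum.inl (Fin.cons j fun _ => i₀))
  have hg : ∀ j, φ (g j) = a j * a i₀ ^ q := by
    intro j
    have h5 := hGe (Sum.inl (Fin.cons j fun _ => i₀))
    rw [Sum.elim_inl, Fin.prod_univ_succ] at h5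
    simpa [g] using h5
  obtain ⟨d, r, s, hr, hs, hd, hgs⟩ := exists_gcd g fun j => hG _
  set A : (PadicAlgCl ℓ)⟦X⟧ := ∑ j, φ (r j) * a j with hA
  have hdA : φ d = A * a i₀ ^ q := by
    rw [hd, map_sum, hA, Finset.sum_mul]
    refine Finset.sum_congr rfl fun j _ => ?_
    rw [map_mul, hg, mul_assoc]
  have haj : ∀ j, a j = φ (s j) * A := by
    intro j
    have h2 := hg j
    rw [hgs j, map_mul, hdA, ← mul_assoc] at h2
    exact (mul_right_cancel₀ (pow_ne_zero q hi₀) h2).symm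
  set Cc : (PadicAlgCl ℓ)⟦X⟧ := ∑ j, φ (s j) * c j with hCc
  have hAC : A * Cc = 1 := by
    rw [← h1, hCc, Finset.mul_sum]
    refine Finset.sum_congr rfl fun j _ => ?_
    rw [haj j]
    ring
  set u : K⟦X⟧ := ∑ t : Fin (q + 1) → ι, (∏ i, r (t i)) * G (Sum.inl t) with hu
  set v : K⟦X⟧ := ∑ t : Fin (q + 1) → ι, (∏ i, s (t i)) * G (Sum.inr t) with hv
  have hub : u ∈ BK K := (BK K).sum_mem fun t _ =>
    (BK K).mul_mem ((BK K).prod_mem fun i _ => hr _) (hG _)
  have hvb : v ∈ BK K := (BK K).sum_mem fun t _ =>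
    (BK K).mul_mem ((BK K).prod_mem fun i _ => hs _) (hG _)
  have huA : φ u = A ^ (q + 1) := by
    rw [hA, Fintype.sum_pow, hu, map_sum]
    refine Finset.sum_congr rfl fun t _ => ?_
    rw [map_mul, map_prod, hGe, Sum.elim_inl, ← Finset.prod_mul_distrib]
  have hvC : φ v = Cc ^ (q + 1) := by
    rw [hCc, Fintype.sum_pow, hv, map_sum]
    refine Finset.sum_congr rfl fun t _ => ?_
    rw [map_mul, map_prod, hGe, Sum.elim_inr, ← Finset.prod_mul_distrib]
  have huv : u * v = 1 := by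
    apply hφinj
    rw [map_mul, huA, hvC, ← mul_pow, hAC, one_pow, map_one]
  have hpn : ‖((q + 1 : ℕ) : K)‖ = 1 := by
    have h3 : ‖((q + 1 : ℕ) : ℚ_[ℓ])‖ = 1 := by
      rw [Padic.norm_natCast_eq_one_iff]
      exact (Nat.coprime_primes (Fact.out : ℓ.Prime) hp).mpr (Ne.symm hpl)
    have h4 : ((q + 1 : ℕ) : K) = algebraMap ℚ_[ℓ] K ((q + 1 : ℕ) : ℚ_[ℓ]) := by
      rw [map_natCast]
    rw [h4, norm_algebraMap', h3]
  obtain ⟨κ, w, w', hw, hw', hww, hκ, huw⟩ := exists_root hp.ne_zero hpn hub hvb huv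
  have hb : (A * φ w') ^ (q + 1) = C (algebraMap K (PadicAlgCl ℓ) κ) := by
    rw [mul_pow, ← huA, huw, ← map_pow, ← map_mul, mul_assoc, ← mul_pow, hww, one_pow, mul_one,
      hφ, map_C]
  have hb' := eq_C_of_pow_eq_C hp.ne_zero ((map_ne_zero _).mpr hκ) hb
  have hAeq : A = C (constantCoeff (A * φ w')) * φ w := by
    rw [← hb', mul_assoc, ← map_mul, mul_comm w' w, hww, map_one, mul_one]
  have hAmem : A ∈ BO ℓ := by
    rw [hAeq]
    exact (BO ℓ).mul_mem (C_mem_BO _) (map_mem_BO K hw)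
  intro j
  rw [haj j]
  exact (BO ℓ).mul_mem (map_mem_BO K (hs j)) hAmem

end Pool.Agent.H83.Kim
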