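import Pool.Agent.H83.Kim.Key
import Pool.Agent.H83.Kim.Closure

/-! The key lemma in coordinate-free form. -/

noncomputable section

namespace Pool.Agent.H83.Kim

section

variable {A W : Type} [CommRing A] [CommRing W] [Algebra A W]
variable [IsDomain W] {κ : Type} [Field κ] [IsAlgClosed κ] [IsDomain A] [IsPrincipalIdealRing A]
variable (ε : W →+* κ) (hε : Function.Surjective ε) [IsAdicComplete (RingHom.ker ε) W]
    {x : A →+* κ} (hx : ε.comp (algebraMap A W) = x)
variable [FaithfulSMul A W]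

/-- The key lemma, for a subring of the universal cover. -/
theorem key' {p : ℕ} [hp : Fact p.Prime] [Algebra ℚ A] (ζ : A) (hζ : IsPrimitiveRoot ζ p)
    (S : Subring (Ahat A W)) (hAS : ∀ a, algebraMap A (Ahat A W) a ∈ S)
    (hCL : ∀ (n : ℕ) (a c : Fin n → Ahat A W), ∑ j, a j * c j = 1 →
      (∀ s : Fin p → Fin n, ∏ i, a (s i) ∈ S) → (∀ s : Fin p → Fin n, ∏ i, c (s i) ∈ S) →
      ∀ j, a j ∈ S)
    {Ω : Type} [Field Ω] [IsAlgClosed Ω] {y : A →+* Ω}
    (h h' : Ahat A W →+* Ω) (hy : h.comp (algebraMap A (Ahat A W)) = y)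
    (hy' : h'.comp (algebraMap A (Ahat A W)) = y)
    (hhh' : ∀ b : Ahat A W, b ∈ S → h b = h' b)
    (V : Subgroup (Path x x)) [V.Normal] (hV : IsOpen (V : Set (Path x x)))
    (hVp : ∀ g : Path x x, ∃ m : ℕ, g ^ p ^ m ∈ V) :
    (pathOf ε hε hx h hy).diff (pathOf ε hε hx h' hy') ∈ V := by
  classical
  obtain ⟨s, hs⟩ := exists_finset_of_isOpen hV V.one_mem
  obtain ⟨B, hB, hsB, hst⟩ := exists_stable ε hε hx (s.image Sigma.fst)
  -- elements acting trivially on `B` are in `V`
  have hker : ∀ g : Path x x, rho ε hε hx hB hst g = 1 → g ∈ V := by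
    intro g hg
    apply hs
    intro q hq
    obtain ⟨χ, hχ⟩ := (Fib.push_bijective_of_complete ε hε hx q.1).2 q.2
    rw [← hχ, ← push_gact ε hε hx]
    congr 1
    apply Subtype.ext
    ext b
    have h1 : χ.1 b ∈ B := hsB q.1 (Finset.mem_image_of_mem _ hq) χ ⟨b, rfl⟩
    have h2 : (psi ε hε hx g (χ.toAhat b) : W) = (gact ε hε hx g q.1 χ).1 b := by
      rw [psi_toAhat]
      rfl
    rw [← h2]
    have h3 : rho ε hε hx hB hst g ⟨χ.1 b, h1⟩ = ⟨χ.1 b, h1⟩ := by
      rw [hg]
      rfl
    exact congrArg Subtype.val h3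
  have hfinB := hB.finite
  have hunB := hB.unram
  have hAB : FaithfulSMul A B := by
    rw [faithfulSMul_iff_algebraMap_injective]
    intro a a' h
    exact FaithfulSMul.algebraMap_injective A W (congrArg Subtype.val h)
  have hfG := finite_algEquiv ε hε hB
  set ρ := rho ε hε hx hB hst with hρ
  let : Algebra ℚ B := ((algebraMap A B).comp (algebraMap ℚ A)).toAlgebra
  obtain ⟨n, X, Y, hXY⟩ := exists_sepElements A B
  let G := ρ.range
  let N : Subgroup G := V.map ρ.rangeRestrict
  have hNn : N.Normal := Subgroup.Normal.map inferInstance _ ρ.rangeRestrict_surjective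
  have hmemN : ∀ g : Path x x, ρ.rangeRestrict g ∈ N → g ∈ V := by
    rintro g ⟨v, hv, hvg⟩
    have h1 : ρ (v⁻¹ * g) = 1 := by
      rw [map_mul, map_inv]
      have : ρ v = ρ g := congrArg Subtype.val hvg
      rw [this, inv_mul_cancel]
    have h2 := hker _ h1
    have h3 := V.mul_mem hv h2
    rwa [mul_inv_cancel_left] at h3
  have hsep : ∀ g : G, (g = 1 → ∑ j, X j * g • Y j = 1) ∧ (g ≠ 1 → ∑ j, X j * g • Y j = 0) := by
    intro g
    have h1 := hXY B (AlgHom.id A B) (g.1 : B →ₐ[A] B)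
    constructor
    · intro hg
      exact h1.1 (by rw [hg]; rfl)
    · intro hg
      refine h1.2 ?_
      intro h2
      apply hg
      apply Subtype.ext
      apply AlgEquiv.ext
      intro b
      exact (congrArg (fun F : B →ₐ[A] B => F b) h2).symm
  have hζB : IsPrimitiveRoot (algebraMap A B ζ) p :=
    hζ.map_of_injective (FaithfulSMul.algebraMap_injective A B)
  have hNp : IsPGroup p (G ⧸ N) := by
    intro t
    obtain ⟨g', rfl⟩ := QuotientGroup.mk'_surjective N t
    obtain ⟨g, rfl⟩ := ρ.rangeRestrict_surjective g'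
    obtain ⟨m, hm⟩ := hVp g
    refine ⟨m, ?_⟩
    rw [← map_pow, ← map_pow]
    exact (QuotientGroup.eq_one_iff _).mpr ⟨_, hm, rfl⟩
  have htower := tower (Γ := G) (R := B) hζB (fun g => g.1.commutes ζ) X Y hsep
    (S.comap (Subalgebra.inclusion hB.le_Ahat).toRingHom) (by
      intro r hr
      obtain ⟨a, ha⟩ := mem_base ε hε hx hB r (fun g => congrArg Subtype.val
        (hr (ρ.rangeRestrict g)))
      rw [Subring.mem_comap]
      have : (Subalgebra.inclusion hB.le_Ahat).toRingHom r = algebraMap A (Ahat A W) a :=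
        Subtype.ext ha.symm
      rw [this]
      exact hAS a)
    (by
      intro a c h1 ha hc j
      refine hCL n (fun j => (Subalgebra.inclusion hB.le_Ahat).toRingHom (a j))
        (fun j => (Subalgebra.inclusion hB.le_Ahat).toRingHom (c j)) ?_ ?_ ?_ j
      · have := congrArg (Subalgebra.inclusion hB.le_Ahat).toRingHom h1
        rw [map_sum, map_one] at this
        simpa only [map_mul] using this
      · intro s
        have := ha s
        rw [Subring.mem_comap, map_prod] at this
        exact this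
      · intro s
        have := hc s
        rw [Subring.mem_comap, map_prod] at this
        exact this) N.index N hNp rfl
  obtain ⟨X', Y', hX', hY', hXY'⟩ := exists_sep (Γ := G) (R := B) X Y hsep N
  set g := (pathOf ε hε hx h hy).diff (pathOf ε hε hx h' hy') with hg
  by_contra hgV
  have h1 : ρ.rangeRestrict g ∉ N := fun h2 => hgV (hmemN g h2)
  have h2 := (hXY' (ρ.rangeRestrict g)).2 h1
  have h3 := (hXY' 1).1 N.one_mem
  have hpsi := psi_diff ε hε hx h h' hy hy'
  rw [← hg] at hpsi
  let ι : B →+* Ahat A W := (Subalgebra.inclusion hB.le_Ahat).toRingHom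
  have h4 : ∀ b : B, h (ι (ρ.rangeRestrict g • b)) = h' (ι b) := fun b => hpsi (ι b)
  have h5 : h (ι (∑ j, X' j * ρ.rangeRestrict g • Y' j)) = ∑ j, h (ι (X' j)) * h' (ι (Y' j)) := by
    rw [map_sum, map_sum]
    refine Finset.sum_congr rfl fun j _ => ?_
    rw [map_mul, map_mul, h4]
  have h6 : h (ι (∑ j, X' j * (1 : G) • Y' j)) = ∑ j, h (ι (X' j)) * h' (ι (Y' j)) := by
    rw [map_sum, map_sum]
    refine Finset.sum_congr rfl fun j _ => ?_
    rw [map_mul, map_mul, one_smul, hhh' (ι (Y' j)) (htower (Y' j) (hY' j))]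
  rw [h2, map_zero, map_zero] at h5
  rw [h3, map_one, map_one, ← h5] at h6
  exact one_ne_zero h6

/-- The key lemma, for the subring defined by bounded power series. -/
theorem star {ℓ p : ℕ} [Fact ℓ.Prime] [hp : Fact p.Prime] (hpl : p ≠ ℓ) [Algebra ℚ A] {ζ : A}
    (hζ : IsPrimitiveRoot ζ p)
    (Th : Ahat A W →+* PowerSeries (PadicAlgCl ℓ))
    (hTh : ∀ a, Th (algebraMap A (Ahat A W) a) ∈ BO ℓ)
    {Ω : Type} [Field Ω] [IsAlgClosed Ω] {y : A →+* Ω}
    (h h' : Ahat A W →+* Ω) (hy : h.comp (algebraMap A (Ahat A W)) = y)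
    (hy' : h'.comp (algebraMap A (Ahat A W)) = y)
    (hh : ∀ g : Ahat A W, Th g ∈ BO ℓ → h g = h' g)
    (V : Subgroup (Path x x)) (hV : V.Normal) (hVo : IsOpen (V : Set (Path x x)))
    (hVp : ∀ g : Path x x, ∃ m : ℕ, g ^ p ^ m ∈ V) :
    (pathOf ε hε hx h hy).diff (pathOf ε hε hx h' hy') ∈ V := by
  refine key' ε hε hx ζ hζ ((BO ℓ).comap Th) hTh ?_ h h' hy hy' hh V hVo hVp
  intro n a c h1 ha hc j
  refine closure_lemma (ℓ := ℓ) hp.out hpl (fun j => Th (a j)) (fun j => Th (c j)) ?_ ?_ ?_ j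
  · have := congrArg Th h1
    rw [map_sum, map_one] at this
    simpa only [map_mul] using this
  · intro t
    have := ha t
    rw [Subring.mem_comap, map_prod] at this
    exact this
  · intro t
    have := hc t
    rw [Subring.mem_comap, map_prod] at this
    exact this

end

end Pool.Agent.H83.Kim
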