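import Pool.Agent.H83.Kim.Unip2

/-! The kernel of `π → U_n(ℚ_p)` contains the kernel of the pro-`p` completion. -/

open scoped TensorProduct Pointwise

noncomputable section

namespace Pool.Agent.H83.Kim

theorem one_add_pow_mem {R : Type*} [CommRing R] {p : ℕ} (hp : p.Prime) (x : R) (J : Ideal R)
    (hpJ : (p : R) ∈ J) (hx : x ∈ J) (m : ℕ) : (1 + x) ^ p ^ m - 1 ∈ J ^ (m + 1) := by
  induction m with
  | zero => simpa using hx
  | succ m ih =>
    set f := (1 + x) ^ p ^ m - 1 with hf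
    have h1 : (1 + x) ^ p ^ (m + 1) = (f + 1) ^ p := by
      rw [hf, sub_add_cancel, pow_succ, pow_mul]
    rw [h1, add_pow_prime_eq hp f 1, one_pow]
    have h2 : f ^ p ∈ J ^ (m + 1 + 1) := by
      have h3 : f ^ 2 ∈ J ^ (m + 1 + 1) := by
        rw [pow_two, pow_succ J (m + 1)]
        refine Ideal.mul_mem_mul ih ?_
        exact Ideal.pow_le_self (Nat.succ_ne_zero m) ih
      obtain ⟨q, hq⟩ := Nat.exists_eq_add_of_le hp.two_le
      have h7 : f ^ p = f ^ 2 * f ^ q := by rw [← pow_add, ← hq]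
      rw [h7]
      exact Ideal.mul_mem_right _ _ h3
    have h4 : (p : R) * f ∈ J ^ (m + 1 + 1) := by
      rw [pow_succ' J (m + 1)]
      exact Ideal.mul_mem_mul hpJ ih
    set s := ∑ k ∈ Finset.Ioo 0 p, f ^ (k - 1) * 1 ^ (p - k - 1) * ((p.choose k / p : ℕ) : R)
    have h6 : f ^ p + 1 + (p : R) * f * 1 * s - 1 = f ^ p + (p : R) * f * s := by ring
    rw [h6]
    exact Ideal.add_mem _ h2 (Ideal.mul_mem_right _ _ h4)

theorem exists_pow_eq_one {R : Type*} [Ring R] {p : ℕ} (hp : p.Prime) {n k : ℕ} {y : R}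
    (hy : y ^ (n + 1) = 0) (hk : ((p ^ k : ℕ) : R) = 0) : ∃ m : ℕ, (1 + y) ^ p ^ m = 1 := by
  refine ⟨k + (n + 1), ?_⟩
  let J1 : Ideal (Polynomial ℤ) := Ideal.span {(p : Polynomial ℤ)}
  let J2 : Ideal (Polynomial ℤ) := Ideal.span {Polynomial.X}
  have hmem := one_add_pow_mem hp (Polynomial.X : Polynomial ℤ) (J1 ⊔ J2)
    (Ideal.mem_sup_left (Ideal.mem_span_singleton_self _))
    (Ideal.mem_sup_right (Ideal.mem_span_singleton_self _)) (k + (n + 1))
  have hmem2 : (1 + (Polynomial.X : Polynomial ℤ)) ^ p ^ (k + (n + 1)) - 1 ∈ J1 ^ k ⊔ J2 ^ (n + 1) :=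
    Ideal.sup_pow_add_le_pow_sup_pow (Ideal.pow_le_pow_right (Nat.le_succ _) hmem)
  rw [Ideal.span_singleton_pow, Ideal.span_singleton_pow] at hmem2
  obtain ⟨a, ha, b, hb, hab⟩ := Submodule.mem_sup.mp hmem2
  obtain ⟨a', rfl⟩ := Ideal.mem_span_singleton.mp ha
  obtain ⟨b', rfl⟩ := Ideal.mem_span_singleton.mp hb
  have h := congrArg (Polynomial.aeval y) hab
  simp only [map_add, map_mul, map_pow, map_sub, map_one, Polynomial.aeval_X, map_natCast] at h
  rw [hy, zero_mul, add_zero] at h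
  have hk' : (p : R) ^ k = 0 := by
    rw [← hk]; push_cast; rfl
  rw [hk', zero_mul] at h
  exact (sub_eq_zero.mp h.symm)

variable (p n : ℕ) {π : Type*} [Group π] [TopologicalSpace π]

/-- The class of a group element, as a homomorphism. -/
def UA.ofHom (n m : ℕ) (H : Type*) [Group H] : H →* UA n m H where
  toFun := UA.of n m H
  map_one' := UA.of_one n
  map_mul' := UA.of_mul n

theorem UA.exists_pow_eq_one (hp : p.Prime) (k : ℕ) {H : Type*} [Group H] (h : H) :
    ∃ m : ℕ, (UA.of n (p ^ k) H h) ^ p ^ m = 1 := by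
  have h1 : UA.of n (p ^ k) H h = 1 + (UA.of n (p ^ k) H h - 1) := by abel
  rw [h1]
  refine Kim.exists_pow_eq_one hp (n := n) (k := k) ?_ ?_
  · have h2 : UA.of n (p ^ k) H h - 1 = UA.mk n (p ^ k) H (MonoidAlgebra.of (ZMod (p ^ k)) H h - 1) := by
      rw [map_sub, map_one]
      rfl
    rw [h2, ← map_pow]
    have h3 : MonoidAlgebra.of (ZMod (p ^ k)) H h - 1 ∈ RingHom.ker (aug (p ^ k) H) := by
      rw [RingHom.mem_ker, map_sub, map_one, sub_eq_zero]
      simp [aug]
    have h4 : ∀ j : ℕ, (MonoidAlgebra.of (ZMod (p ^ k)) H h - 1) ^ j ∈ (RingHom.ker (aug (p ^ k) H)) ^ j := by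
      intro j
      induction j with
      | zero =>
        rw [Submodule.pow_zero, Ideal.one_eq_top]
        exact Submodule.mem_top
      | succ j ih =>
        rw [pow_succ, Submodule.pow_succ]
        exact Ideal.mul_mem_mul ih h3
    exact Ideal.Quotient.eq_zero_iff_mem.mpr (h4 (n + 1))
  · have h2 : ((p ^ k : ℕ) : UA n (p ^ k) H) = UA.mk n (p ^ k) H ((p ^ k : ℕ) : MonoidAlgebra (ZMod (p ^ k)) H) := by
      rw [map_natCast]
    rw [h2]
    have h3 : ((p ^ k : ℕ) : MonoidAlgebra (ZMod (p ^ k)) H) = 0 := by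
      have h4 : ((p ^ k : ℕ) : MonoidAlgebra (ZMod (p ^ k)) H) =
          algebraMap (ZMod (p ^ k)) (MonoidAlgebra (ZMod (p ^ k)) H) ((p ^ k : ℕ) : ZMod (p ^ k)) := by
        rw [map_natCast]
      rw [h4, ZMod.natCast_self, map_zero]
    rw [h3, map_zero]

/-- An element of `π` that lies in every open normal subgroup with `p`-group quotient becomes
trivial in `U_n(ℚ_p)`. -/
theorem UQ.of_eq_one [ContinuousMul π] (hp : p.Prime) {g : π}
    (hg : ∀ V : Subgroup π, V.Normal → IsOpen (V : Set π) → (∀ x : π, ∃ m : ℕ, x ^ p ^ m ∈ V) → g ∈ V) :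
    UQ.of p n g = 1 := by
  have h1 : EInt.ofFun p n g = 1 := by
    apply Subtype.ext
    funext k N
    let f : π →* UA n (p ^ k) (π ⧸ N.toSubgroup) :=
      (UA.ofHom n (p ^ k) (π ⧸ N.toSubgroup)).comp (QuotientGroup.mk' N.toSubgroup)
    have hV : g ∈ f.ker := by
      apply hg f.ker inferInstance
      · have hle : N.toSubgroup ≤ f.ker := by
          intro x hx
          rw [MonoidHom.mem_ker]
          change UA.ofHom n (p ^ k) (π ⧸ N.toSubgroup) (QuotientGroup.mk x) = 1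
          rw [(QuotientGroup.eq_one_iff x).mpr hx, map_one]
        exact Subgroup.isOpen_mono hle N.toOpenSubgroup.isOpen
      · intro x
        obtain ⟨m, hm⟩ := UA.exists_pow_eq_one p n hp k (QuotientGroup.mk x : π ⧸ N.toSubgroup)
        refine ⟨m, ?_⟩
        rw [MonoidHom.mem_ker, map_pow]
        exact hm
    exact MonoidHom.mem_ker.mp hV
  apply Subtype.ext
  apply Units.ext
  change EQ.tmul p n π 1 (EInt.ofFun p n g) = 1
  rw [h1]
  rfl

end Pool.Agent.H83.Kim
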