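import Pool.Agent.H83.Kim.Val

/-! Bounded power series over a locally compact ultrametric field. -/

open PowerSeries
open scoped NormedField Valued Pointwise

noncomputable section

namespace Pool.Agent.H83.Kim

variable (K : Type*) [NontriviallyNormedField K] [IsUltrametricDist K]

/-- Power series with bounded coefficients: bounded functions on the open unit disc. -/
def BK : Subring K⟦X⟧ where
  carrier := {g | ∃ M : ℝ, ∀ i, ‖coeff i g‖ ≤ M}
  mul_mem' := by
    rintro a b ⟨M, hM⟩ ⟨N, hN⟩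
    have hM0 : 0 ≤ M := (norm_nonneg _).trans (hM 0)
    have hN0 : 0 ≤ N := (norm_nonneg _).trans (hN 0)
    refine ⟨M * N, fun i => ?_⟩
    rw [coeff_mul]
    refine IsUltrametricDist.norm_sum_le_of_forall_le_of_nonneg (by positivity) ?_
    intro x _
    rw [norm_mul]
    exact mul_le_mul (hM _) (hN _) (norm_nonneg _) hM0
  one_mem' := ⟨1, fun i => by
    rw [coeff_one]; split_ifs <;> simp⟩
  add_mem' := by
    rintro a b ⟨M, hM⟩ ⟨N, hN⟩
    refine ⟨max M N, fun i => ?_⟩
    rw [map_add]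
    exact (IsUltrametricDist.norm_add_le_max _ _).trans (max_le_max (hM i) (hN i))
  zero_mem' := ⟨0, fun i => by simp⟩
  neg_mem' := by
    rintro a ⟨M, hM⟩
    exact ⟨M, fun i => by simpa using hM i⟩

variable {K}

theorem mem_BK {g : K⟦X⟧} : g ∈ BK K ↔ ∃ M : ℝ, ∀ i, ‖coeff i g‖ ≤ M := Iff.rfl

theorem C_mem_BK (a : K) : C a ∈ BK K := ⟨‖a‖, fun i => by
  rw [coeff_C]; split_ifs <;> simp⟩

theorem poly_mem_BK (P : Polynomial K) : (P : K⟦X⟧) ∈ BK K := by
  induction P using Polynomial.induction_on' with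
  | add p q hp hq => rw [Polynomial.coe_add]; exact (BK K).add_mem hp hq
  | monomial n a =>
    refine ⟨‖a‖, fun i => ?_⟩
    rw [Polynomial.coeff_coe, Polynomial.coeff_monomial]
    split_ifs <;> simp

theorem int_mem_BK (g : 𝒪[K]⟦X⟧) : g.map (𝒪[K]).subtype ∈ BK K :=
  ⟨1, fun i => by
    rw [coeff_map]
    exact Valued.integer.norm_le_one (coeff i g)⟩

/-- A power series with coefficients of norm at most one comes from the valuation ring. -/
theorem exists_int_of_le_one {g : K⟦X⟧} (hg : ∀ i, ‖coeff i g‖ ≤ 1) :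
    ∃ h : 𝒪[K]⟦X⟧, h.map (𝒪[K]).subtype = g := by
  refine ⟨PowerSeries.mk fun i => ⟨coeff i g, Valued.integer.mem_iff.mpr (hg i)⟩, ?_⟩
  ext i
  rw [coeff_map, coeff_mk]
  rfl

variable [ProperSpace K]

theorem exists_max_coeff {g : K⟦X⟧} (hg : g ∈ BK K) : ∃ i₀, ∀ i, ‖coeff i g‖ ≤ ‖coeff i₀ g‖ := by
  obtain ⟨M, hM⟩ := hg
  exact exists_max_norm (fun i => coeff i g) M hM

/-- first index of maximal norm -/
theorem exists_first_max_coeff {g : K⟦X⟧} (hg : g ∈ BK K) :
    ∃ i₀, (∀ i, ‖coeff i g‖ ≤ ‖coeff i₀ g‖) ∧ ∀ i < i₀, ‖coeff i g‖ < ‖coeff i₀ g‖ := by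
  classical
  have hex : ∃ i₀, ∀ i, ‖coeff i g‖ ≤ ‖coeff i₀ g‖ := exists_max_coeff hg
  refine ⟨Nat.find hex, Nat.find_spec hex, fun i hi => ?_⟩
  have h1 := Nat.find_min hex hi
  push Not at h1
  obtain ⟨j, hj⟩ := h1
  exact hj.trans_le (Nat.find_spec hex j)

/-- Units of the ring of bounded power series have their constant coefficient of maximal norm. -/
theorem norm_coeff_le_of_mul_eq_one {u v : K⟦X⟧} (hu : u ∈ BK K) (hv : v ∈ BK K) (huv : u * v = 1) :
    ∀ i, ‖coeff i u‖ ≤ ‖coeff 0 u‖ := by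
  obtain ⟨i₀, hi, hi'⟩ := exists_first_max_coeff hu
  obtain ⟨j₀, hj, hj'⟩ := exists_first_max_coeff hv
  have hu0 : coeff i₀ u ≠ 0 := by
    intro h
    have : u = 0 := by
      ext i
      have := hi i
      rw [h, norm_zero] at this
      simpa using norm_le_zero_iff.mp this
    rw [this, zero_mul] at huv
    exact zero_ne_one huv
  have hv0 : coeff j₀ v ≠ 0 := by
    intro h
    have : v = 0 := by
      ext i
      have := hj i
      rw [h, norm_zero] at this
      simpa using norm_le_zero_iff.mp this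
    rw [this, mul_zero] at huv
    exact zero_ne_one huv
  have hpos : 0 < ‖coeff i₀ u‖ * ‖coeff j₀ v‖ := mul_pos (norm_pos_iff.mpr hu0) (norm_pos_iff.mpr hv0)
  have key : ‖coeff (i₀ + j₀) (u * v)‖ = ‖coeff i₀ u‖ * ‖coeff j₀ v‖ := by
    rw [coeff_mul, ← Finset.sum_erase_add _ _ (show (i₀, j₀) ∈ Finset.HasAntidiagonal.antidiagonal (i₀ + j₀) by simp)]
    have hlt : ‖∑ x ∈ (Finset.HasAntidiagonal.antidiagonal (i₀ + j₀)).erase (i₀, j₀), coeff x.1 u * coeff x.2 v‖
        < ‖coeff i₀ u * coeff j₀ v‖ := by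
      rw [norm_mul]
      by_cases hne : ((Finset.HasAntidiagonal.antidiagonal (i₀ + j₀)).erase (i₀, j₀)).Nonempty
      · obtain ⟨x, hx, hx'⟩ := IsUltrametricDist.exists_norm_finsetSum_le_of_nonempty hne
          (fun x : ℕ × ℕ => coeff x.1 u * coeff x.2 v)
        refine hx'.trans_lt ?_
        rw [norm_mul]
        rw [Finset.mem_erase, Finset.HasAntidiagonal.mem_antidiagonal] at hx
        obtain ⟨hxne, hxs⟩ := hx
        rcases lt_trichotomy x.1 i₀ with h | h | h
        · calc ‖coeff x.1 u‖ * ‖coeff x.2 v‖ ≤ ‖coeff x.1 u‖ * ‖coeff j₀ v‖ :=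
                mul_le_mul_of_nonneg_left (hj _) (norm_nonneg _)
            _ < ‖coeff i₀ u‖ * ‖coeff j₀ v‖ :=
                mul_lt_mul_of_pos_right (hi' _ h) (norm_pos_iff.mpr hv0)
        · exfalso; apply hxne; ext <;> simp <;> omega
        · have h2 : x.2 < j₀ := by omega
          have := hj' _ h2
          calc ‖coeff x.1 u‖ * ‖coeff x.2 v‖ ≤ ‖coeff i₀ u‖ * ‖coeff x.2 v‖ :=
                mul_le_mul_of_nonneg_right (hi _) (norm_nonneg _)
            _ < ‖coeff i₀ u‖ * ‖coeff j₀ v‖ := mul_lt_mul_of_pos_left this (norm_pos_iff.mpr hu0)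
      · rw [Finset.not_nonempty_iff_eq_empty] at hne
        rw [hne]
        simpa using hpos
    rw [IsUltrametricDist.norm_add_eq_max_of_norm_ne_norm hlt.ne, max_eq_right hlt.le, norm_mul]
  rw [huv, coeff_one] at key
  have h0 : i₀ + j₀ = 0 := by
    by_contra h
    rw [if_neg h, norm_zero] at key
    exact hpos.ne key
  have : i₀ = 0 := by omega
  rw [this] at hi
  exact hi

end Pool.Agent.H83.Kim
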