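import Pool.Agent.H83.Kim.Global

/-! Continuity of the cocycle of a rational point. -/

open Polynomial PowerSeries
open scoped Topology

noncomputable section

namespace Pool.Agent.H83.Kim

theorem fix_nhds (a : Qbar) : {u : GalQ | u a = a} ∈ 𝓝 (1 : GalQ) := by
  have h1 := stabilizer_isOpen_of_isIntegral (K := ℚ) a
  exact h1.mem_nhds (one_smul GalQ a)

theorem fix_poly_nhds (P : Qbar[X]) :
    {u : GalQ | P.map (u.toRingEquiv : Qbar →+* Qbar) = P} ∈ 𝓝 (1 : GalQ) := by
  have h1 : (⋂ i ∈ P.support, {u : GalQ | u (P.coeff i) = P.coeff i}) ∈ 𝓝 (1 : GalQ) :=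
    (Filter.biInter_finset_mem _).mpr fun i _ => fix_nhds _
  refine Filter.mem_of_superset h1 ?_
  intro u hu
  simp only [Set.mem_iInter] at hu
  apply Polynomial.ext
  intro i
  rw [Polynomial.coeff_map]
  by_cases hi : i ∈ P.support
  · exact hu i hi
  · rw [Polynomial.notMem_support_iff.mp hi, map_zero]

theorem fix_OX_nhds (f : ℤ[X]) (a : OX f) : {u : GalQ | coeffAct f u a = a} ∈ 𝓝 (1 : GalQ) := by
  obtain ⟨⟨P, s⟩, hPs⟩ := IsLocalization.surj (Submonoid.powers (f.map (Int.castRingHom Qbar))) a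
  filter_upwards [fix_poly_nhds P, fix_poly_nhds s.1] with u h1 h2
  have h3 := congrArg (coeffAct f u) hPs
  simp only [map_mul, coeffAct_algebraMap] at h3
  have h1' : P.map (u.toRingEquiv : Qbar →+* Qbar) = P := h1
  have h2' : s.1.map (u.toRingEquiv : Qbar →+* Qbar) = s.1 := h2
  rw [h1', h2'] at h3
  simp only at hPs
  rw [← hPs] at h3
  exact (IsLocalization.map_units (OX f) s).mul_left_inj.mp h3

variable (f : ℤ[X]) [hf : Fact (aeval (0 : Qbar) f ≠ 0)]

theorem fix_Xhat_nhds (g : Xhat f) : {u : GalQ | sigHat f u g = g} ∈ 𝓝 (1 : GalQ) := by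
  classical
  obtain ⟨P, hP, hPg⟩ := Algebra.IsIntegral.isIntegral (R := OX f) g
  have h1 : (⋂ i ∈ P.support, {u : GalQ | coeffAct f u (P.coeff i) = P.coeff i}) ∈ 𝓝 (1 : GalQ) :=
    (Filter.biInter_finset_mem _).mpr fun i _ => fix_OX_nhds f _
  set Q := P.map (algebraMap (OX f) (Xhat f)) with hQ
  have hQ0 : Q ≠ 0 := (hP.map _).ne_zero
  have hex : ∀ r : Xhat f, r ≠ g → ∃ n, PowerSeries.coeff n r.1 ≠ PowerSeries.coeff n g.1 := by
    intro r hr
    by_contra hcon
    push Not at hcon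
    exact hr (Subtype.ext (PowerSeries.ext hcon))
  choose N hN using hex
  have h2 : (⋂ r ∈ Q.roots.toFinset, {u : GalQ | ∀ hr : r ≠ g,
      u (PowerSeries.coeff (N r hr) g.1) = PowerSeries.coeff (N r hr) g.1}) ∈ 𝓝 (1 : GalQ) := by
    refine (Filter.biInter_finset_mem _).mpr fun r _ => ?_
    by_cases hr : r = g
    · exact Filter.mem_of_superset Filter.univ_mem fun u _ hr' => absurd hr hr'
    · exact Filter.mem_of_superset (fix_nhds (PowerSeries.coeff (N r hr) g.1)) fun u hu _ => hu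
  filter_upwards [h1, h2] with u hu1 hu2
  simp only [Set.mem_iInter] at hu1 hu2
  by_contra hne
  have hPu : P.map (coeffAct f u : OX f →+* OX f) = P := by
    apply Polynomial.ext
    intro i
    rw [Polynomial.coeff_map]
    by_cases hi : i ∈ P.support
    · exact hu1 i hi
    · rw [Polynomial.notMem_support_iff.mp hi, map_zero]
  have hroot : (sigHat f u g) ∈ Q.roots.toFinset := by
    rw [Multiset.mem_toFinset, Polynomial.mem_roots hQ0, Polynomial.IsRoot.def, hQ, Polynomial.eval_map]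
    have e1 : P.eval₂ (algebraMap (OX f) (Xhat f)) (sigHat f u g) =
        (P.map (coeffAct f u : OX f →+* OX f)).eval₂ (algebraMap (OX f) (Xhat f)) (sigHat f u g) := by
      rw [hPu]
    have e2 : (algebraMap (OX f) (Xhat f)).comp (coeffAct f u : OX f →+* OX f) =
        (sigHat f u : Xhat f →+* Xhat f).comp (algebraMap (OX f) (Xhat f)) :=
      RingHom.ext fun a => (sigHat_algebraMap f u a).symm
    have e3 := Polynomial.hom_eval₂ P (algebraMap (OX f) (Xhat f)) (sigHat f u : Xhat f →+* Xhat f) g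
    rw [hPg, map_zero] at e3
    rw [e1, Polynomial.eval₂_map, e2]
    exact e3.symm
  have h3 := hu2 _ hroot hne
  have h4 := hN _ hne
  apply h4
  change PowerSeries.coeff _ (hat u.toRingEquiv g.1) = _
  rw [coeff_hat]
  exact h3

variable (z : ℚ) (hz : aeval (algebraMap ℚ Qbar z) f ≠ 0)

theorem gQ_fix (c : Cov (OX f)) (a : Fib (basePt f hf.out) c) :
    {u : GalQ | (gQ f z hz u).map c a = a} ∈ 𝓝 (1 : GalQ) := by
  classical
  obtain ⟨χ, hχ⟩ := (Fib.push_bijective_of_complete (PowerSeries.constantCoeff (R := Qbar))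
    eps_surjective (constantCoeff_expand f hf.out) c).2 a
  let := c.s.toAlgebra
  have hfin : Module.Finite (OX f) c.B := c.finite
  obtain ⟨s, hs⟩ := hfin.fg_top
  have h1 : (⋂ β ∈ s, {u : GalQ | sigHat f u (χ.toAhat β) = χ.toAhat β}) ∈ 𝓝 (1 : GalQ) :=
    (Filter.biInter_finset_mem _).mpr fun β _ => fix_Xhat_nhds f _
  have h2 : (⋂ β ∈ s, {u : GalQ | u (liftQ f z hz (χ.toAhat β)) = liftQ f z hz (χ.toAhat β)}) ∈
      𝓝 (1 : GalQ) :=
    (Filter.biInter_finset_mem _).mpr fun β _ => fix_nhds _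
  filter_upwards [h1, h2] with u hu1 hu2
  simp only [Set.mem_iInter] at hu1 hu2
  rw [← hχ]
  refine (pathOf_diff_map _ _ _ _ _ _ _ c χ χ).mpr ?_
  intro β
  have hβ : β ∈ Submodule.span (OX f) (s : Set c.B) := by
    rw [hs]
    exact Submodule.mem_top
  induction hβ using Submodule.span_induction with
  | mem β hβ =>
    rw [twistPt_apply]
    have e1 : (sigHat f u).symm (χ.toAhat β) = χ.toAhat β := by
      rw [RingEquiv.symm_apply_eq]
      exact (hu1 β hβ).symm
    rw [e1]
    exact (hu2 β hβ).symm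
  | zero => rw [map_zero, map_zero, map_zero]
  | add β β' _ _ h h' => rw [map_add, map_add, map_add, h, h']
  | smul r β _ h =>
    have e1 : χ.toAhat (r • β) = algebraMap (OX f) (Xhat f) r * χ.toAhat β := by
      rw [Algebra.smul_def, map_mul]
      congr 1
      exact RingHom.congr_fun χ.toAhat_comp r
    rw [e1, map_mul, map_mul, h]
    congr 1
    have e2 := RingHom.congr_fun (liftQ_comp f z hz) r
    have e3 := RingHom.congr_fun (twistPt_comp f u u.toRingEquiv _ (liftQ_comp f z hz) (hpt f z hz u)) r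
    rw [RingHom.comp_apply] at e2 e3
    rw [e2, e3]

theorem continuous_gQ : Continuous (gQ f z hz) := by
  rw [continuous_path_iff]
  intro c a b
  rw [isOpen_iff_mem_nhds]
  intro σ hσ
  have h1 := gQ_fix f z hz (c.twist (coeffAct f σ)) (Fib.twist (coeffAct f σ) σ.toRingEquiv
    (hbase f σ) c a)
  have h2 : (fun τ : GalQ => σ⁻¹ * τ) ⁻¹' {u : GalQ | (gQ f z hz u).map (c.twist (coeffAct f σ))
      (Fib.twist (coeffAct f σ) σ.toRingEquiv (hbase f σ) c a) =
      Fib.twist (coeffAct f σ) σ.toRingEquiv (hbase f σ) c a} ∈ 𝓝 σ := by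
    have hc : Continuous (fun τ : GalQ => σ⁻¹ * τ) := continuous_const.mul continuous_id
    apply hc.continuousAt.preimage_mem_nhds
    rw [inv_mul_cancel]
    exact h1
  refine Filter.mem_of_superset h2 ?_
  intro τ hτ
  change (gQ f z hz τ).map c a = b
  change (gQ f z hz (σ⁻¹ * τ)).map _ _ = _ at hτ
  have e1 : τ = σ * (σ⁻¹ * τ) := by rw [mul_inv_cancel_left]
  rw [e1, gQ_mul, Path.mul_map]
  have e2 : (galPi1 f hf.out σ (gQ f z hz (σ⁻¹ * τ))).map c a = a := by
    change (Fib.twist (coeffAct f σ) σ.toRingEquiv (hbase f σ) c).symm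
      ((gQ f z hz (σ⁻¹ * τ)).map _ (Fib.twist (coeffAct f σ) σ.toRingEquiv (hbase f σ) c a)) = a
    rw [hτ, Equiv.symm_apply_apply]
  rw [e2]
  exact hσ

end Pool.Agent.H83.Kim
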