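import Pool.Agent.H83.Kim.Path
import Pool.Agent.H83.Kim.Unip2

/-!
# Weakly global points for complements of divisors in the projective line

For `f : ℤ[t]` let `𝒳_f = Spec ℤ[t][1/f]`, the complement in `ℙ¹_ℤ` of the closure of
`{∞} ∪ {f = 0}`.  We define the sets `𝒳_f(ℤ_p)_n` of weakly global points of level `n`, for the
base point `b = 0`.
-/

open Polynomial

noncomputable section

namespace Pool.Agent.H83.Kim

/-- An algebraic closure of `ℚ`. -/
abbrev Qbar : Type := AlgebraicClosure ℚ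

instance : Algebra.IsAlgebraic ℚ Qbar := by
  have h := AlgebraicClosure.isAlgebraic ℚ
  have e : (DivisionRing.toRatAlgebra : Algebra ℚ (AlgebraicClosure ℚ)) =
      AlgebraicClosure.instAlgebra ℚ := Subsingleton.elim _ _
  rw [e]
  exact h

instance : IsAlgClosure ℚ Qbar := ⟨inferInstance, inferInstance⟩

/-- An algebraic closure of `ℚ_v`. -/
abbrev Qvbar (v : ℕ) [Fact v.Prime] : Type := AlgebraicClosure ℚ_[v]

/-- An embedding of `ℚ̄` in the algebraic closure of `ℚ_v`. -/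
def embed (v : ℕ) [Fact v.Prime] : Qbar →+* Qvbar v :=
  (IsAlgClosed.lift : Qbar →ₐ[ℚ] AlgebraicClosure ℚ_[v]).toRingHom

/-- The absolute Galois group of `ℚ`. -/
abbrev GalQ : Type := Qbar ≃ₐ[ℚ] Qbar

/-- The absolute Galois group of `ℚ_v`. -/
abbrev GalQv (v : ℕ) [Fact v.Prime] : Type := Qvbar v ≃ₐ[ℚ_[v]] Qvbar v

/-- The ring of functions `ℚ̄[t][1/f]` of the base change to `ℚ̄` of the generic fibre of
`𝒳_f = Spec ℤ[t][1/f]`. -/
abbrev OX (f : ℤ[X]) : Type := Localization.Away (f.map (Int.castRingHom Qbar))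

/-- The geometric point with coordinate `t` of `Spec ℚ̄[t][1/f]`, with values in an extension
`ι : ℚ̄ → Ω`. -/
def pt (f : ℤ[X]) {Ω : Type} [Field Ω] (ι : Qbar →+* Ω) (t : Ω) (ht : aeval t f ≠ 0) :
    OX f →+* Ω :=
  IsLocalization.Away.lift (f.map (Int.castRingHom Qbar)) (g := Polynomial.eval₂RingHom ι t) (by
    rw [Polynomial.coe_eval₂RingHom, Polynomial.eval₂_map, RingHom.eq_intCast' (ι.comp _)]
    exact isUnit_iff_ne_zero.mpr ht)

/-- The action of `σ ∈ Gal(ℚ̄/ℚ)` on `ℚ̄[t][1/f]` through the coefficients. -/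
def coeffAct (f : ℤ[X]) (σ : GalQ) : OX f ≃+* OX f :=
  IsLocalization.ringEquivOfRingEquiv (M := Submonoid.powers (f.map (Int.castRingHom Qbar)))
    (T := Submonoid.powers (f.map (Int.castRingHom Qbar))) (OX f) (OX f)
    (Polynomial.mapEquiv σ.toRingEquiv) (by
      rw [Submonoid.map_powers]
      congr 1
      change (f.map (Int.castRingHom Qbar)).map (σ.toRingEquiv : Qbar →+* Qbar) = _
      rw [Polynomial.map_map, RingHom.eq_intCast' (RingHom.comp _ _)])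

theorem pt_algebraMap (f : ℤ[X]) {Ω : Type} [Field Ω] (ι : Qbar →+* Ω) (t : Ω) (ht : aeval t f ≠ 0)
    (P : Qbar[X]) : pt f ι t ht (algebraMap _ (OX f) P) = P.eval₂ ι t := by
  rw [pt, IsLocalization.Away.lift_eq]
  rfl

theorem coeffAct_algebraMap (f : ℤ[X]) (σ : GalQ) (P : Qbar[X]) :
    coeffAct f σ (algebraMap _ (OX f) P) = algebraMap _ (OX f) (P.map (σ.toRingEquiv : Qbar →+* Qbar)) := by
  rw [coeffAct, IsLocalization.ringEquivOfRingEquiv_eq]
  rfl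

/-- Two ring homomorphisms from `ℚ̄[t][1/f]` that agree on `ℚ̄[t]` are equal. -/
theorem OX_hom_ext (f : ℤ[X]) {R : Type*} [CommRing R] {g h : OX f →+* R}
    (e : ∀ P : Qbar[X], g (algebraMap _ (OX f) P) = h (algebraMap _ (OX f) P)) : g = h :=
  IsLocalization.ringHom_ext (Submonoid.powers (f.map (Int.castRingHom Qbar))) (RingHom.ext e)

theorem pt_coeffAct (f : ℤ[X]) {Ω : Type} [Field Ω] (ι : Qbar →+* Ω) (t : Ω) (ht : aeval t f ≠ 0)
    (σ : GalQ) (τ : Ω ≃+* Ω) (hι : ∀ a, τ (ι a) = ι (σ a)) (hτ : τ t = t) (a : OX f) :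
    τ (pt f ι t ht a) = pt f ι t ht (coeffAct f σ a) := by
  have h : (τ : Ω →+* Ω).comp (pt f ι t ht) = (pt f ι t ht).comp (coeffAct f σ : OX f →+* OX f) := by
    apply OX_hom_ext
    intro P
    rw [RingHom.comp_apply, RingHom.comp_apply, pt_algebraMap]
    change τ (P.eval₂ ι t) = pt f ι t ht (coeffAct f σ (algebraMap _ (OX f) P))
    rw [coeffAct_algebraMap, pt_algebraMap, Polynomial.eval₂_map]
    have h2 := Polynomial.hom_eval₂ P ι (τ : Ω →+* Ω) t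
    change τ (P.eval₂ ι t) = _ at h2
    rw [h2]
    have e1 : (τ : Ω →+* Ω).comp ι = ι.comp (σ.toRingEquiv : Qbar →+* Qbar) := by
      ext a
      exact hι a
    have e2 : (τ : Ω →+* Ω) t = t := hτ
    rw [e1, e2]
  exact RingHom.congr_fun h a

section

variable (f : ℤ[X]) (hf : aeval (0 : Qbar) f ≠ 0)

/-- The base point `b = 0`, as a `ℚ̄`-valued point. -/
def basePt : OX f →+* Qbar := pt f (RingHom.id Qbar) 0 hf

/-- The étale fundamental group `π₁(X̄, b)` of `X̄ = Spec ℚ̄[t][1/f]`. -/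
abbrev Pi1 : Type _ := Path (basePt f hf) (basePt f hf)

/-- The action of `Gal(ℚ̄/ℚ)` on `π₁(X̄, b)`. -/
def galPi1 (σ : GalQ) : Pi1 f hf →ₜ* Pi1 f hf :=
  Path.actHom (coeffAct f σ) σ.toRingEquiv
    (pt_coeffAct f (RingHom.id Qbar) 0 hf σ σ.toRingEquiv (fun _ => rfl) (map_zero _))

variable (p n : ℕ)

/-- The group `U_n(ℚ_p)`. -/
abbrev Un : Type _ := UQ p n (Pi1 f hf)

/-- The action of `Gal(ℚ̄/ℚ)` on `U_n(ℚ_p)`. -/
def galUn (σ : GalQ) : Un f hf p n →* Un f hf p n := UQ.map p n (galPi1 f hf σ)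

/-- Continuous `1`-cocycles of `Gal(ℚ̄/ℚ)` with values in `U_n(ℚ_p)`. -/
structure IsCocycle (c : GalQ → Un f hf p n) : Prop where
  continuous : Continuous c
  cocycle : ∀ σ τ : GalQ, c (σ * τ) = c σ * galUn f hf p n σ (c τ)

/-- The étale path torsor from `b` to the `ℚ_v`-point with coordinate `x`. -/
abbrev PathTo (v : ℕ) [Fact v.Prime] (x : ℚ_[v])
    (hx : aeval (algebraMap ℚ_[v] (Qvbar v) x) f ≠ 0) : Type _ :=
  Path (basePt f hf) (pt f (embed v) (algebraMap ℚ_[v] (Qvbar v) x) hx)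

/-- The action on the path torsor of an element `τ` of `Gal(ℚ̄_v/ℚ_v)` with restriction `σ`
to `ℚ̄`. -/
def PathTo.act {f : ℤ[X]} {hf : aeval (0 : Qbar) f ≠ 0} {v : ℕ} [Fact v.Prime] {x : ℚ_[v]}
    {hx : aeval (algebraMap ℚ_[v] (Qvbar v) x) f ≠ 0} (σ : GalQ) (τ : GalQv v)
    (h : ∀ a, τ (embed v a) = embed v (σ a)) (γ : PathTo f hf v x hx) : PathTo f hf v x hx :=
  Path.act (coeffAct f σ) σ.toRingEquiv τ.toRingEquiv
    (pt_coeffAct f (RingHom.id Qbar) 0 hf σ σ.toRingEquiv (fun _ => rfl) (map_zero _))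
    (pt_coeffAct f (embed v) _ hx σ τ.toRingEquiv h (τ.commutes x)) γ

/-- `loc_v [c] = j_v(x)`: the restriction to `Gal(ℚ̄_v/ℚ_v)` of the cocycle `c` is cohomologous
to the cocycle `τ ↦ γ⁻¹ ∘ τ(γ)` of the push-out to `U_n` of the étale path torsor from `b`
to `x`. -/
def LocEq (v : ℕ) [Fact v.Prime] (c : GalQ → Un f hf p n) (x : ℚ_[v]) : Prop :=
  ∃ (hx : aeval (algebraMap ℚ_[v] (Qvbar v) x) f ≠ 0) (γ : PathTo f hf v x hx) (u : Un f hf p n),
    ∀ (σ : GalQ) (τ : GalQv v) (h : ∀ a, τ (embed v a) = embed v (σ a)),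
      c σ = u⁻¹ * UQ.of p n (γ.diff (γ.act σ τ h)) * galUn f hf p n σ u

/-- The set `𝒳_f(ℤ_p)_n` of weakly global points of level `n` (with base point `b = 0`):
the points `z ∈ 𝒳_f(ℤ_p)` for which there is a class `c` in `H¹(Gal(ℚ̄/ℚ), U_n)` such that
`loc_v c ∈ j_v(𝒳_f(ℤ_v))` for every prime `v ≠ p` and `loc_p c = j_p(z)`. -/
def weaklyGlobal [Fact p.Prime] : Set ℤ_[p] :=
  {z | IsUnit (aeval z f) ∧ ∃ c : GalQ → Un f hf p n, IsCocycle f hf p n c ∧
    (∀ (v : ℕ) [Fact v.Prime], v ≠ p → ∃ x : ℤ_[v], IsUnit (aeval x f) ∧ LocEq f hf p n v c x) ∧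
    LocEq f hf p n p c z}

end

/-- The image of `𝒳_f(ℤ)` in `ℤ_p`. -/
def integralPts (f : ℤ[X]) (p : ℕ) [Fact p.Prime] : Set ℤ_[p] :=
  {z | ∃ m : ℤ, IsUnit (aeval m f) ∧ z = m}

end Pool.Agent.H83.Kim
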