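import Pool.Agent.H83.Kim.Closure

/-! Evaluation of bounded power series at points of the open unit disc. -/

open PowerSeries
open scoped NormedField Valued Pointwise

noncomputable section

namespace Pool.Agent.H83.Kim

section complete

variable {K : Type*} [NontriviallyNormedField K] [IsUltrametricDist K] [CompleteSpace K]

theorem exists_div_BK {g : K⟦X⟧} (hg : g ∈ BK K) {y : K} (hy : ‖y‖ < 1) :
    ∃ (q : K⟦X⟧) (r : K), q ∈ BK K ∧ g = q * (X - C y) + C r := by
  obtain ⟨M, hM⟩ := hg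
  have hM0 : 0 ≤ M := (norm_nonneg _).trans (hM 0)
  let R : ℕ → K := fun j => ∑' i, coeff (i + j) g * y ^ i
  have hterm : ∀ i j, ‖coeff (i + j) g * y ^ i‖ ≤ M * ‖y‖ ^ i := by
    intro i j
    rw [norm_mul, norm_pow]
    exact mul_le_mul_of_nonneg_right (hM _) (by positivity)
  have hsum : ∀ j, Summable fun i => coeff (i + j) g * y ^ i := by
    intro j
    refine Summable.of_norm_bounded (g := fun i => M * ‖y‖ ^ i) ?_ fun i => hterm i j
    exact (summable_geometric_of_lt_one (norm_nonneg _) hy).mul_left M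
  have hrec : ∀ j, R j = coeff j g + y * R (j + 1) := by
    intro j
    change ∑' i, coeff (i + j) g * y ^ i = _ + y * ∑' i, coeff (i + (j + 1)) g * y ^ i
    rw [(hsum j).tsum_eq_zero_add, ← tsum_mul_left]
    congr 1
    · simp
    · refine tsum_congr fun i => ?_
      rw [show i + 1 + j = i + (j + 1) by ring, pow_succ]
      ring
  have hRM : ∀ j, ‖R j‖ ≤ M := by
    intro j
    refine IsUltrametricDist.norm_tsum_le_of_forall_le_of_nonneg hM0 fun i => ?_
    refine (hterm i j).trans ?_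
    exact mul_le_of_le_one_right hM0 (pow_le_one₀ (norm_nonneg _) hy.le)
  refine ⟨PowerSeries.mk fun j => R (j + 1), R 0, ⟨M, fun i => by rw [coeff_mk]; exact hRM _⟩, ?_⟩
  ext j
  rw [mul_sub, map_add, map_sub, coeff_C]
  cases j with
  | zero =>
    rw [if_pos rfl, mul_comm _ (C y), coeff_C_mul, coeff_mk, coeff_zero_mul_X]
    have := hrec 0
    rw [this]
    ring
  | succ j =>
    rw [if_neg (Nat.succ_ne_zero _), mul_comm _ (C y), coeff_C_mul, coeff_mk, coeff_succ_mul_X, coeff_mk]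
    have := hrec (j + 1)
    rw [this]
    ring

end complete

variable {ℓ : ℕ} [Fact ℓ.Prime]

theorem exists_div_BO {g : (PadicAlgCl ℓ)⟦X⟧} (hg : g ∈ BO ℓ) {y : PadicAlgCl ℓ} (hy : ‖y‖ < 1) :
    ∃ (q : (PadicAlgCl ℓ)⟦X⟧) (r : PadicAlgCl ℓ), q ∈ BO ℓ ∧ g = q * (X - C y) + C r := by
  obtain ⟨K, hK, hex⟩ := exists_common (κ := Bool) (fun b => if b then g else C y)
    (by intro b; cases b; exacts [C_mem_BO y, hg])
  have hprop : ProperSpace K := FiniteDimensional.proper ℚ_[ℓ] K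
  obtain ⟨g', hg', hge⟩ := hex true
  obtain ⟨y', hy', hye⟩ := hex false
  simp only [if_true] at hge
  simp only [Bool.false_eq_true, if_false] at hye
  have hyc : algebraMap K (PadicAlgCl ℓ) (coeff 0 y') = y := by
    have := congrArg (coeff 0) hye
    rw [coeff_map, coeff_C, if_pos rfl] at this
    exact this
  have hyn : ‖coeff 0 y'‖ < 1 := by
    have : ‖coeff 0 y'‖ = ‖algebraMap K (PadicAlgCl ℓ) (coeff 0 y')‖ := rfl
    rw [this, hyc]
    exact hy
  obtain ⟨q, r, hq, hqr⟩ := exists_div_BK hg' hyn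
  refine ⟨q.map (algebraMap K (PadicAlgCl ℓ)), algebraMap K (PadicAlgCl ℓ) r, map_mem_BO K hq, ?_⟩
  rw [← hge, hqr, map_add, map_mul, map_sub, map_X, map_C, map_C, hyc]

theorem div_unique {q : (PadicAlgCl ℓ)⟦X⟧} {r : PadicAlgCl ℓ} (hq : q ∈ BO ℓ) {y : PadicAlgCl ℓ}
    (hy : ‖y‖ < 1) (h : q * (X - C y) + C r = 0) : r = 0 := by
  obtain ⟨K, hK, hKq, M, hM⟩ := hq
  have hcoef : ∀ j, coeff j q = y * coeff (j + 1) q := by
    intro j
    have := congrArg (coeff (j + 1)) h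
    rw [mul_sub, map_add, map_sub, coeff_C, if_neg (Nat.succ_ne_zero _), mul_comm _ (C y), coeff_C_mul,
      coeff_succ_mul_X, add_zero, map_zero, sub_eq_zero] at this
    exact this
  have h0 : coeff 0 q = 0 := by
    have hpow : ∀ j, coeff 0 q = y ^ j * coeff j q := by
      intro j
      induction j with
      | zero => simp
      | succ j ih => rw [ih, hcoef j, pow_succ]; ring
    rw [← norm_le_zero_iff]
    have hlim : Filter.Tendsto (fun j : ℕ => ‖y‖ ^ j * M) Filter.atTop (nhds (0 * M)) :=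
      (tendsto_pow_atTop_nhds_zero_of_lt_one (norm_nonneg _) hy).mul_const M
    rw [zero_mul] at hlim
    refine ge_of_tendsto' hlim fun j => ?_
    rw [hpow j, norm_mul, norm_pow]
    exact mul_le_mul_of_nonneg_left (hM j) (by positivity)
  have := congrArg (coeff 0) h
  rw [mul_sub, map_add, map_sub, coeff_C, if_pos rfl, mul_comm _ (C y), coeff_C_mul, h0,
    coeff_zero_mul_X, map_zero] at this
  simpa using this

/-- Evaluation at a point `y` of the open unit disc. -/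
def evalBO (y : PadicAlgCl ℓ) (hy : ‖y‖ < 1) : BO ℓ →+* PadicAlgCl ℓ := by
  have huniq : ∀ {g q q' : (PadicAlgCl ℓ)⟦X⟧} {r r' : PadicAlgCl ℓ}, q ∈ BO ℓ → q' ∈ BO ℓ →
      g = q * (X - C y) + C r → g = q' * (X - C y) + C r' → r = r' := by
    intro g q q' r r' hq hq' h h'
    rw [← sub_eq_zero]
    refine div_unique (q := q - q') ((BO ℓ).sub_mem hq hq') hy ?_
    rw [map_sub]
    have : q * (X - C y) + C r = q' * (X - C y) + C r' := h.symm.trans h'
    linear_combination this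
  exact
  { toFun := fun g => (exists_div_BO g.2 hy).choose_spec.choose
    map_one' := by
      have hs := (exists_div_BO (1 : BO ℓ).2 hy).choose_spec.choose_spec
      refine huniq (g := 1) hs.1 (BO ℓ).zero_mem hs.2 ?_
      simp
    map_mul' := by
      intro g h
      have hs := (exists_div_BO (g * h).2 hy).choose_spec.choose_spec
      have hs1 := (exists_div_BO g.2 hy).choose_spec.choose_spec
      have hs2 := (exists_div_BO h.2 hy).choose_spec.choose_spec
      set q1 := (exists_div_BO g.2 hy).choose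
      set r1 := (exists_div_BO g.2 hy).choose_spec.choose
      set q2 := (exists_div_BO h.2 hy).choose
      set r2 := (exists_div_BO h.2 hy).choose_spec.choose
      refine huniq (q' := q1 * (h : (PadicAlgCl ℓ)⟦X⟧) + C r1 * q2) hs.1 ?_ hs.2 ?_
      · exact (BO ℓ).add_mem ((BO ℓ).mul_mem hs1.1 h.2) ((BO ℓ).mul_mem (C_mem_BO _) hs2.1)
      · have e1 := hs1.2
        have e2 := hs2.2
        rw [Subring.coe_mul, map_mul]
        linear_combination (h : (PadicAlgCl ℓ)⟦X⟧) * e1 + C r1 * e2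
    map_zero' := by
      have hs := (exists_div_BO (0 : BO ℓ).2 hy).choose_spec.choose_spec
      refine huniq (g := 0) hs.1 (BO ℓ).zero_mem hs.2 ?_
      simp
    map_add' := by
      intro g h
      have hs := (exists_div_BO (g + h).2 hy).choose_spec.choose_spec
      have hs1 := (exists_div_BO g.2 hy).choose_spec.choose_spec
      have hs2 := (exists_div_BO h.2 hy).choose_spec.choose_spec
      refine huniq hs.1 ((BO ℓ).add_mem hs1.1 hs2.1) hs.2 ?_
      have e1 := hs1.2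
      have e2 := hs2.2
      rw [Subring.coe_add, map_add]
      linear_combination e1 + e2 }

theorem evalBO_spec (y : PadicAlgCl ℓ) (hy : ‖y‖ < 1) (g : BO ℓ) :
    ∃ q ∈ BO ℓ, (g : (PadicAlgCl ℓ)⟦X⟧) = q * (X - C y) + C (evalBO y hy g) :=
  ⟨_, (exists_div_BO g.2 hy).choose_spec.choose_spec.1, (exists_div_BO g.2 hy).choose_spec.choose_spec.2⟩

theorem evalBO_eq {y : PadicAlgCl ℓ} {hy : ‖y‖ < 1} {g : BO ℓ} {q : (PadicAlgCl ℓ)⟦X⟧}
    {r : PadicAlgCl ℓ} (hq : q ∈ BO ℓ) (h : (g : (PadicAlgCl ℓ)⟦X⟧) = q * (X - C y) + C r) :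
    evalBO y hy g = r := by
  obtain ⟨q', hq', h'⟩ := evalBO_spec y hy g
  rw [← sub_eq_zero]
  refine div_unique (q := q' - q) ((BO ℓ).sub_mem hq' hq) hy ?_
  rw [map_sub]
  have := h'.symm.trans h
  linear_combination this

@[simp]
theorem evalBO_C (y : PadicAlgCl ℓ) (hy : ‖y‖ < 1) (a : PadicAlgCl ℓ) :
    evalBO y hy ⟨C a, C_mem_BO a⟩ = a :=
  evalBO_eq (BO ℓ).zero_mem (by simp)

@[simp]
theorem evalBO_X (y : PadicAlgCl ℓ) (hy : ‖y‖ < 1) :
    evalBO y hy ⟨X, X_mem_BO⟩ = y :=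
  evalBO_eq (q := 1) (BO ℓ).one_mem (by simp)

theorem norm_galois (τ : PadicAlgCl ℓ ≃ₐ[ℚ_[ℓ]] PadicAlgCl ℓ) (x : PadicAlgCl ℓ) : ‖τ x‖ = ‖x‖ := by
  rw [← PadicAlgCl.spectralNorm_eq, ← PadicAlgCl.spectralNorm_eq]
  exact (spectralNorm_eq_of_equiv τ x).symm

theorem map_galois_mem (τ : PadicAlgCl ℓ ≃ₐ[ℚ_[ℓ]] PadicAlgCl ℓ) {g : (PadicAlgCl ℓ)⟦X⟧}
    (hg : g ∈ BO ℓ) : g.map (τ : PadicAlgCl ℓ →+* PadicAlgCl ℓ) ∈ BO ℓ := by
  obtain ⟨K, hK, hKg, M, hM⟩ := hg
  refine ⟨K.map τ.toAlgHom, ?_, fun i => ?_, M, fun i => ?_⟩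
  · exact LinearEquiv.finiteDimensional (K.equivMap τ.toAlgHom).toLinearEquiv
  · rw [coeff_map]
    exact ⟨_, hKg i, rfl⟩
  · rw [coeff_map]
    exact (norm_galois τ _).le.trans (hM i)

/-- Evaluation is compatible with the Galois action. -/
theorem evalBO_galois (τ : PadicAlgCl ℓ ≃ₐ[ℚ_[ℓ]] PadicAlgCl ℓ) (y : PadicAlgCl ℓ) (hy : ‖y‖ < 1)
    (hτ : τ y = y) (g : BO ℓ) :
    evalBO y hy ⟨(g : (PadicAlgCl ℓ)⟦X⟧).map (τ : PadicAlgCl ℓ →+* PadicAlgCl ℓ), map_galois_mem τ g.2⟩ =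
      τ (evalBO y hy g) := by
  obtain ⟨q, hq, h⟩ := evalBO_spec y hy g
  refine evalBO_eq (map_galois_mem τ hq) ?_
  have := congrArg (PowerSeries.map (τ : PadicAlgCl ℓ →+* PadicAlgCl ℓ)) h
  rw [map_add, map_mul, map_sub, map_X, map_C, map_C] at this
  have h2 : (τ : PadicAlgCl ℓ →+* PadicAlgCl ℓ) y = y := hτ
  rw [h2] at this
  exact this

/-- Power series with integer coefficients are bounded. -/
theorem int_mem_BO (g : ℤ⟦X⟧) : g.map (Int.castRingHom (PadicAlgCl ℓ)) ∈ BO ℓ := by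
  refine ⟨⊥, inferInstance, fun i => ?_, 1, fun i => ?_⟩
  · rw [coeff_map]
    exact (⊥ : IntermediateField ℚ_[ℓ] (PadicAlgCl ℓ)).intCast_mem _
  · rw [coeff_map, eq_intCast]
    have h4 : ((coeff i g : ℤ) : PadicAlgCl ℓ) = algebraMap ℚ_[ℓ] (PadicAlgCl ℓ) (coeff i g : ℤ) := by
      rw [map_intCast]
    rw [h4, norm_algebraMap']
    exact Padic.norm_int_le_one _

end Pool.Agent.H83.Kim
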