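import Mathlib

/-! Fixed rings of normal subgroups with `p`-group quotient, via a tower of Kummer steps. -/

noncomputable section

namespace Pool.Agent.H83.Kim

variable {Γ R : Type*} [Group Γ] [Finite Γ] [CommRing R] [IsDomain R] [Algebra ℚ R]
  [MulSemiringAction Γ R]

omit [IsDomain R] in
/-- Separability elements for the fixed ring of a normal subgroup. -/
theorem exists_sep {J : Type*} [Fintype J] (x y : J → R)
    (hxy : ∀ g : Γ, (g = 1 → ∑ j, x j * g • y j = 1) ∧ (g ≠ 1 → ∑ j, x j * g • y j = 0))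
    (N : Subgroup Γ) [N.Normal] :
    ∃ X Y : J → R, (∀ j, ∀ n ∈ N, n • X j = X j) ∧ (∀ j, ∀ n ∈ N, n • Y j = Y j) ∧
      ∀ g : Γ, (g ∈ N → ∑ j, X j * g • Y j = 1) ∧ (g ∉ N → ∑ j, X j * g • Y j = 0) := by
  classical
  have := Fintype.ofFinite Γ
  let c : R := algebraMap ℚ R ((Fintype.card N : ℚ)⁻¹)
  have hcfix : ∀ g : Γ, g • c = c := by
    intro g
    exact congrArg (fun f : ℚ →+* R => f (Fintype.card N : ℚ)⁻¹)
      (Subsingleton.elim ((MulSemiringAction.toRingHom Γ R g).comp (algebraMap ℚ R)) (algebraMap ℚ R))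
  have hc : (Fintype.card N : R) * c = 1 := by
    have : (Fintype.card N : R) = algebraMap ℚ R (Fintype.card N : ℚ) := by rw [map_natCast]
    rw [this, ← map_mul, mul_inv_cancel₀, map_one]
    exact_mod_cast Fintype.card_ne_zero
  refine ⟨fun j => ∑ n : N, (n : Γ) • x j * c, fun j => ∑ n : N, (n : Γ) • y j, ?_, ?_, ?_⟩
  · intro j n hn
    rw [Finset.smul_sum]
    refine Fintype.sum_equiv (Equiv.mulLeft (⟨n, hn⟩ : N)) _ _ fun m => ?_
    rw [smul_mul', hcfix, smul_smul]
    rfl
  · intro j n hn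
    rw [Finset.smul_sum]
    refine Fintype.sum_equiv (Equiv.mulLeft (⟨n, hn⟩ : N)) _ _ fun m => ?_
    rw [smul_smul]
    rfl
  · intro g
    have key : ∑ j, (∑ n : N, (n : Γ) • x j * c) * g • (∑ n : N, (n : Γ) • y j) =
        ∑ n : N, ∑ m : N, c * ((n : Γ) • ∑ j, x j * ((n : Γ)⁻¹ * g * m) • y j) := by
      simp_rw [Finset.smul_sum, Finset.sum_mul, Finset.mul_sum]
      rw [Finset.sum_comm]
      refine Finset.sum_congr rfl fun n _ => ?_
      rw [Finset.sum_comm]
      refine Finset.sum_congr rfl fun m _ => ?_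
      refine Finset.sum_congr rfl fun j _ => ?_
      rw [smul_mul', smul_smul, smul_smul]
      rw [show (n : Γ) * ((n : Γ)⁻¹ * g * m) = g * m by group]
      ring
    rw [key]
    constructor
    · intro hg
      have h1 : ∀ n : N, ∑ m : N, c * ((n : Γ) • ∑ j, x j * ((n : Γ)⁻¹ * g * m) • y j) = c := by
        intro n
        rw [Finset.sum_eq_single (⟨g⁻¹ * n, N.mul_mem (N.inv_mem hg) n.2⟩ : N)]
        · rw [(hxy _).1 (by group)]
          rw [smul_one, mul_one]
        · intro m _ hm
          rw [(hxy _).2, smul_zero, mul_zero]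
          intro h
          apply hm
          apply Subtype.ext
          change (m : Γ) = g⁻¹ * n
          have : (m : Γ) = ((n : Γ)⁻¹ * g)⁻¹ := eq_inv_of_mul_eq_one_right h
          rw [this]; group
        · intro h; exact absurd (Finset.mem_univ _) h
      rw [Finset.sum_congr rfl fun n _ => h1 n, Finset.sum_const, Finset.card_univ, nsmul_eq_mul, hc]
    · intro hg
      refine Finset.sum_eq_zero fun n _ => Finset.sum_eq_zero fun m _ => ?_
      rw [(hxy _).2, smul_zero, mul_zero]
      intro h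
      apply hg
      have : g = n * (m : Γ)⁻¹ := by
        have h2 : (n : Γ)⁻¹ * g = (m : Γ)⁻¹ := eq_inv_of_mul_eq_one_left h
        rw [← h2]; group
      rw [this]
      exact N.mul_mem n.2 (N.inv_mem m.2)

omit [Finite Γ] in
/-- One Kummer step. -/
theorem kummer_step {p : ℕ} [hp : Fact p.Prime] {ζ : R} (hζ : IsPrimitiveRoot ζ p)
    (hζΓ : ∀ g : Γ, g • ζ = ζ)
    {J : Type*} [Fintype J] (X Y : J → R) (N : Subgroup Γ) [N.Normal]
    (hX : ∀ j, ∀ n ∈ N, n • X j = X j) (hY : ∀ j, ∀ n ∈ N, n • Y j = Y j)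
    (hXY : ∀ g : Γ, (g ∈ N → ∑ j, X j * g • Y j = 1) ∧ (g ∉ N → ∑ j, X j * g • Y j = 0))
    (τ : Γ) (hτ : ∀ i : ℕ, τ ^ i ∈ N ↔ p ∣ i)
    (S : Subring R)
    (hS : ∀ r : R, (∀ n ∈ N, n • r = r) → τ • r = r → r ∈ S)
    (hCL : ∀ (a c : J → R), ∑ j, a j * c j = 1 → (∀ s : Fin p → J, ∏ i, a (s i) ∈ S) →
      (∀ s : Fin p → J, ∏ i, c (s i) ∈ S) → ∀ j, a j ∈ S) :
    ∀ r : R, (∀ n ∈ N, n • r = r) → r ∈ S := by
  classical
  have hp0 : p ≠ 0 := hp.out.ne_zero
  have hζp : ζ ^ p = 1 := hζ.pow_eq_one
  let c : R := algebraMap ℚ R ((p : ℚ)⁻¹)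
  have hcfix : ∀ g : Γ, g • c = c := by
    intro g
    exact congrArg (fun f : ℚ →+* R => f (p : ℚ)⁻¹)
      (Subsingleton.elim ((MulSemiringAction.toRingHom Γ R g).comp (algebraMap ℚ R)) (algebraMap ℚ R))
  have hc : (p : R) * c = 1 := by
    have : (p : R) = algebraMap ℚ R (p : ℚ) := by rw [map_natCast]
    rw [this, ← map_mul, mul_inv_cancel₀, map_one]
    exact_mod_cast hp0
  have hζfix : ∀ (g : Γ) (k : ℕ), g • ζ ^ k = ζ ^ k := by
    intro g k
    rw [smul_pow', hζΓ]
  have hζmod : ∀ k : ℕ, ζ ^ (k * p) = 1 := by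
    intro k; rw [mul_comm, pow_mul, hζp, one_pow]
  -- isotypic projections (unnormalised), indexed by `a < p`
  let P : ℕ → R → R := fun a r => ∑ i ∈ Finset.range p, ζ ^ (a * i) * τ ^ i • r
  have hNfix : ∀ r : R, (∀ n ∈ N, n • r = r) → ∀ i : ℕ, ∀ n ∈ N, n • τ ^ i • r = τ ^ i • r := by
    intro r hr i n hn
    rw [smul_smul, show n * τ ^ i = τ ^ i * ((τ ^ i)⁻¹ * n * τ ^ i) by group, ← smul_smul]
    rw [hr _ (by
      have := ‹N.Normal›.conj_mem n hn (τ ^ i)⁻¹
      rwa [inv_inv] at this)]
  have hPN : ∀ a r, (∀ n ∈ N, n • r = r) → ∀ n ∈ N, n • P a r = P a r := by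
    intro a r hr n hn
    simp only [P, Finset.smul_sum]
    refine Finset.sum_congr rfl fun i _ => ?_
    rw [smul_mul', hζfix, hNfix r hr i n hn]
  have hτp : ∀ r : R, (∀ n ∈ N, n • r = r) → τ ^ p • r = r := by
    intro r hr
    exact hr _ ((hτ p).mpr dvd_rfl)
  -- `τ` acts on `P a r` by `ζ ^ (a * (p - 1))`, i.e. by the inverse of `ζ ^ a`
  have hPτ : ∀ a r, (∀ n ∈ N, n • r = r) → ζ ^ a * τ • P a r = P a r := by
    intro a r hr
    simp only [P, Finset.smul_sum, Finset.mul_sum]
    have h1 : ∀ i, ζ ^ a * τ • (ζ ^ (a * i) * τ ^ i • r) = ζ ^ (a * (i + 1)) * τ ^ (i + 1) • r := by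
      intro i
      rw [smul_mul', hζfix, smul_smul, ← pow_succ', ← mul_assoc, ← pow_add]
      ring_nf
    simp_rw [h1]
    have h2 := Finset.sum_range_succ' (fun i => ζ ^ (a * i) * τ ^ i • r) p
    have h3 := Finset.sum_range_succ (fun i => ζ ^ (a * i) * τ ^ i • r) p
    rw [h3] at h2
    simp only [hτp r hr, hζmod, mul_zero, pow_zero, one_smul, one_mul] at h2
    exact (add_right_cancel h2).symm
  -- products of `p` elements of weight `a` are invariant
  have hprod : ∀ (a : ℕ) (f : Fin p → R), (∀ i, ∀ n ∈ N, n • f i = f i) →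
      (∀ i, ζ ^ a * τ • f i = f i) → ∏ i, f i ∈ S := by
    intro a f hf hf'
    apply hS
    · intro n hn
      rw [Finset.smul_prod']
      exact Finset.prod_congr rfl fun i _ => hf i n hn
    · have h1 : ∏ i, f i = ζ ^ (a * p) * τ • ∏ i, f i := by
        rw [Finset.smul_prod', pow_mul]
        conv_lhs => rw [← Finset.prod_congr rfl fun i _ => hf' i]
        rw [Finset.prod_mul_distrib, Finset.prod_const, Finset.card_univ, Fintype.card_fin]
      rw [hζmod, one_mul] at h1
      exact h1.symm
  -- the weight `a` part of `R^N` lies in `S`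
  have hweight : ∀ a : ℕ, a < p → ∀ r : R, (∀ n ∈ N, n • r = r) → ζ ^ a * τ • r = r → r ∈ S := by
    intro a ha r hr hra
    let b : ℕ := p - a
    have hab : ∀ i : ℕ, ζ ^ (a * i) * ζ ^ (b * i) = 1 := by
      intro i
      rw [← pow_add, ← add_mul, show a + b = p by omega, mul_comm, hζmod]
    let A : J → R := fun j => P a (X j)
    let B : J → R := fun j => c * P b (Y j)
    have hAB : ∑ j, A j * B j = 1 := by
      have key : ∑ j, A j * B j = ∑ i ∈ Finset.range p, ∑ k ∈ Finset.range p,
          c * (ζ ^ (a * i) * ζ ^ (b * k)) * (τ ^ i • ∑ j, X j * ((τ ^ i)⁻¹ * τ ^ k) • Y j) := by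
        simp only [A, B, P, Finset.mul_sum, Finset.sum_mul, Finset.smul_sum]
        rw [Finset.sum_comm]
        refine Eq.trans ?_ (Finset.sum_comm)
        refine Finset.sum_congr rfl fun k _ => ?_
        rw [Finset.sum_comm]
        refine Finset.sum_congr rfl fun i _ => ?_
        refine Finset.sum_congr rfl fun j _ => ?_
        rw [smul_mul', smul_smul, show τ ^ i * ((τ ^ i)⁻¹ * τ ^ k) = τ ^ k by group]
        ring
      rw [key]
      have h1 : ∀ i ∈ Finset.range p, ∑ k ∈ Finset.range p,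
          c * (ζ ^ (a * i) * ζ ^ (b * k)) * (τ ^ i • ∑ j, X j * ((τ ^ i)⁻¹ * τ ^ k) • Y j) = c := by
        intro i hi
        rw [Finset.sum_eq_single i]
        · rw [(hXY _).1 (by rw [inv_mul_cancel]; exact N.one_mem), hab, smul_one, mul_one, mul_one]
        · intro k hk hki
          rw [(hXY _).2, smul_zero, mul_zero]
          rw [Finset.mem_range] at hi hk
          intro hmem
          rcases lt_or_gt_of_ne hki with h | h
          · have h2 : τ ^ (i - k) ∈ N := by
              have := N.inv_mem hmem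
              rw [mul_inv_rev, inv_inv] at this
              rw [show i = k + (i - k) by omega, pow_add] at this
              simpa using this
            rw [hτ] at h2
            have := Nat.le_of_dvd (by omega) h2
            omega
          · have h2 : τ ^ (k - i) ∈ N := by
              rw [show k = i + (k - i) by omega, pow_add] at hmem
              simpa using hmem
            rw [hτ] at h2
            have := Nat.le_of_dvd (by omega) h2
            omega
        · intro h; exact absurd hi h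
      rw [Finset.sum_congr rfl h1, Finset.sum_const, Finset.card_range, nsmul_eq_mul, hc]
    have hA : ∀ j, A j ∈ S := by
      refine hCL A B hAB ?_ ?_
      · intro s
        exact hprod a _ (fun i => hPN a _ (hX (s i))) (fun i => hPτ a _ (hX (s i)))
      · intro s
        refine hprod b _ (fun i n hn => ?_) (fun i => ?_)
        · simp only [B]
          rw [smul_mul', hcfix, hPN b _ (hY (s i)) n hn]
        · simp only [B]
          rw [smul_mul', hcfix]
          calc ζ ^ b * (c * τ • P b (Y (s i))) = c * (ζ ^ b * τ • P b (Y (s i))) := by ring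
            _ = c * P b (Y (s i)) := by rw [hPτ b _ (hY (s i))]
    have hrB : ∀ j, r * B j ∈ S := by
      intro j
      apply hS
      · intro n hn
        simp only [B]
        rw [smul_mul', hr n hn, smul_mul', hcfix, hPN b _ (hY j) n hn]
      · have h1 : ζ ^ b * τ • B j = B j := by
          simp only [B]
          rw [smul_mul', hcfix]
          calc ζ ^ b * (c * τ • P b (Y j)) = c * (ζ ^ b * τ • P b (Y j)) := by ring
            _ = c * P b (Y j) := by rw [hPτ b _ (hY j)]
        have h2 : r * B j = (ζ ^ (a * 1) * ζ ^ (b * 1)) * τ • (r * B j) := by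
          calc r * B j = (ζ ^ a * τ • r) * (ζ ^ b * τ • B j) := by rw [hra, h1]
            _ = (ζ ^ (a * 1) * ζ ^ (b * 1)) * (τ • r * τ • B j) := by rw [mul_one, mul_one]; ring
            _ = _ := by rw [smul_mul' τ r (B j)]
        rw [hab, one_mul] at h2
        exact h2.symm
    have hfin : r = ∑ j, r * B j * A j := by
      calc r = r * ∑ j, A j * B j := by rw [hAB, mul_one]
        _ = ∑ j, r * B j * A j := by
          rw [Finset.mul_sum]
          exact Finset.sum_congr rfl fun j _ => by ring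
    rw [hfin]
    exact S.sum_mem fun j _ => S.mul_mem (hrB j) (hA j)
  -- decompose
  intro r hr
  have hcS : c ∈ S := by
    apply hS
    · intro n _; exact hcfix n
    · exact hcfix τ
  have hdec : r = ∑ a ∈ Finset.range p, c * P a r := by
    simp only [P, Finset.mul_sum]
    rw [Finset.sum_comm]
    have h1 : ∀ i ∈ Finset.range p, ∑ a ∈ Finset.range p, c * (ζ ^ (a * i) * τ ^ i • r) =
        if i = 0 then r else 0 := by
      intro i hi
      have h2 : ∑ a ∈ Finset.range p, c * (ζ ^ (a * i) * τ ^ i • r) =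
          (∑ a ∈ Finset.range p, (ζ ^ i) ^ a) * (c * τ ^ i • r) := by
        rw [Finset.sum_mul]
        refine Finset.sum_congr rfl fun a _ => ?_
        rw [← pow_mul, mul_comm a i]
        ring
      rw [h2]
      split_ifs with h0
      · subst h0
        simp only [pow_zero, one_pow, Finset.sum_const, Finset.card_range, nsmul_eq_mul, mul_one,
          one_smul]
        rw [← mul_assoc, hc, one_mul]
      · rw [Finset.mem_range] at hi
        have hz : (∑ a ∈ Finset.range p, (ζ ^ i) ^ a) = 0 := by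
          have hprim : IsPrimitiveRoot (ζ ^ i) p := by
            apply hζ.pow_of_coprime
            exact (Nat.coprime_of_lt_prime (Nat.pos_of_ne_zero h0).ne' hi hp.out).symm
          exact hprim.geom_sum_eq_zero hp.out.one_lt
        rw [hz, zero_mul]
    rw [Finset.sum_congr rfl h1, Finset.sum_ite_eq' (Finset.range p) 0 (fun _ => r),
      if_pos (Finset.mem_range.mpr hp.out.pos)]
  rw [hdec]
  refine S.sum_mem fun a ha => S.mul_mem hcS ?_
  exact hweight a (Finset.mem_range.mp ha) _ (hPN a r hr) (hPτ a r hr)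

/-- Fixed rings of normal subgroups with `p`-group quotient lie in every subring that contains
the invariants and is closed under Kummer steps. -/
theorem tower {p : ℕ} [hp : Fact p.Prime] {ζ : R} (hζ : IsPrimitiveRoot ζ p)
    (hζΓ : ∀ g : Γ, g • ζ = ζ)
    {J : Type*} [Fintype J] (x y : J → R)
    (hxy : ∀ g : Γ, (g = 1 → ∑ j, x j * g • y j = 1) ∧ (g ≠ 1 → ∑ j, x j * g • y j = 0))
    (S : Subring R)
    (hΓ : ∀ r : R, (∀ g : Γ, g • r = r) → r ∈ S)
    (hCL : ∀ (a c : J → R), ∑ j, a j * c j = 1 → (∀ s : Fin p → J, ∏ i, a (s i) ∈ S) →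
      (∀ s : Fin p → J, ∏ i, c (s i) ∈ S) → ∀ j, a j ∈ S) :
    ∀ (n : ℕ) (N : Subgroup Γ) [N.Normal], IsPGroup p (Γ ⧸ N) → N.index = n →
      ∀ r : R, (∀ g ∈ N, g • r = r) → r ∈ S := by
  intro n
  induction n using Nat.strong_induction_on with
  | _ n ih =>
    intro N hN hpN hcard
    obtain ⟨X, Y, hX, hY, hXY⟩ := exists_sep x y hxy N
    by_cases htop : N = ⊤
    · subst htop
      intro r hr
      exact hΓ r fun g => hr g (Subgroup.mem_top g)
    have hnt : Nontrivial (Γ ⧸ N) := by
      rw [← not_subsingleton_iff_nontrivial, QuotientGroup.subsingleton_iff]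
      exact htop
    have hfin : Finite (Γ ⧸ N) := inferInstance
    have hcn := hpN.center_nontrivial
    have hcp : IsPGroup p (Subgroup.center (Γ ⧸ N)) := hpN.to_subgroup _
    have hdvd : p ∣ Nat.card (Subgroup.center (Γ ⧸ N)) := by
      obtain ⟨k, hk⟩ := IsPGroup.iff_card.mp hcp
      rw [hk]
      have : k ≠ 0 := by
        rintro rfl
        rw [pow_zero] at hk
        have := Finite.one_lt_card (α := Subgroup.center (Γ ⧸ N))
        omega
      exact dvd_pow_self p this
    obtain ⟨z, hz⟩ := exists_prime_orderOf_dvd_card' p hdvd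
    obtain ⟨τ, hτz⟩ := QuotientGroup.mk_surjective (z : Γ ⧸ N)
    have hzo : orderOf (z : Γ ⧸ N) = p := by rw [← hz]; exact Subgroup.orderOf_coe z
    have hτ : ∀ i : ℕ, τ ^ i ∈ N ↔ p ∣ i := by
      intro i
      rw [← QuotientGroup.eq_one_iff, QuotientGroup.mk_pow, hτz, ← orderOf_dvd_iff_pow_eq_one, hzo]
    let M : Subgroup Γ := (Subgroup.zpowers (z : Γ ⧸ N)).comap (QuotientGroup.mk' N)
    have hzN : (Subgroup.zpowers (z : Γ ⧸ N)).Normal := by
      constructor
      intro a ha g
      have : a ∈ Subgroup.center (Γ ⧸ N) := by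
        obtain ⟨k, rfl⟩ := ha
        exact (Subgroup.center _).zpow_mem z.2 k
      rw [Subgroup.mem_center_iff.mp this g, mul_inv_cancel_right]
      exact ha
    have hM : M.Normal := hzN.comap _
    have hNM : N ≤ M := by
      intro g hg
      change (QuotientGroup.mk g : Γ ⧸ N) ∈ Subgroup.zpowers (z : Γ ⧸ N)
      rw [(QuotientGroup.eq_one_iff g).mpr hg]
      exact Subgroup.one_mem _
    have hτM : τ ∈ M := by
      change (QuotientGroup.mk τ : Γ ⧸ N) ∈ Subgroup.zpowers (z : Γ ⧸ N)
      rw [hτz]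
      exact Subgroup.mem_zpowers _
    have hτN : τ ∉ N := by
      intro h
      have : τ ^ 1 ∈ N := by rwa [pow_one]
      rw [hτ, Nat.dvd_one] at this
      exact hp.out.one_lt.ne' this
    have hlt : M.index < n := by
      rw [← hcard]
      have h1 : N.relIndex M * M.index = N.index := Subgroup.relIndex_mul_index hNM
      have h2 : N.relIndex M ≠ 1 := by
        rw [Ne, Subgroup.relIndex_eq_one]
        intro h
        exact hτN (h hτM)
      have h3 : N.index ≠ 0 := Subgroup.index_ne_zero_of_finite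
      have h4 : M.index ≠ 0 := Subgroup.index_ne_zero_of_finite
      have h5 : N.relIndex M ≠ 0 := by
        intro h; rw [h, zero_mul] at h1; exact h3 h1.symm
      rw [← h1]
      have : 2 ≤ N.relIndex M := by omega
      nlinarith [Nat.pos_of_ne_zero h4]
    have hpM : IsPGroup p (Γ ⧸ M) :=
      hpN.of_surjective (QuotientGroup.map N M (MonoidHom.id Γ) hNM) (by
        intro q
        obtain ⟨g, rfl⟩ := QuotientGroup.mk_surjective q
        exact ⟨QuotientGroup.mk g, rfl⟩)
    have hSM := ih M.index hlt M hpM rfl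
    refine kummer_step hζ hζΓ X Y N hX hY hXY τ hτ S ?_ hCL
    intro r hr hrτ
    apply hSM
    intro g hg
    obtain ⟨k, hk⟩ := Subgroup.mem_zpowers_iff.mp (show (QuotientGroup.mk g : Γ ⧸ N) ∈ Subgroup.zpowers (z : Γ ⧸ N) from hg)
    have h1 : g * (τ ^ k)⁻¹ ∈ N := by
      rw [← QuotientGroup.eq_one_iff, QuotientGroup.mk_mul, QuotientGroup.mk_inv,
        QuotientGroup.mk_zpow, hτz, hk, mul_inv_cancel]
    have h2 : τ ^ k • r = r := by
      have : τ ∈ MulAction.stabilizer Γ r := hrτ
      exact (MulAction.stabilizer Γ r).zpow_mem this k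
    calc g • r = (g * (τ ^ k)⁻¹ * τ ^ k) • r := by rw [inv_mul_cancel_right]
      _ = (g * (τ ^ k)⁻¹) • τ ^ k • r := by rw [mul_smul]
      _ = r := by rw [h2, hr _ h1]

end Pool.Agent.H83.Kim
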