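import Pool.Agent.H83.Kim.Finite
import Pool.Agent.H83.Kim.Tower

/-! The key lemma: elements of the fundamental group which are trivial on a big subring. -/

noncomputable section

namespace Pool.Agent.H83.Kim

section

variable {A W : Type} [CommRing A] [CommRing W] [Algebra A W]
variable [IsDomain W] {κ : Type} [Field κ] [IsAlgClosed κ] [IsDomain A] [IsPrincipalIdealRing A]
variable (ε : W →+* κ) (hε : Function.Surjective ε) [IsAdicComplete (RingHom.ker ε) W]
    {x : A →+* κ} (hx : ε.comp (algebraMap A W) = x)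
variable [FaithfulSMul A W]

/-- Restriction of the action to a stable subalgebra. -/
def psiB {B : Subalgebra A W} (hB : FU A W B)
    (hst : ∀ (g : Path x x) (b : Ahat A W), b.1 ∈ B → (psi ε hε hx g b : W) ∈ B)
    (g : Path x x) : B →ₐ[A] B :=
  ((Ahat A W).val.comp ((psi ε hε hx g).comp (Subalgebra.inclusion hB.le_Ahat))).codRestrict B
    (fun b => hst g _ b.2)

theorem coe_psiB {B : Subalgebra A W} (hB : FU A W B)
    (hst : ∀ (g : Path x x) (b : Ahat A W), b.1 ∈ B → (psi ε hε hx g b : W) ∈ B)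
    (g : Path x x) (b : B) :
    (psiB ε hε hx hB hst g b : W) = psi ε hε hx g ⟨b.1, hB.le_Ahat b.2⟩ := rfl

theorem psiB_mul {B : Subalgebra A W} (hB : FU A W B)
    (hst : ∀ (g : Path x x) (b : Ahat A W), b.1 ∈ B → (psi ε hε hx g b : W) ∈ B)
    (g g' : Path x x) (b : B) :
    psiB ε hε hx hB hst (g * g') b = psiB ε hε hx hB hst g (psiB ε hε hx hB hst g' b) := by
  apply Subtype.ext
  rw [coe_psiB, coe_psiB, psi_mul]
  rfl

theorem psiB_one {B : Subalgebra A W} (hB : FU A W B)
    (hst : ∀ (g : Path x x) (b : Ahat A W), b.1 ∈ B → (psi ε hε hx g b : W) ∈ B) (b : B) :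
    psiB ε hε hx hB hst 1 b = b := by
  apply Subtype.ext
  rw [coe_psiB, psi_one]

/-- The action of the fundamental group on a stable subalgebra. -/
def rho {B : Subalgebra A W} (hB : FU A W B)
    (hst : ∀ (g : Path x x) (b : Ahat A W), b.1 ∈ B → (psi ε hε hx g b : W) ∈ B) :
    Path x x →* (B ≃ₐ[A] B) :=
  MonoidHom.mk' (fun g => AlgEquiv.ofAlgHom (psiB ε hε hx hB hst g) (psiB ε hε hx hB hst g⁻¹)
    (by
      apply AlgHom.ext
      intro b
      rw [AlgHom.comp_apply, ← psiB_mul, mul_inv_cancel, psiB_one]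
      rfl)
    (by
      apply AlgHom.ext
      intro b
      rw [AlgHom.comp_apply, ← psiB_mul, inv_mul_cancel, psiB_one]
      rfl)) (by
    intro g g'
    apply AlgEquiv.ext
    intro b
    exact psiB_mul ε hε hx hB hst g g' b)

theorem rho_apply {B : Subalgebra A W} (hB : FU A W B)
    (hst : ∀ (g : Path x x) (b : Ahat A W), b.1 ∈ B → (psi ε hε hx g b : W) ∈ B)
    (g : Path x x) (b : B) : rho ε hε hx hB hst g b = psiB ε hε hx hB hst g b := rfl

include hε in
theorem finite_algEquiv {B : Subalgebra A W} (hB : FU A W B) : Finite (B ≃ₐ[A] B) := by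
  have := (card_fib_W ε hε hB.cov).1
  let F : (B ≃ₐ[A] B) → Fib (algebraMap A W) hB.cov := fun e =>
    ⟨(B.val : B →+* W).comp (e : B →+* B), RingHom.ext fun a => congrArg Subtype.val (e.commutes a)⟩
  refine Finite.of_injective F ?_
  intro e e' h
  apply AlgEquiv.ext
  intro b
  apply Subtype.ext
  exact RingHom.congr_fun (congrArg Subtype.val h) b

include hx in
/-- An element of a stable subalgebra fixed by the fundamental group belongs to the base. -/
theorem mem_base [Algebra ℚ A] {B : Subalgebra A W} (hB : FU A W B)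
    (b : B) (hb : ∀ g : Path x x, (psi ε hε hx g ⟨b.1, hB.le_Ahat b.2⟩ : W) = b.1) :
    ∃ a : A, algebraMap A W a = b.1 := by
  have hfin := hB.finite
  let E := AlgebraicClosure (FractionRing W)
  let j : W →+* E := (algebraMap (FractionRing W) E).comp (algebraMap W (FractionRing W))
  have hj : Function.Injective j := (algebraMap (FractionRing W) E).injective.comp
    (IsFractionRing.injective W (FractionRing W))
  have hAB : FaithfulSMul A B := by
    rw [faithfulSMul_iff_algebraMap_injective]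
    intro a a' h
    exact FaithfulSMul.algebraMap_injective A W (congrArg Subtype.val h)
  obtain ⟨a, ha⟩ := mem_range_of_fixed (A := A) (B := B) (E := E) (j.comp (B.val : B →+* W))
    (hj.comp Subtype.val_injective) b (by
      intro φ hφ
      obtain ⟨χ, hχ⟩ := (push_bijective_W ε hε j hB.cov).2 ⟨φ, RingHom.ext fun a => hφ a⟩
      have h1 : ∀ b' : B, φ b' = j (χ.1 b') := fun b' =>
        (RingHom.congr_fun (congrArg Subtype.val hχ) b').symm
      obtain ⟨g, hg⟩ := exists_psi ε hε hx hB χ
      have h2 := hg ⟨b.1, hB.le_Ahat b.2⟩ b.2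
      rw [hb g] at h2
      rw [h1 b]
      exact congrArg j h2.symm)
  exact ⟨a, congrArg Subtype.val ha⟩

/-- The key lemma. -/
theorem key {p : ℕ} [hp : Fact p.Prime] [Algebra ℚ A] (ζ : A) (hζ : IsPrimitiveRoot ζ p)
    (S : Subring W) (hAS : ∀ a, algebraMap A W a ∈ S)
    (hCL : ∀ (n : ℕ) (a c : Fin n → W), ∑ j, a j * c j = 1 →
      (∀ s : Fin p → Fin n, ∏ i, a (s i) ∈ S) → (∀ s : Fin p → Fin n, ∏ i, c (s i) ∈ S) →
      ∀ j, a j ∈ S)
    {Ω : Type} [Field Ω] [IsAlgClosed Ω] {y : A →+* Ω}
    (h h' : Ahat A W →+* Ω) (hy : h.comp (algebraMap A (Ahat A W)) = y)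
    (hy' : h'.comp (algebraMap A (Ahat A W)) = y)
    (hhh' : ∀ b : Ahat A W, b.1 ∈ S → h b = h' b)
    (V : Subgroup (Path x x)) [V.Normal] (hV : IsOpen (V : Set (Path x x)))
    (hVp : ∀ g : Path x x, ∃ m : ℕ, g ^ p ^ m ∈ V) :
    (pathOf ε hε hx h hy).diff (pathOf ε hε hx h' hy') ∈ V := by
  classical
  obtain ⟨s, hs⟩ := exists_finset_of_isOpen hV V.one_mem
  obtain ⟨B, hB, hsB, hst⟩ := exists_stable ε hε hx (s.image Sigma.fst)
  -- elements acting trivially on `B` are in `V`
  have hker : ∀ g : Path x x, rho ε hε hx hB hst g = 1 → g ∈ V := by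
    intro g hg
    apply hs
    intro q hq
    obtain ⟨χ, hχ⟩ := (Fib.push_bijective_of_complete ε hε hx q.1).2 q.2
    rw [← hχ, ← push_gact ε hε hx]
    congr 1
    apply Subtype.ext
    ext b
    have h1 : χ.1 b ∈ B := hsB q.1 (Finset.mem_image_of_mem _ hq) χ ⟨b, rfl⟩
    have h2 : (psi ε hε hx g (χ.toAhat b) : W) = (gact ε hε hx g q.1 χ).1 b := by
      rw [psi_toAhat]
      rfl
    rw [← h2]
    have h3 : rho ε hε hx hB hst g ⟨χ.1 b, h1⟩ = ⟨χ.1 b, h1⟩ := by
      rw [hg]
      rfl
    exact congrArg Subtype.val h3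
  have hfinB := hB.finite
  have hunB := hB.unram
  have hAB : FaithfulSMul A B := by
    rw [faithfulSMul_iff_algebraMap_injective]
    intro a a' h
    exact FaithfulSMul.algebraMap_injective A W (congrArg Subtype.val h)
  have hfG := finite_algEquiv ε hε hB
  set ρ := rho ε hε hx hB hst with hρ
  let : Algebra ℚ B := ((algebraMap A B).comp (algebraMap ℚ A)).toAlgebra
  obtain ⟨n, X, Y, hXY⟩ := exists_sepElements A B
  let G := ρ.range
  let N : Subgroup G := V.map ρ.rangeRestrict
  have hNn : N.Normal := Subgroup.Normal.map inferInstance _ ρ.rangeRestrict_surjective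
  have hmemN : ∀ g : Path x x, ρ.rangeRestrict g ∈ N → g ∈ V := by
    rintro g ⟨v, hv, hvg⟩
    have h1 : ρ (v⁻¹ * g) = 1 := by
      rw [map_mul, map_inv]
      have : ρ v = ρ g := congrArg Subtype.val hvg
      rw [this, inv_mul_cancel]
    have h2 := hker _ h1
    have h3 := V.mul_mem hv h2
    rwa [mul_inv_cancel_left] at h3
  have hsep : ∀ g : G, (g = 1 → ∑ j, X j * g • Y j = 1) ∧ (g ≠ 1 → ∑ j, X j * g • Y j = 0) := by
    intro g
    have h1 := hXY B (AlgHom.id A B) (g.1 : B →ₐ[A] B)
    constructor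
    · intro hg
      exact h1.1 (by rw [hg]; rfl)
    · intro hg
      refine h1.2 ?_
      intro h2
      apply hg
      apply Subtype.ext
      apply AlgEquiv.ext
      intro b
      exact (congrArg (fun F : B →ₐ[A] B => F b) h2).symm
  have hζB : IsPrimitiveRoot (algebraMap A B ζ) p :=
    hζ.map_of_injective (FaithfulSMul.algebraMap_injective A B)
  have hNp : IsPGroup p (G ⧸ N) := by
    intro t
    obtain ⟨g', rfl⟩ := QuotientGroup.mk'_surjective N t
    obtain ⟨g, rfl⟩ := ρ.rangeRestrict_surjective g'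
    obtain ⟨m, hm⟩ := hVp g
    refine ⟨m, ?_⟩
    rw [← map_pow, ← map_pow]
    exact (QuotientGroup.eq_one_iff _).mpr ⟨_, hm, rfl⟩
  have htower := tower (Γ := G) (R := B) hζB (fun g => g.1.commutes ζ) X Y hsep
    (S.comap (B.val : B →+* W)) (by
      intro r hr
      obtain ⟨a, ha⟩ := mem_base ε hε hx hB r (fun g => congrArg Subtype.val
        (hr (ρ.rangeRestrict g)))
      change r.1 ∈ S
      rw [← ha]
      exact hAS a)
    (by
      intro a c h1 ha hc j
      refine hCL n (fun j => (a j).1) (fun j => (c j).1) ?_ ?_ ?_ j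
      · have := congrArg B.val h1
        rwa [map_sum, map_one] at this
      · intro s
        have := ha s
        rw [Subring.mem_comap, map_prod] at this
        exact this
      · intro s
        have := hc s
        rw [Subring.mem_comap, map_prod] at this
        exact this) N.index N hNp rfl
  obtain ⟨X', Y', hX', hY', hXY'⟩ := exists_sep (Γ := G) (R := B) X Y hsep N
  set g := (pathOf ε hε hx h hy).diff (pathOf ε hε hx h' hy') with hg
  by_contra hgV
  have h1 : ρ.rangeRestrict g ∉ N := fun h2 => hgV (hmemN g h2)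
  have h2 := (hXY' (ρ.rangeRestrict g)).2 h1
  have h3 := (hXY' 1).1 N.one_mem
  have hpsi := psi_diff ε hε hx h h' hy hy'
  rw [← hg] at hpsi
  let ι : B →+* Ahat A W := (Subalgebra.inclusion hB.le_Ahat).toRingHom
  have h4 : ∀ b : B, h (ι (ρ.rangeRestrict g • b)) = h' (ι b) := fun b => hpsi (ι b)
  have h5 : h (ι (∑ j, X' j * ρ.rangeRestrict g • Y' j)) = ∑ j, h (ι (X' j)) * h' (ι (Y' j)) := by
    rw [map_sum, map_sum]
    refine Finset.sum_congr rfl fun j _ => ?_
    rw [map_mul, map_mul, h4]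
  have h6 : h (ι (∑ j, X' j * (1 : G) • Y' j)) = ∑ j, h (ι (X' j)) * h' (ι (Y' j)) := by
    rw [map_sum, map_sum]
    refine Finset.sum_congr rfl fun j _ => ?_
    rw [map_mul, map_mul, one_smul, hhh' (ι (Y' j)) (htower (Y' j) (hY' j))]
  rw [h2, map_zero, map_zero] at h5
  rw [h3, map_one, map_one, ← h5] at h6
  exact one_ne_zero h6

end

end Pool.Agent.H83.Kim
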