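import Pool.Agent.H83.Kim.Rational
import Pool.Agent.H83.Kim.Key
import Pool.Agent.H83.Kim.Eval
import Pool.Agent.H83.Kim.Unip3

/-! Points in an open disc over which the missing divisor is a unit. -/

open Polynomial PowerSeries

noncomputable section

namespace Pool.Agent.H83.Kim

section T

variable (ℓ : ℕ) [Fact ℓ.Prime] (s : ℚ_[ℓ])

/-- The substitution `w(t) ↦ w(s t)`, with coefficients in the algebraic closure of `ℚ_ℓ`. -/
def TT : Qbar⟦X⟧ →+* (Qvbar ℓ)⟦X⟧ :=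
  (PowerSeries.rescale (algebraMap ℚ_[ℓ] (Qvbar ℓ) s)).comp (PowerSeries.map (embed ℓ))

theorem coeff_TT (w : Qbar⟦X⟧) (n : ℕ) : PowerSeries.coeff n (TT ℓ s w) =
    (algebraMap ℚ_[ℓ] (Qvbar ℓ) s) ^ n * embed ℓ (PowerSeries.coeff n w) := by
  rw [TT, RingHom.comp_apply, PowerSeries.coeff_rescale, PowerSeries.coeff_map]

theorem TT_C (a : Qbar) : TT ℓ s (PowerSeries.C a) = PowerSeries.C (embed ℓ a) := by
  apply PowerSeries.ext
  intro n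
  rw [coeff_TT, PowerSeries.coeff_C, PowerSeries.coeff_C]
  split
  · next h => rw [h, pow_zero, one_mul]
  · rw [map_zero, mul_zero]

theorem TT_X : TT ℓ s PowerSeries.X = PowerSeries.C (algebraMap ℚ_[ℓ] (Qvbar ℓ) s) * PowerSeries.X := by
  rw [TT, RingHom.comp_apply, PowerSeries.map_X, PowerSeries.rescale_X]

theorem TT_galois (σ : GalQ) (τ : GalQv ℓ) (h : ∀ a, τ (embed ℓ a) = embed ℓ (σ a)) (w : Qbar⟦X⟧) :
    PowerSeries.map (τ : Qvbar ℓ →+* Qvbar ℓ) (TT ℓ s w) = TT ℓ s (hat σ.toRingEquiv w) := by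
  apply PowerSeries.ext
  intro n
  rw [PowerSeries.coeff_map, coeff_TT, coeff_TT, coeff_hat, map_mul, map_pow]
  have h1 : (τ : Qvbar ℓ →+* Qvbar ℓ) (algebraMap ℚ_[ℓ] (Qvbar ℓ) s) = algebraMap ℚ_[ℓ] (Qvbar ℓ) s :=
    τ.commutes s
  have h2 : (τ : Qvbar ℓ →+* Qvbar ℓ) (embed ℓ (PowerSeries.coeff n w)) =
    embed ℓ (σ.toRingEquiv (PowerSeries.coeff n w)) := h _
  rw [h1, h2]

theorem TT_poly_mem (P : Qbar[X]) : TT ℓ s (P : Qbar⟦X⟧) ∈ BO ℓ := by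
  induction P using Polynomial.induction_on' with
  | add P Q hP hQ =>
    rw [Polynomial.coe_add, map_add]
    exact (BO ℓ).add_mem hP hQ
  | monomial n a =>
    rw [← Polynomial.C_mul_X_pow_eq_monomial, Polynomial.coe_mul, Polynomial.coe_pow, Polynomial.coe_C,
      Polynomial.coe_X, map_mul, map_pow, TT_C, TT_X]
    exact (BO ℓ).mul_mem (C_mem_BO _) ((BO ℓ).pow_mem ((BO ℓ).mul_mem (C_mem_BO _) X_mem_BO) n)

/-- The power series which are bounded on the disc of radius `1 / |s|`. -/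
def SS : Subring Qbar⟦X⟧ := (BO ℓ).comap (TT ℓ s)

theorem mem_SS {w : Qbar⟦X⟧} : w ∈ SS ℓ s ↔ TT ℓ s w ∈ BO ℓ := Iff.rfl

theorem hat_mem_SS {σ : GalQ} {τ : GalQv ℓ} (h : ∀ a, τ (embed ℓ a) = embed ℓ (σ a)) {w : Qbar⟦X⟧}
    (hw : w ∈ SS ℓ s) : hat σ.toRingEquiv w ∈ SS ℓ s := by
  rw [mem_SS, ← TT_galois ℓ s σ τ h]
  exact map_galois_mem τ hw

/-- Evaluation at a point of the disc. -/
def evS (y : PadicAlgCl ℓ) (hy : ‖y‖ < 1) : SS ℓ s →+* PadicAlgCl ℓ :=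
  (evalBO y hy).comp ((TT ℓ s).restrict (SS ℓ s) (BO ℓ) (fun _ h => h))

theorem evS_apply (y : PadicAlgCl ℓ) (hy : ‖y‖ < 1) (w : SS ℓ s) :
    evS ℓ s y hy w = evalBO y hy ⟨TT ℓ s w.1, w.2⟩ := rfl

theorem evS_eq (y : PadicAlgCl ℓ) (hy : ‖y‖ < 1) (w : SS ℓ s) (g : (PadicAlgCl ℓ)⟦X⟧) (hg : g ∈ BO ℓ)
    (e : TT ℓ s w.1 = g) : evS ℓ s y hy w = evalBO y hy ⟨g, hg⟩ := by
  rw [evS_apply]
  congr 1
  exact Subtype.ext e

theorem evS_galois {σ : GalQ} {τ : GalQv ℓ} (h : ∀ a, τ (embed ℓ a) = embed ℓ (σ a))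
    (y : PadicAlgCl ℓ) (hy : ‖y‖ < 1) (hτ : τ y = y) (w : SS ℓ s) :
    evS ℓ s y hy ⟨hat σ.toRingEquiv w.1, hat_mem_SS ℓ s h w.2⟩ = τ (evS ℓ s y hy w) := by
  rw [evS_apply, evS_apply, ← evalBO_galois τ y hy hτ]
  congr 1
  apply Subtype.ext
  exact (TT_galois ℓ s σ τ h w.1).symm

theorem closure_SS {p : ℕ} (hp : p.Prime) (hpl : p ≠ ℓ) (n : ℕ) (a c : Fin n → Qbar⟦X⟧)
    (h1 : ∑ j, a j * c j = 1) (ha : ∀ t : Fin p → Fin n, ∏ i, a (t i) ∈ SS ℓ s)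
    (hc : ∀ t : Fin p → Fin n, ∏ i, c (t i) ∈ SS ℓ s) : ∀ j, a j ∈ SS ℓ s := by
  intro j
  refine closure_lemma (ℓ := ℓ) hp hpl (fun j => TT ℓ s (a j)) (fun j => TT ℓ s (c j)) ?_ ?_ ?_ j
  · have := congrArg (TT ℓ s) h1
    rw [map_sum, map_one] at this
    simpa using this
  · intro t
    have := ha t
    rw [mem_SS, map_prod] at this
    exact this
  · intro t
    have := hc t
    rw [mem_SS, map_prod] at this
    exact this

end T

section disc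

variable (f : ℤ[X]) [hf : Fact (aeval (0 : Qbar) f ≠ 0)] (ℓ : ℕ) [Fact ℓ.Prime] (s : ℚ_[ℓ])

theorem expand_mem_SS (hF : ∃ F ∈ BO ℓ, TT ℓ s ((f.map (Int.castRingHom Qbar) : Qbar[X]) : Qbar⟦X⟧) * F = 1)
    (a : OX f) : expand f hf.out a ∈ SS ℓ s := by
  obtain ⟨F, hF, hF1⟩ := hF
  obtain ⟨⟨P, m⟩, hPm⟩ := IsLocalization.surj (Submonoid.powers (f.map (Int.castRingHom Qbar))) a
  obtain ⟨k, hk⟩ := m.2
  have h1 := congrArg (fun w => TT ℓ s (expand f hf.out w) * F ^ k) hPm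
  simp only [map_mul, expand_algebraMap] at h1
  rw [← hk] at h1
  simp only [Polynomial.coe_pow, map_pow] at h1
  rw [mul_assoc, ← mul_pow, hF1, one_pow, mul_one] at h1
  rw [mem_SS, h1]
  exact (BO ℓ).mul_mem (TT_poly_mem ℓ s P) ((BO ℓ).pow_mem hF k)

theorem exists_disc_lift
    (hF : ∃ F ∈ BO ℓ, TT ℓ s ((f.map (Int.castRingHom Qbar) : Qbar[X]) : Qbar⟦X⟧) * F = 1)
    (Y : PadicAlgCl ℓ) (hY : ‖Y‖ < 1) (zz : Qvbar ℓ)
    (hzz : algebraMap ℚ_[ℓ] (Qvbar ℓ) s * Y = zz) (hx : aeval zz f ≠ 0) :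
    ∃ h : Xhat f →+* Qvbar ℓ, h.comp (algebraMap (OX f) (Xhat f)) = pt f (embed ℓ) zz hx ∧
      ∀ (b : Xhat f) (hb : b.1 ∈ SS ℓ s), h b = evS ℓ s Y hY ⟨b.1, hb⟩ := by
  let S' : Subring (Xhat f) := (SS ℓ s).comap ((Xhat f).val : Xhat f →+* Qbar⟦X⟧)
  let ev' : S' →+* Qvbar ℓ := (evS ℓ s Y hY).comp
    (((Xhat f).val : Xhat f →+* Qbar⟦X⟧).restrict S' (SS ℓ s) (fun _ h => h))
  let i : OX f →+* S' := (algebraMap (OX f) (Xhat f)).codRestrict S' (expand_mem_SS f ℓ s hF)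
  have hi : S'.subtype.comp i = algebraMap (OX f) (Xhat f) := rfl
  have hint : S'.subtype.IsIntegral := by
    apply RingHom.IsIntegral.tower_top i
    rw [hi]
    exact algebraMap_isIntegral_iff.mpr inferInstance
  obtain ⟨h, hh⟩ := exists_extension S'.subtype ev' Subtype.val_injective hint
  refine ⟨h, ?_, fun b hb => hh ⟨b, hb⟩⟩
  apply OX_hom_ext
  intro P
  rw [pt_algebraMap, RingHom.comp_apply]
  have h1 : h (algebraMap (OX f) (Xhat f) (algebraMap Qbar[X] (OX f) P)) =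
      evS ℓ s Y hY ⟨(P : Qbar⟦X⟧), TT_poly_mem ℓ s P⟩ := by
    have h2 := hh (i (algebraMap Qbar[X] (OX f) P))
    have h3 : S'.subtype (i (algebraMap Qbar[X] (OX f) P)) =
      algebraMap (OX f) (Xhat f) (algebraMap Qbar[X] (OX f) P) := rfl
    rw [h3] at h2
    rw [h2]
    change evS ℓ s Y hY ⟨expand f hf.out (algebraMap Qbar[X] (OX f) P), _⟩ = _
    congr 1
    apply Subtype.ext
    exact expand_algebraMap f hf.out P
  rw [h1]
  let e : Qbar[X] →+* Qvbar ℓ := (evS ℓ s Y hY).comp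
    (Polynomial.coeToPowerSeries.ringHom.codRestrict (SS ℓ s) (fun P => TT_poly_mem ℓ s P))
  have h4 : e = Polynomial.eval₂RingHom (embed ℓ) zz := by
    apply Polynomial.ringHom_ext
    · intro a
      rw [Polynomial.coe_eval₂RingHom, Polynomial.eval₂_C]
      have h5 : e (Polynomial.C a) = evalBO Y hY ⟨PowerSeries.C (embed ℓ a), C_mem_BO _⟩ := by
        apply evS_eq
        change TT ℓ s ((Polynomial.C a : Qbar[X]) : Qbar⟦X⟧) = _
        rw [Polynomial.coe_C, TT_C]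
      rw [h5, evalBO_C]
    · rw [Polynomial.coe_eval₂RingHom, Polynomial.eval₂_X]
      have h5 : e Polynomial.X = evalBO Y hY (⟨PowerSeries.C (algebraMap ℚ_[ℓ] (Qvbar ℓ) s),
          C_mem_BO _⟩ * ⟨PowerSeries.X, X_mem_BO⟩) := by
        apply evS_eq
        change TT ℓ s ((Polynomial.X : Qbar[X]) : Qbar⟦X⟧) = _
        rw [Polynomial.coe_X, TT_X]
      rw [h5, map_mul, evalBO_C, evalBO_X, hzz]
  exact RingHom.congr_fun h4 P

instance : Algebra ℚ (OX f) := ((algebraMap Qbar[X] (OX f)).comp (algebraMap ℚ Qbar[X])).toAlgebra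

theorem exists_zeta {p : ℕ} [hp : Fact p.Prime] : ∃ ζ : OX f, IsPrimitiveRoot ζ p := by
  obtain ⟨ζ, hζ⟩ := HasEnoughRootsOfUnity.exists_primitiveRoot Qbar p
  refine ⟨algebraMap Qbar[X] (OX f) (Polynomial.C ζ), ?_⟩
  have hinj : Function.Injective ((algebraMap Qbar[X] (OX f)).comp Polynomial.C) :=
    ((algebraMap Qbar[X] (OX f)).comp Polynomial.C).injective
  exact hζ.map_of_injective (f := (algebraMap Qbar[X] (OX f)).comp Polynomial.C) hinj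

/-- The local class at `ℓ` of a point of the disc is trivial. -/
theorem disc_diff {p : ℕ} [hp : Fact p.Prime] (hpl : p ≠ ℓ) (n : ℕ)
    (hF : ∃ F ∈ BO ℓ, TT ℓ s ((f.map (Int.castRingHom Qbar) : Qbar[X]) : Qbar⟦X⟧) * F = 1)
    (Y : PadicAlgCl ℓ) (hY : ‖Y‖ < 1) (zz : Qvbar ℓ) (hx : aeval zz f ≠ 0)
    (h : Xhat f →+* Qvbar ℓ)
    (hy : h.comp (algebraMap (OX f) (Xhat f)) = pt f (embed ℓ) zz hx)
    (hS : ∀ (b : Xhat f) (hb : b.1 ∈ SS ℓ s), h b = evS ℓ s Y hY ⟨b.1, hb⟩)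
    (σ : GalQ) (τ : GalQv ℓ) (hστ : ∀ a, τ (embed ℓ a) = embed ℓ (σ a)) (hτ : τ Y = Y)
    (hy' : (twistPt f σ τ.toRingEquiv h).comp (algebraMap (OX f) (Xhat f)) = pt f (embed ℓ) zz hx) :
    UQ.of p n ((thePath f h hy).diff (thePath f (twistPt f σ τ.toRingEquiv h) hy')) = 1 := by
  have hA : ∀ a, algebraMap (OX f) Qbar⟦X⟧ a ∈ SS ℓ s := expand_mem_SS f ℓ s hF
  obtain ⟨ζ, hζ⟩ := exists_zeta f (p := p)
  apply UQ.of_eq_one p n hp.out
  intro V hVn hVo hVp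
  refine key _ _ _ ζ hζ (SS ℓ s) hA (fun n a c h1 ha hc => closure_SS ℓ s hp.out hpl n a c h1 ha hc)
    h (twistPt f σ τ.toRingEquiv h) hy hy' ?_ V hVo hVp
  intro b hb
  have hστ' : ∀ a, τ.symm (embed ℓ a) = embed ℓ (σ.symm a) := by
    intro a
    rw [AlgEquiv.symm_apply_eq, hστ, AlgEquiv.apply_symm_apply]
  have hτ' : τ.symm Y = Y := by
    rw [AlgEquiv.symm_apply_eq, hτ]
  have hb' : ((sigHat f σ).symm b).1 ∈ SS ℓ s := hat_mem_SS ℓ s hστ' hb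
  rw [twistPt_apply, hS _ hb']
  have h1 := evS_galois ℓ s hστ' Y hY hτ' ⟨b.1, hb⟩
  have h2 : evS ℓ s Y hY ⟨((sigHat f σ).symm b).1, hb'⟩ = τ.symm (evS ℓ s Y hY ⟨b.1, hb⟩) := h1
  rw [h2, hS b hb]
  exact (τ.apply_symm_apply _).symm

end disc

end Pool.Agent.H83.Kim
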