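import Pool.Agent.H83.Kim.Fibre

/-! The pointed universal cover inside a complete domain. -/

open scoped TensorProduct

noncomputable section

namespace Pool.Agent.H83.Kim

section

variable (A W : Type) [CommRing A] [CommRing W] [IsDomain W] [Algebra A W]

/-- A finite unramified subalgebra. -/
structure FU (B : Subalgebra A W) : Prop where
  finite : Module.Finite A B
  unram : Algebra.FormallyUnramified A B

variable {A W}

omit [IsDomain W] in
theorem FU.sup {B C : Subalgebra A W} (hB : FU A W B) (hC : FU A W C) : FU A W (B ⊔ C) := by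
  have := hB.finite
  have := hC.finite
  have := hB.unram
  have := hC.unram
  refine ⟨Subalgebra.finite_sup B C, ?_⟩
  let m : B ⊗[A] C →ₐ[A] W := Algebra.TensorProduct.productMap B.val C.val
  have hm : m.range = B ⊔ C := by
    rw [Algebra.TensorProduct.productMap_range, Subalgebra.range_val, Subalgebra.range_val]
  have h1 : Algebra.FormallyUnramified A (B ⊗[A] C) := Algebra.FormallyUnramified.comp A B (B ⊗[A] C)
  have h2 : Algebra.FormallyUnramified A m.range :=
    Algebra.FormallyUnramified.of_surjective m.rangeRestrict m.rangeRestrict_surjective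
  rwa [hm] at h2

omit [IsDomain W] in
theorem FU.bot : FU A W ⊥ := by
  refine ⟨inferInstance, ?_⟩
  have : (Algebra.ofId A W).range = ⊥ := by
    rw [eq_bot_iff]
    rintro _ ⟨a, rfl⟩
    exact Subalgebra.algebraMap_mem _ a
  rw [← this]
  exact Algebra.FormallyUnramified.of_surjective (Algebra.ofId A W).rangeRestrict
    (Algebra.ofId A W).rangeRestrict_surjective

variable (A W) in
/-- The union of all finite unramified subalgebras. -/
def Ahat : Subalgebra A W where
  carrier := {g | ∃ B : Subalgebra A W, FU A W B ∧ g ∈ B}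
  mul_mem' := by
    rintro a b ⟨B, hB, ha⟩ ⟨C, hC, hb⟩
    exact ⟨B ⊔ C, hB.sup hC, (B ⊔ C).mul_mem ((le_sup_left : B ≤ B ⊔ C) ha) ((le_sup_right : C ≤ B ⊔ C) hb)⟩
  add_mem' := by
    rintro a b ⟨B, hB, ha⟩ ⟨C, hC, hb⟩
    exact ⟨B ⊔ C, hB.sup hC, (B ⊔ C).add_mem ((le_sup_left : B ≤ B ⊔ C) ha) ((le_sup_right : C ≤ B ⊔ C) hb)⟩
  algebraMap_mem' a := ⟨⊥, FU.bot, Subalgebra.algebraMap_mem _ a⟩

omit [IsDomain W] in
theorem FU.le_Ahat {B : Subalgebra A W} (hB : FU A W B) : B ≤ Ahat A W := fun _ hb => ⟨B, hB, hb⟩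

instance : Algebra.IsIntegral A (Ahat A W) := by
  constructor
  rintro ⟨x, B, hB, hx⟩
  have := hB.finite
  have h1 : IsIntegral A (⟨x, hx⟩ : B) := Algebra.IsIntegral.isIntegral _
  have h2 : IsIntegral A x := h1.map B.val
  rw [← isIntegral_algHom_iff (Ahat A W).val Subtype.val_injective]
  exact h2

omit [IsDomain W] in
/-- A point of a cover with values in `W` factors through `Ahat`. -/
theorem Fib.mem_Ahat {c : Cov A} (φ : Fib (algebraMap A W) c) (b : c.B) : φ.1 b ∈ Ahat A W := by
  let := c.s.toAlgebra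
  have h1 : Module.Finite A c.B := c.finite
  have h2 : Algebra.Etale A c.B := c.etale
  let φ' : c.B →ₐ[A] W := { φ.1 with commutes' := fun a => RingHom.congr_fun φ.2 a }
  refine ⟨φ'.range, ⟨Module.Finite.of_surjective φ'.rangeRestrict.toLinearMap
    φ'.rangeRestrict_surjective, ?_⟩, ⟨b, rfl⟩⟩
  exact Algebra.FormallyUnramified.of_surjective φ'.rangeRestrict φ'.rangeRestrict_surjective

/-- A point of a cover with values in `W`, as a homomorphism to `Ahat`. -/
def Fib.toAhat {c : Cov A} (φ : Fib (algebraMap A W) c) : c.B →+* Ahat A W :=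
  φ.1.codRestrict (Ahat A W).toSubring (fun b => φ.mem_Ahat b)

omit [IsDomain W] in
theorem Fib.toAhat_comp {c : Cov A} (φ : Fib (algebraMap A W) c) :
    φ.toAhat.comp c.s = algebraMap A (Ahat A W) := by
  ext a
  exact RingHom.congr_fun φ.2 a

section etale

variable [IsDomain A] [IsPrincipalIdealRing A] [FaithfulSMul A W]

theorem FU.free {B : Subalgebra A W} (hB : FU A W B) : Module.Free A B := by
  have := hB.finite
  infer_instance

theorem FU.etale {B : Subalgebra A W} (hB : FU A W B) : Algebra.Etale A B := by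
  have := hB.finite
  have := hB.unram
  have := hB.free
  have : Algebra.FinitePresentation A B := Algebra.FinitePresentation.of_finiteType.mp inferInstance
  exact Algebra.Etale.of_formallyUnramified_of_flat

/-- The cover defined by a finite unramified subalgebra. -/
def FU.cov {B : Subalgebra A W} (hB : FU A W B) : Cov A where
  B := B
  s := algebraMap A B
  finite := RingHom.finite_algebraMap.mpr hB.finite
  etale := RingHom.etale_algebraMap.mpr hB.etale

end etale

end

section points

variable {A : Type} [CommRing A]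

/-- Push a point of a cover along a homomorphism of the rings of values. -/
def Fib.push {Ω Ω' : Type*} [CommRing Ω] [CommRing Ω'] {x : A →+* Ω} {y : A →+* Ω'} (g : Ω →+* Ω')
    (hg : g.comp x = y) {c : Cov A} (φ : Fib x c) : Fib y c :=
  ⟨g.comp φ.1, by rw [RingHom.comp_assoc, φ.2, hg]⟩

theorem Fib.push_injective {Ω Ω' : Type*} [CommRing Ω] [IsDomain Ω] [CommRing Ω'] [Nontrivial Ω']
    {x : A →+* Ω} {y : A →+* Ω'} (g : Ω →+* Ω') (hg : g.comp x = y) (c : Cov A) :
    Function.Injective (Fib.push g hg : Fib x c → Fib y c) := by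
  intro φ ψ h
  let := c.s.toAlgebra
  let := x.toAlgebra
  have h2 : Algebra.Etale A c.B := c.etale
  let φ' : c.B →ₐ[A] Ω := { φ.1 with commutes' := fun a => RingHom.congr_fun φ.2 a }
  let ψ' : c.B →ₐ[A] Ω := { ψ.1 with commutes' := fun a => RingHom.congr_fun ψ.2 a }
  have h3 : φ' = ψ' := by
    apply algHom_ext_of_point φ' ψ' g
    intro b
    exact RingHom.congr_fun (congrArg Subtype.val h) b
  apply Subtype.ext
  ext b
  exact congrArg (fun f : c.B →ₐ[A] Ω => f b) h3

/-- The rank of a cover. -/
def Cov.rank (c : Cov A) : ℕ := @Module.finrank A c.B _ _ c.s.toAlgebra.toModule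

theorem card_fib [IsDomain A] [IsPrincipalIdealRing A] (c : Cov A) {Ω : Type} [Field Ω] [IsAlgClosed Ω]
    (x : A →+* Ω) : Finite (Fib x c) ∧ Nat.card (Fib x c) = c.rank := by
  let := c.s.toAlgebra
  let := x.toAlgebra
  have h1 : Module.Finite A c.B := c.finite
  have h2 : Algebra.Etale A c.B := c.etale
  let E : Fib x c ≃ (c.B →ₐ[A] Ω) :=
    { toFun := fun φ => { φ.1 with commutes' := fun a => RingHom.congr_fun φ.2 a }
      invFun := fun φ => ⟨φ.toRingHom, RingHom.ext fun a => φ.commutes a⟩
      left_inv := fun φ => rfl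
      right_inv := fun φ => rfl }
  have := card_algHom (A := A) (B := c.B) (Ω := Ω)
  exact ⟨have := this.1; Finite.of_equiv _ E.symm, (Nat.card_congr E).trans this.2⟩

variable {W κ : Type} [CommRing W] [IsDomain W] [Algebra A W] [Field κ]

/-- Points of a cover lift uniquely to a complete ring. -/
theorem Fib.push_bijective_of_complete (ε : W →+* κ) (hε : Function.Surjective ε)
    [IsAdicComplete (RingHom.ker ε) W] {x : A →+* κ} (hx : ε.comp (algebraMap A W) = x) (c : Cov A) :
    Function.Bijective (Fib.push ε hx : Fib (algebraMap A W) c → Fib x c) := by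
  refine ⟨Fib.push_injective ε hx c, fun h => ?_⟩
  let := c.s.toAlgebra
  have h2 : Algebra.Etale A c.B := c.etale
  let E := RingHom.quotientKerEquivOfSurjective hε
  let f : c.B →ₐ[A] W ⧸ RingHom.ker ε :=
    { (E.symm : κ →+* W ⧸ RingHom.ker ε).comp h.1 with
      commutes' := fun a => by
        change E.symm (h.1 (c.s a)) = Ideal.Quotient.mk _ (algebraMap A W a)
        rw [RingEquiv.symm_apply_eq]
        have e1 := RingHom.congr_fun h.2 a
        rw [RingHom.comp_apply] at e1
        rw [e1, ← hx]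
        rfl }
  obtain ⟨g, hg⟩ := Algebra.FormallySmooth.exists_mkₐ_comp_eq_of_isAdicComplete f
  refine ⟨⟨g.toRingHom, RingHom.ext fun a => g.commutes a⟩, ?_⟩
  apply Subtype.ext
  ext b
  have e2 := congrArg (fun F : c.B →ₐ[A] W ⧸ RingHom.ker ε => E (F b)) hg
  change E (Ideal.Quotient.mk _ (g b)) = E (E.symm (h.1 b)) at e2
  rw [RingEquiv.apply_symm_apply] at e2
  exact e2

variable [IsDomain A] [IsPrincipalIdealRing A] [IsAlgClosed κ]

/-- Evaluation at a point of `Ahat` with values in an algebraically closed field. -/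
def Fib.eval {Ω : Type} [Field Ω] {y : A →+* Ω} (h : Ahat A W →+* Ω)
    (hy : h.comp (algebraMap A (Ahat A W)) = y) {c : Cov A} (φ : Fib (algebraMap A W) c) : Fib y c :=
  ⟨h.comp φ.toAhat, by rw [RingHom.comp_assoc, φ.toAhat_comp, hy]⟩

theorem Fib.eval_bijective (ε : W →+* κ) (hε : Function.Surjective ε)
    [IsAdicComplete (RingHom.ker ε) W] {Ω : Type} [Field Ω] [IsAlgClosed Ω] {y : A →+* Ω}
    (h : Ahat A W →+* Ω) (hy : h.comp (algebraMap A (Ahat A W)) = y) (c : Cov A) :
    Function.Bijective (Fib.eval h hy : Fib (algebraMap A W) c → Fib y c) := by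
  have hinj : Function.Injective (Fib.eval h hy : Fib (algebraMap A W) c → Fib y c) := by
    intro φ ψ hφψ
    have h1 := Fib.push_injective (x := algebraMap A (Ahat A W)) h hy c
    have h2 : (⟨φ.toAhat, φ.toAhat_comp⟩ : Fib (algebraMap A (Ahat A W)) c) =
        ⟨ψ.toAhat, ψ.toAhat_comp⟩ := h1 hφψ
    apply Subtype.ext
    ext b
    have h3 := congrArg (fun F : Fib (algebraMap A (Ahat A W)) c => ((F.1 b : Ahat A W) : W)) h2
    exact h3
  obtain ⟨f1, c1⟩ := card_fib c (ε.comp (algebraMap A W))
  obtain ⟨f2, c2⟩ := card_fib c y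
  have e := Equiv.ofBijective _ (Fib.push_bijective_of_complete ε hε (x := ε.comp (algebraMap A W)) rfl c)
  have f0 : Finite (Fib (algebraMap A W) c) := Finite.of_equiv _ e.symm
  have c0 : Nat.card (Fib (algebraMap A W) c) = c.rank := (Nat.card_congr e).trans c1
  refine (Nat.bijective_iff_injective_and_card _).mpr ⟨hinj, by rw [c0, c2]⟩

/-- The étale path from the base point to the point `y`, defined by an extension `h` of `y` to
the universal cover. -/
def pathOf (ε : W →+* κ) (hε : Function.Surjective ε) [IsAdicComplete (RingHom.ker ε) W]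
    {x : A →+* κ} (hx : ε.comp (algebraMap A W) = x)
    {Ω : Type} [Field Ω] [IsAlgClosed Ω] {y : A →+* Ω}
    (h : Ahat A W →+* Ω) (hy : h.comp (algebraMap A (Ahat A W)) = y) : Path x y :=
  Path.ofNatural (fun c => (Equiv.ofBijective _ (Fib.push_bijective_of_complete ε hε hx c)).symm.trans
    (Equiv.ofBijective _ (Fib.eval_bijective ε hε h hy c))) (by
    intro c d φ hφ k
    obtain ⟨χ, rfl⟩ := (Fib.push_bijective_of_complete ε hε hx d).2 k
    have e1 : Fib.map φ hφ (Fib.push ε hx χ) = Fib.push ε hx (Fib.map φ hφ χ) := rfl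
    rw [e1, Equiv.trans_apply, Equiv.trans_apply]
    have e2 : ∀ (c : Cov A) (χ : Fib (algebraMap A W) c),
        (Equiv.ofBijective _ (Fib.push_bijective_of_complete ε hε hx c)).symm (Fib.push ε hx χ) = χ := by
      intro c χ
      rw [Equiv.symm_apply_eq]
      rfl
    rw [e2, e2]
    rfl)

theorem pathOf_map (ε : W →+* κ) (hε : Function.Surjective ε) [IsAdicComplete (RingHom.ker ε) W]
    {x : A →+* κ} (hx : ε.comp (algebraMap A W) = x)
    {Ω : Type} [Field Ω] [IsAlgClosed Ω] {y : A →+* Ω}
    (h : Ahat A W →+* Ω) (hy : h.comp (algebraMap A (Ahat A W)) = y) (c : Cov A)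
    (χ : Fib (algebraMap A W) c) :
    (pathOf ε hε hx h hy).map c (Fib.push ε hx χ) = Fib.eval h hy χ := by
  change (Equiv.ofBijective _ (Fib.eval_bijective ε hε h hy c))
    ((Equiv.ofBijective _ (Fib.push_bijective_of_complete ε hε hx c)).symm (Fib.push ε hx χ)) = _
  have e2 : (Equiv.ofBijective _ (Fib.push_bijective_of_complete ε hε hx c)).symm (Fib.push ε hx χ) = χ := by
    rw [Equiv.symm_apply_eq]
    rfl
  rw [e2]
  rfl

end points

end Pool.Agent.H83.Kim
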