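import Pool.Agent.H83.Kim.Curve
import Pool.Agent.H83.Kim.UnivCover

/-! Power series expansions at the base point. -/

open Polynomial PowerSeries

noncomputable section

namespace Pool.Agent.H83.Kim

theorem isPrincipalIdealRing_localization {R S : Type*} [CommRing R] [CommRing S] [Algebra R S]
    (M : Submonoid R) [IsLocalization M S] [IsPrincipalIdealRing R] : IsPrincipalIdealRing S := by
  constructor
  intro I
  rw [← IsLocalization.map_under M S I]
  obtain ⟨a, ha⟩ := (IsPrincipalIdealRing.principal (Ideal.under R I)).principal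
  rw [ha]
  refine ⟨algebraMap R S a, ?_⟩
  change Ideal.map (algebraMap R S) (Ideal.span {a}) = Ideal.span {algebraMap R S a}
  rw [Ideal.map_span, Set.image_singleton]

section

variable (f : ℤ[X]) (hf : aeval (0 : Qbar) f ≠ 0)

include hf

theorem eval_zero_ne : (f.map (Int.castRingHom Qbar)).coeff 0 ≠ 0 := by
  rw [Polynomial.coeff_zero_eq_eval_zero, Polynomial.eval_map]
  exact hf

theorem fmap_ne_zero : f.map (Int.castRingHom Qbar) ≠ 0 := by
  intro h
  apply eval_zero_ne f hf
  rw [h, Polynomial.coeff_zero]

theorem powers_le : Submonoid.powers (f.map (Int.castRingHom Qbar)) ≤ nonZeroDivisors Qbar[X] := by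
  rw [Submonoid.powers_le, mem_nonZeroDivisors_iff_ne_zero]
  exact fmap_ne_zero f hf

theorem OX_isDomain : IsDomain (OX f) :=
  IsLocalization.isDomain_localization (powers_le f hf)

omit hf in
theorem OX_isPID : IsPrincipalIdealRing (OX f) :=
  isPrincipalIdealRing_localization (Submonoid.powers (f.map (Int.castRingHom Qbar)))

/-- The expansion at the base point. -/
def expand : OX f →+* Qbar⟦X⟧ :=
  IsLocalization.Away.lift (f.map (Int.castRingHom Qbar)) (g := Polynomial.coeToPowerSeries.ringHom)
    (by
      rw [PowerSeries.isUnit_iff_constantCoeff]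
      rw [Polynomial.coeToPowerSeries.ringHom_apply, Polynomial.constantCoeff_coe]
      exact isUnit_iff_ne_zero.mpr (eval_zero_ne f hf))

theorem expand_algebraMap (P : Qbar[X]) : expand f hf (algebraMap _ (OX f) P) = (P : Qbar⟦X⟧) := by
  rw [expand, IsLocalization.Away.lift_eq]
  rfl

theorem expand_injective : Function.Injective (expand f hf) := by
  rw [injective_iff_map_eq_zero]
  intro a ha
  obtain ⟨⟨P, s⟩, hPs⟩ := IsLocalization.surj (Submonoid.powers (f.map (Int.castRingHom Qbar))) a
  have h1 := congrArg (expand f hf) hPs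
  rw [map_mul, ha, zero_mul, expand_algebraMap] at h1
  have h2 : P = 0 := by
    rw [← Polynomial.coe_eq_zero_iff]
    exact h1.symm
  simp only [h2, map_zero] at hPs
  exact (IsUnit.mul_left_eq_zero (IsLocalization.map_units (OX f) s)).mp hPs

theorem constantCoeff_expand :
    (PowerSeries.constantCoeff (R := Qbar)).comp (expand f hf) = basePt f hf := by
  apply OX_hom_ext
  intro P
  rw [RingHom.comp_apply, expand_algebraMap, basePt, pt_algebraMap, Polynomial.constantCoeff_coe,
    Polynomial.coeff_zero_eq_eval_zero]
  rfl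

end

/-- The action of an automorphism on power series through the coefficients. -/
def hat {K : Type*} [CommRing K] (σ : K ≃+* K) : K⟦X⟧ ≃+* K⟦X⟧ where
  toFun := PowerSeries.map (σ : K →+* K)
  invFun := PowerSeries.map (σ.symm : K →+* K)
  left_inv g := by ext n; simp
  right_inv g := by ext n; simp
  map_mul' := map_mul _
  map_add' := map_add _

theorem hat_apply {K : Type*} [CommRing K] (σ : K ≃+* K) (g : K⟦X⟧) :
    hat σ g = PowerSeries.map (σ : K →+* K) g := rfl

theorem coeff_hat {K : Type*} [CommRing K] (σ : K ≃+* K) (g : K⟦X⟧) (n : ℕ) :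
    PowerSeries.coeff n (hat σ g) = σ (PowerSeries.coeff n g) := by
  rw [hat_apply, PowerSeries.coeff_map]
  rfl

theorem hat_expand (f : ℤ[X]) (hf : aeval (0 : Qbar) f ≠ 0) (σ : GalQ) (a : OX f) :
    hat σ.toRingEquiv (expand f hf a) = expand f hf (coeffAct f σ a) := by
  have h : (PowerSeries.map (σ.toRingEquiv : Qbar →+* Qbar)).comp (expand f hf) =
      (expand f hf).comp (coeffAct f σ : OX f →+* OX f) := by
    apply OX_hom_ext
    intro P
    rw [RingHom.comp_apply, RingHom.comp_apply, expand_algebraMap]
    change _ = expand f hf (coeffAct f σ (algebraMap _ (OX f) P))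
    rw [coeffAct_algebraMap, expand_algebraMap, Polynomial.polynomial_map_coe]
  exact RingHom.congr_fun h a

instance isAdicComplete_ker_constantCoeff {K : Type*} [Field K] :
    IsAdicComplete (RingHom.ker (PowerSeries.constantCoeff (R := K))) K⟦X⟧ := by
  have : RingHom.ker (PowerSeries.constantCoeff (R := K)) = Ideal.span {PowerSeries.X} := by
    ext g
    rw [RingHom.mem_ker, Ideal.mem_span_singleton, PowerSeries.X_dvd_iff]
  rw [this]
  infer_instance


end Pool.Agent.H83.Kim
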