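import Pool.Agent.H83.Kim.PathLemmas

/-! Fibres of finite étale covers: cardinality and rigidity. -/

open scoped TensorProduct

noncomputable section

namespace Pool.Agent.H83.Kim

universe u

/-- The number of points of a finite étale algebra of rank `d` in an algebraically closed field
is `d`. -/
theorem card_algHom {A : Type u} {B : Type u} {Ω : Type u} [CommRing A] [CommRing B] [Algebra A B] [Field Ω]
    [IsAlgClosed Ω] [Algebra A Ω] [Algebra.Etale A B] [Module.Finite A B] [Module.Free A B]
    [Nontrivial A] :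
    Finite (B →ₐ[A] Ω) ∧ Nat.card (B →ₐ[A] Ω) = Module.finrank A B := by
  have e1 : (B →ₐ[A] Ω) ≃ (Ω ⊗[A] B →ₐ[Ω] Ω) := Algebra.TensorProduct.liftEquivRight _ _ _ _
  have e2 : (Ω ⊗[A] B →ₐ[Ω] Ω) ≃ PrimeSpectrum (Ω ⊗[A] B) :=
    Algebra.IsFiniteSplit.algHomEquivPrimeSpectrum Ω (Ω ⊗[A] B)
  have e3 := Algebra.FormallyEtale.equivPiOfIsSepClosed Ω (Ω ⊗[A] B)
  have : IsArtinianRing (Ω ⊗[A] B) := isArtinian_of_tower Ω inferInstance
  have hfin : Finite (PrimeSpectrum (Ω ⊗[A] B)) := inferInstance
  have := Fintype.ofFinite (PrimeSpectrum (Ω ⊗[A] B))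
  refine ⟨Finite.of_equiv _ (e1.trans e2).symm, ?_⟩
  rw [Nat.card_congr (e1.trans e2)]
  have h1 := e3.toLinearEquiv.finrank_eq
  rw [Module.finrank_baseChange, Module.finrank_fintype_fun_eq_card] at h1
  rw [h1, Nat.card_eq_fintype_card]

/-- Rigidity: two homomorphisms from an unramified algebra to a domain that agree at one point
are equal. -/
theorem algHom_ext_of_point {A B D Ω : Type*} [CommRing A] [CommRing B] [Algebra A B]
    [Algebra.FormallyUnramified A B] [Algebra.EssFiniteType A B] [CommRing D] [IsDomain D] [Algebra A D]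
    [CommRing Ω] [Nontrivial Ω] (φ ψ : B →ₐ[A] D) (g : D →+* Ω) (h : ∀ b, g (φ b) = g (ψ b)) :
    φ = ψ := by
  set e := Algebra.FormallyUnramified.elem A B
  set Φ := Algebra.TensorProduct.lift φ ψ (fun _ _ => Commute.all _ _) with hΦ
  have h1 : ∀ b : B, (ψ b - φ b) * Φ e = 0 := by
    intro b
    have := congrArg Φ (Algebra.FormallyUnramified.one_tmul_sub_tmul_one_mul_elem (R := A) b)
    rw [map_mul, map_sub, map_zero] at this
    simpa [hΦ] using this
  have h2 : g (Φ e) = 1 := by
    have h3 : ∀ x : B ⊗[A] B, g (Φ x) = g (φ (Algebra.TensorProduct.lmul' A x)) := by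
      intro x
      induction x using TensorProduct.induction_on with
      | zero => simp
      | add x y hx hy => simp only [map_add, hx, hy]
      | tmul a b =>
        simp only [hΦ, Algebra.TensorProduct.lift_tmul, Algebra.TensorProduct.lmul'_apply_tmul, map_mul]
        rw [h b]
    rw [h3, Algebra.FormallyUnramified.lmul_elem, map_one, map_one]
  have h4 : Φ e ≠ 0 := by
    intro h0
    rw [h0, map_zero] at h2
    exact zero_ne_one h2
  ext b
  have := (mul_eq_zero.mp (h1 b)).resolve_right h4
  exact (sub_eq_zero.mp this).symm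

/-- Separability elements: for an unramified algebra `B` and a domain `D`, there are finitely many
`x_j, y_j` in `B` such that `∑ φ(x_j) ψ(y_j)` is `1` if `φ = ψ` and `0` otherwise, for all
homomorphisms `φ, ψ` from `B` to `D`. -/
theorem exists_sepElements (A B : Type*) [CommRing A] [CommRing B] [Algebra A B]
    [Algebra.FormallyUnramified A B] [Algebra.EssFiniteType A B] :
    ∃ (n : ℕ) (x y : Fin n → B), ∀ (D : Type*) [CommRing D] [IsDomain D] [Algebra A D]
      (φ ψ : B →ₐ[A] D), (φ = ψ → ∑ j, φ (x j) * ψ (y j) = 1) ∧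
        (φ ≠ ψ → ∑ j, φ (x j) * ψ (y j) = 0) := by
  obtain ⟨S, hS⟩ := TensorProduct.exists_finset (Algebra.FormallyUnramified.elem A B)
  let E := S.equivFin
  refine ⟨S.card, fun j => (E.symm j).1.1, fun j => (E.symm j).1.2, ?_⟩
  intro D _ _ _ φ ψ
  set e := Algebra.FormallyUnramified.elem A B
  set Φ := Algebra.TensorProduct.lift φ ψ (fun _ _ => Commute.all _ _) with hΦ
  have hsum : ∑ j, φ ((E.symm j).1.1) * ψ ((E.symm j).1.2) = Φ e := by
    rw [hS, map_sum, ← Finset.sum_coe_sort S]
    rw [← Equiv.sum_comp E.symm (fun i : S => Φ (i.1.1 ⊗ₜ[A] i.1.2))]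
    refine Finset.sum_congr rfl fun j _ => ?_
    simp [hΦ]
  rw [hsum]
  have h1 : ∀ b : B, (ψ b - φ b) * Φ e = 0 := by
    intro b
    have := congrArg Φ (Algebra.FormallyUnramified.one_tmul_sub_tmul_one_mul_elem (R := A) b)
    rw [map_mul, map_sub, map_zero] at this
    simpa [hΦ] using this
  constructor
  · rintro rfl
    have h3 : ∀ x : B ⊗[A] B, Φ x = φ (Algebra.TensorProduct.lmul' A x) := by
      intro x
      induction x using TensorProduct.induction_on with
      | zero => simp
      | add x y hx hy => simp only [map_add, hx, hy]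
      | tmul a b =>
        simp only [hΦ, Algebra.TensorProduct.lift_tmul, Algebra.TensorProduct.lmul'_apply_tmul, map_mul]
    rw [h3, Algebra.FormallyUnramified.lmul_elem, map_one]
  · intro hne
    by_contra h0
    apply hne
    ext b
    have := (mul_eq_zero.mp (h1 b)).resolve_right h0
    exact (sub_eq_zero.mp this).symm

end Pool.Agent.H83.Kim
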