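import Mathlib

/-! Elements fixed by all embeddings. -/

noncomputable section

namespace Pool.Agent.H83.Kim

theorem mem_range_of_fixed {A B E : Type*} [CommRing A] [IsDomain A] [IsPrincipalIdealRing A]
    [CommRing B] [IsDomain B] [Algebra A B] [Algebra ℚ A] [FaithfulSMul A B] [Module.Finite A B]
    [Field E] [IsAlgClosed E] (j : B →+* E) (hj : Function.Injective j) (b : B)
    (hb : ∀ φ : B →+* E, (∀ a : A, φ (algebraMap A B a) = j (algebraMap A B a)) → φ b = j b) :
    ∃ a : A, algebraMap A B a = b := by
  let : Algebra B E := j.toAlgebra
  let : Algebra A E := (j.comp (algebraMap A B)).toAlgebra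
  have : IsScalarTower A B E := IsScalarTower.of_algebraMap_eq fun _ => rfl
  have hA : Function.Injective (algebraMap A E) :=
    hj.comp (FaithfulSMul.algebraMap_injective A B)
  have : FaithfulSMul A E := (faithfulSMul_iff_algebraMap_injective A E).mpr hA
  let : Algebra (FractionRing A) (FractionRing B) := FractionRing.liftAlgebra A (FractionRing B)
  let : Algebra (FractionRing A) E := FractionRing.liftAlgebra A E
  have hfin : Module.Finite (FractionRing A) (FractionRing B) :=
    Module.Finite.of_isLocalization A B (nonZeroDivisors A)
  have hchar : CharZero (FractionRing A) := by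
    let : Algebra ℚ (FractionRing A) := ((algebraMap A (FractionRing A)).comp (algebraMap ℚ A)).toAlgebra
    exact algebraRat.charZero _
  have h1 := trace_eq_sum_embeddings (K := FractionRing A) (L := FractionRing B) E
    (x := algebraMap B (FractionRing B) b)
  have h2 : ∀ σ : FractionRing B →ₐ[FractionRing A] E,
      σ (algebraMap B (FractionRing B) b) = algebraMap B E b := by
    intro σ
    apply hb (σ.toRingHom.comp (algebraMap B (FractionRing B)))
    intro a
    change σ (algebraMap B (FractionRing B) (algebraMap A B a)) = algebraMap A E a
    rw [← IsScalarTower.algebraMap_apply A B (FractionRing B),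
      IsScalarTower.algebraMap_apply A (FractionRing A) (FractionRing B), σ.commutes,
      ← IsScalarTower.algebraMap_apply A (FractionRing A) E]
  rw [Finset.sum_congr rfl fun σ _ => h2 σ, Finset.sum_const, Finset.card_univ,
    AlgHom.card (FractionRing A) (FractionRing B) E] at h1
  set r := Module.finrank (FractionRing A) (FractionRing B) with hr
  have hrpos : 0 < r := Module.finrank_pos
  set q : FractionRing A := (Algebra.trace (FractionRing A) (FractionRing B)
    (algebraMap B (FractionRing B) b)) / r with hq
  have hE : CharZero E := by
    let : Algebra ℚ E := ((algebraMap A E).comp (algebraMap ℚ A)).toAlgebra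
    exact algebraRat.charZero _
  have h3 : algebraMap (FractionRing A) E q = algebraMap B E b := by
    rw [hq, map_div₀, h1, map_natCast, nsmul_eq_mul, mul_div_cancel_left₀]
    exact_mod_cast hrpos.ne'
  have h4 : IsIntegral A q := by
    rw [← isIntegral_algHom_iff (IsScalarTower.toAlgHom A (FractionRing A) E)
      (algebraMap (FractionRing A) E).injective]
    change IsIntegral A (algebraMap (FractionRing A) E q)
    rw [h3]
    exact (Algebra.IsIntegral.isIntegral (R := A) b).map (IsScalarTower.toAlgHom A B E)
  obtain ⟨a, ha⟩ := IsIntegrallyClosed.isIntegral_iff.mp h4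
  refine ⟨a, hj ?_⟩
  change algebraMap B E (algebraMap A B a) = algebraMap B E b
  rw [← IsScalarTower.algebraMap_apply A B E, IsScalarTower.algebraMap_apply A (FractionRing A) E,
    ha, h3]

end Pool.Agent.H83.Kim
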