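import Pool.Agent.H83.Kim.Psi
import Pool.Agent.H83.Kim.Invar

/-! Finite levels of the universal cover. -/

noncomputable section

namespace Pool.Agent.H83.Kim

section

variable {A : Type} [CommRing A] {Ω : Type*} [CommRing Ω]

theorem exists_finset_of_isOpen {x : A →+* Ω} {V : Set (Path x x)} (hV : IsOpen V)
    (h1 : (1 : Path x x) ∈ V) : ∃ s : Finset (Σ c : Cov A, Fib x c), ∀ g : Path x x,
      (∀ q ∈ s, g.map q.1 q.2 = q.2) → g ∈ V := by
  classical
  have key : ∀ (V : Set (Path x x)) (_ : TopologicalSpace.GenerateOpen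
      {V | ∃ (c : Cov A) (a b : Fib x c), V = Path.sending c a b} V) (g₀ : Path x x), g₀ ∈ V →
      ∃ s : Finset (Σ c : Cov A, Fib x c), ∀ g : Path x x,
        (∀ q ∈ s, g.map q.1 q.2 = g₀.map q.1 q.2) → g ∈ V := by
    intro V hV
    induction hV with
    | basic V hV =>
      obtain ⟨c, a, b, rfl⟩ := hV
      intro g₀ h0
      refine ⟨{⟨c, a⟩}, fun g hg => ?_⟩
      exact (hg ⟨c, a⟩ (Finset.mem_singleton_self _)).trans h0
    | univ => exact fun _ _ => ⟨∅, fun _ _ => trivial⟩
    | inter V W _ _ hV hW =>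
      rintro g₀ ⟨h1, h2⟩
      obtain ⟨s, hs⟩ := hV g₀ h1
      obtain ⟨t, ht⟩ := hW g₀ h2
      exact ⟨s ∪ t, fun g hg => ⟨hs g fun q hq => hg q (Finset.mem_union_left _ hq),
        ht g fun q hq => hg q (Finset.mem_union_right _ hq)⟩⟩
    | sUnion S _ hS =>
      rintro g₀ ⟨V, hV, h1⟩
      obtain ⟨s, hs⟩ := hS V hV g₀ h1
      exact ⟨s, fun g hg => ⟨V, hV, hs g hg⟩⟩
  exact key V hV 1 h1

end

section

variable {A W : Type} [CommRing A] [CommRing W] [Algebra A W]

/-- The image of a point of a cover. -/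
def Fib.range {c : Cov A} (χ : Fib (algebraMap A W) c) : Subalgebra A W :=
  let := c.s.toAlgebra
  ({ χ.1 with commutes' := fun a => RingHom.congr_fun χ.2 a } : c.B →ₐ[A] W).range

theorem Fib.mem_range {c : Cov A} (χ : Fib (algebraMap A W) c) {w : W} :
    w ∈ χ.range ↔ ∃ b, χ.1 b = w := Iff.rfl

theorem Fib.range_FU {c : Cov A} (χ : Fib (algebraMap A W) c) : FU A W χ.range := by
  let := c.s.toAlgebra
  have h1 : Module.Finite A c.B := c.finite
  have h2 : Algebra.Etale A c.B := c.etale
  let φ' : c.B →ₐ[A] W := { χ.1 with commutes' := fun a => RingHom.congr_fun χ.2 a }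
  exact ⟨Module.Finite.of_surjective φ'.rangeRestrict.toLinearMap
    φ'.rangeRestrict_surjective, Algebra.FormallyUnramified.of_surjective φ'.rangeRestrict
      φ'.rangeRestrict_surjective⟩

theorem FU.finset_sup {ι : Type*} (s : Finset ι) (B : ι → Subalgebra A W)
    (hB : ∀ i ∈ s, FU A W (B i)) : FU A W (s.sup B) := by
  classical
  induction s using Finset.induction_on with
  | empty => exact FU.bot
  | insert i s hi ih =>
    rw [Finset.sup_insert]
    exact (hB i (Finset.mem_insert_self _ _)).sup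
      (ih fun j hj => hB j (Finset.mem_insert_of_mem hj))

variable [IsDomain W] {κ : Type} [Field κ] [IsAlgClosed κ] [IsDomain A] [IsPrincipalIdealRing A]
variable (ε : W →+* κ) (hε : Function.Surjective ε) [IsAdicComplete (RingHom.ker ε) W]
    {x : A →+* κ} (hx : ε.comp (algebraMap A W) = x)

include hε

theorem card_fib_W (c : Cov A) : Finite (Fib (algebraMap A W) c) ∧
    Nat.card (Fib (algebraMap A W) c) = c.rank := by
  obtain ⟨f1, c1⟩ := card_fib c (ε.comp (algebraMap A W))
  have e := Equiv.ofBijective _ (Fib.push_bijective_of_complete ε hε (x := ε.comp (algebraMap A W)) rfl c)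
  exact ⟨Finite.of_equiv _ e.symm, (Nat.card_congr e).trans c1⟩

theorem push_bijective_W {E : Type} [Field E] [IsAlgClosed E] (j : W →+* E) (c : Cov A) :
    Function.Bijective (Fib.push j rfl : Fib (algebraMap A W) c → Fib (j.comp (algebraMap A W)) c) := by
  obtain ⟨f1, c1⟩ := card_fib_W ε hε c
  obtain ⟨f2, c2⟩ := card_fib c (j.comp (algebraMap A W))
  exact (Nat.bijective_iff_injective_and_card _).mpr ⟨Fib.push_injective j rfl c, by rw [c1, c2]⟩

/-- The subalgebra generated by all points of a cover. -/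
theorem exists_covSpan (c : Cov A) : ∃ B : Subalgebra A W, FU A W B ∧
    (∀ χ : Fib (algebraMap A W) c, χ.range ≤ B) ∧
    ∀ T : Subalgebra A W, (∀ χ : Fib (algebraMap A W) c, χ.range ≤ T) → B ≤ T := by
  have := (card_fib_W ε hε c).1
  have := Fintype.ofFinite (Fib (algebraMap A W) c)
  refine ⟨Finset.univ.sup fun χ => χ.range, FU.finset_sup _ _ fun χ _ => χ.range_FU,
    fun χ => Finset.le_sup (f := fun χ : Fib (algebraMap A W) c => χ.range) (Finset.mem_univ χ),
    fun T hT => Finset.sup_le fun χ _ => hT χ⟩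

variable [FaithfulSMul A W]

/-- There is a finite unramified subalgebra which contains all points of finitely many covers and
which is stable under the fundamental group. -/
theorem exists_stable (s : Finset (Cov A)) : ∃ B : Subalgebra A W, FU A W B ∧
    (∀ c ∈ s, ∀ χ : Fib (algebraMap A W) c, χ.range ≤ B) ∧
    ∀ (g : Path x x) (b : Ahat A W), b.1 ∈ B → (psi ε hε hx g b : W) ∈ B := by
  classical
  choose C hC1 hC2 hC3 using exists_covSpan (A := A) (W := W) ε hε
  refine ⟨s.sup C, FU.finset_sup _ _ fun c _ => hC1 c,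
    fun c hc χ => (hC2 c χ).trans (Finset.le_sup hc), ?_⟩
  intro g
  let T : Subalgebra A W := ((s.sup C).comap ((Ahat A W).val.comp (psi ε hε hx g))).map (Ahat A W).val
  have hT : s.sup C ≤ T := by
    apply Finset.sup_le
    intro c hc
    apply hC3
    rintro χ _ ⟨b', rfl⟩
    refine ⟨χ.toAhat b', ?_, rfl⟩
    change (psi ε hε hx g (χ.toAhat b') : W) ∈ s.sup C
    rw [psi_toAhat]
    exact (Finset.le_sup hc : C c ≤ s.sup C) (hC2 c (gact ε hε hx g c χ) ⟨b', rfl⟩)
  intro b hb
  obtain ⟨b', hb', hbb'⟩ := hT hb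
  have : b' = b := Subtype.ext hbb'
  rw [← this]
  exact hb'

end

end Pool.Agent.H83.Kim
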