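import Pool.Agent.H83.Kim.Expand
import Pool.Agent.H83.Kim.ActPath
import Pool.Agent.H83.Kim.Extend

/-! The class of a rational point. -/

open Polynomial PowerSeries

noncomputable section

namespace Pool.Agent.H83.Kim

section inst

variable (f : ℤ[X]) [hf : Fact (aeval (0 : Qbar) f ≠ 0)]

instance instAlgExpand : Algebra (OX f) Qbar⟦X⟧ := (expand f hf.out).toAlgebra

instance : IsDomain (OX f) := OX_isDomain f hf.out

omit hf in
instance : IsPrincipalIdealRing (OX f) := OX_isPID f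

instance : FaithfulSMul (OX f) Qbar⟦X⟧ :=
  (faithfulSMul_iff_algebraMap_injective _ _).mpr (expand_injective f hf.out)

theorem eps_surjective : Function.Surjective (PowerSeries.constantCoeff (R := Qbar)) :=
  PowerSeries.constantCoeff_surj

/-- The universal cover. -/
abbrev Xhat : Subalgebra (OX f) Qbar⟦X⟧ := Ahat (OX f) Qbar⟦X⟧

/-- The path defined by a point of the universal cover. -/
def thePath {Ω : Type} [Field Ω] [IsAlgClosed Ω] {y : OX f →+* Ω}
    (h : Xhat f →+* Ω) (hy : h.comp (algebraMap (OX f) (Xhat f)) = y) : Path (basePt f hf.out) y :=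
  pathOf (PowerSeries.constantCoeff (R := Qbar)) eps_surjective (constantCoeff_expand f hf.out) h hy

/-- The action of the Galois group on the universal cover. -/
def sigHat (σ : GalQ) : Xhat f ≃+* Xhat f :=
  Ahat.equiv (coeffAct f σ) (hat σ.toRingEquiv) (hat_expand f hf.out σ)

theorem sigHat_mul (σ τ : GalQ) (g : Xhat f) : sigHat f (σ * τ) g = sigHat f σ (sigHat f τ g) := by
  apply Subtype.ext
  apply PowerSeries.ext
  intro n
  change PowerSeries.coeff n (hat (σ * τ).toRingEquiv g.1) =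
    PowerSeries.coeff n (hat σ.toRingEquiv (hat τ.toRingEquiv g.1))
  rw [coeff_hat, coeff_hat, coeff_hat]
  rfl

theorem sigHat_mul_symm (σ τ : GalQ) (g : Xhat f) :
    (sigHat f (σ * τ)).symm g = (sigHat f τ).symm ((sigHat f σ).symm g) := by
  rw [RingEquiv.symm_apply_eq, sigHat_mul, RingEquiv.apply_symm_apply, RingEquiv.apply_symm_apply]

theorem sigHat_algebraMap (σ : GalQ) (a : OX f) :
    sigHat f σ (algebraMap (OX f) (Xhat f) a) = algebraMap (OX f) (Xhat f) (coeffAct f σ a) :=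
  Subtype.ext (hat_expand f hf.out σ a)

theorem sigHat_symm_algebraMap (σ : GalQ) (a : OX f) :
    (sigHat f σ).symm (algebraMap (OX f) (Xhat f) a) =
      algebraMap (OX f) (Xhat f) ((coeffAct f σ).symm a) := by
  rw [RingEquiv.symm_apply_eq, sigHat_algebraMap, RingEquiv.apply_symm_apply]

/-- The point `τ ∘ h ∘ σ⁻¹`. -/
def twistPt {Ω : Type} [Field Ω] (σ : GalQ) (τ : Ω ≃+* Ω) (h : Xhat f →+* Ω) : Xhat f →+* Ω :=
  (τ : Ω →+* Ω).comp (h.comp ((sigHat f σ).symm : Xhat f →+* Xhat f))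

theorem twistPt_apply {Ω : Type} [Field Ω] (σ : GalQ) (τ : Ω ≃+* Ω) (h : Xhat f →+* Ω) (g : Xhat f) :
    twistPt f σ τ h g = τ (h ((sigHat f σ).symm g)) := rfl

theorem twistPt_comp {Ω : Type} [Field Ω] {y : OX f →+* Ω} (σ : GalQ) (τ : Ω ≃+* Ω)
    (h : Xhat f →+* Ω) (hy : h.comp (algebraMap (OX f) (Xhat f)) = y)
    (h₂ : ∀ a, τ (y a) = y (coeffAct f σ a)) :
    (twistPt f σ τ h).comp (algebraMap (OX f) (Xhat f)) = y := by
  ext a
  rw [RingHom.comp_apply, twistPt_apply, sigHat_symm_algebraMap]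
  have h1 := RingHom.congr_fun hy ((coeffAct f σ).symm a)
  rw [RingHom.comp_apply] at h1
  rw [h1, h₂, RingEquiv.apply_symm_apply]

theorem thePath_act {Ω : Type} [Field Ω] [IsAlgClosed Ω] {y : OX f →+* Ω}
    (σ : GalQ) (τ : Ω ≃+* Ω) (h : Xhat f →+* Ω) (hy : h.comp (algebraMap (OX f) (Xhat f)) = y)
    (h₁ : ∀ a, σ.toRingEquiv (basePt f hf.out a) = basePt f hf.out (coeffAct f σ a))
    (h₂ : ∀ a, τ (y a) = y (coeffAct f σ a)) :
    (thePath f h hy).act (coeffAct f σ) σ.toRingEquiv τ h₁ h₂ =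
      thePath f (twistPt f σ τ h) (twistPt_comp f σ τ h hy h₂) := by
  apply pathOf_act _ _ _ h hy (coeffAct f σ) (hat σ.toRingEquiv) σ.toRingEquiv τ
    (hat_expand f hf.out σ) ?_ h₁ h₂ _ _ (fun g => rfl)
  intro w
  rw [← PowerSeries.coeff_zero_eq_constantCoeff_apply, ← PowerSeries.coeff_zero_eq_constantCoeff_apply,
    coeff_hat]

theorem thePath_congr {Ω : Type} [Field Ω] [IsAlgClosed Ω] {y : OX f →+* Ω}
    {h h' : Xhat f →+* Ω} (hy : h.comp (algebraMap (OX f) (Xhat f)) = y)
    (hy' : h'.comp (algebraMap (OX f) (Xhat f)) = y) (e : ∀ g, h g = h' g) :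
    thePath f h hy = thePath f h' hy' := by
  have : h = h' := RingHom.ext e
  subst this
  rfl

end inst

section point

variable (f : ℤ[X]) [hf : Fact (aeval (0 : Qbar) f ≠ 0)]

theorem exists_lift {Ω : Type} [Field Ω] [IsAlgClosed Ω] (y : OX f →+* Ω) :
    ∃ h : Xhat f →+* Ω, h.comp (algebraMap (OX f) (Xhat f)) = y := by
  obtain ⟨h, hh⟩ := exists_extension (algebraMap (OX f) (Xhat f)) y (by
    intro a b hab
    exact expand_injective f hf.out (congrArg Subtype.val hab))
    (algebraMap_isIntegral_iff.mpr inferInstance)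
  exact ⟨h, RingHom.ext hh⟩

variable (z : ℚ) (hz : aeval (algebraMap ℚ Qbar z) f ≠ 0)

/-- The geometric point of a rational point. -/
abbrev ptQ : OX f →+* Qbar := pt f (RingHom.id Qbar) (algebraMap ℚ Qbar z) hz

/-- A point of the universal cover above the rational point `z`. -/
def liftQ : Xhat f →+* Qbar := Classical.choose (exists_lift f (ptQ f z hz))

theorem liftQ_comp : (liftQ f z hz).comp (algebraMap (OX f) (Xhat f)) = ptQ f z hz :=
  Classical.choose_spec (exists_lift f (ptQ f z hz))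

theorem hbase (σ : GalQ) (a : OX f) :
    σ.toRingEquiv (basePt f hf.out a) = basePt f hf.out (coeffAct f σ a) :=
  pt_coeffAct f (RingHom.id Qbar) 0 hf.out σ σ.toRingEquiv (fun _ => rfl) (map_zero _) a

omit hf in
theorem hpt (σ : GalQ) (a : OX f) :
    σ.toRingEquiv (ptQ f z hz a) = ptQ f z hz (coeffAct f σ a) :=
  pt_coeffAct f (RingHom.id Qbar) _ hz σ σ.toRingEquiv (fun _ => rfl) (σ.commutes z) a

/-- The difference `γ⁻¹ σ(γ)` for the path `γ` from the base point to the rational point `z`. -/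
def gQ (σ : GalQ) : Pi1 f hf.out :=
  (thePath f (liftQ f z hz) (liftQ_comp f z hz)).diff
    (thePath f (twistPt f σ σ.toRingEquiv (liftQ f z hz))
      (twistPt_comp f σ σ.toRingEquiv _ (liftQ_comp f z hz) (hpt f z hz σ)))

theorem gQ_mul (σ τ : GalQ) : gQ f z hz (σ * τ) = gQ f z hz σ * galPi1 f hf.out σ (gQ f z hz τ) := by
  have h1 : galPi1 f hf.out σ (gQ f z hz τ) =
      (thePath f (twistPt f σ σ.toRingEquiv (liftQ f z hz))
        (twistPt_comp f σ σ.toRingEquiv _ (liftQ_comp f z hz) (hpt f z hz σ))).diff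
      (thePath f (twistPt f (σ * τ) (σ * τ).toRingEquiv (liftQ f z hz))
        (twistPt_comp f (σ * τ) (σ * τ).toRingEquiv _ (liftQ_comp f z hz) (hpt f z hz (σ * τ)))) := by
    rw [gQ, galPi1, Path.actHom_diff _ _ (coeffAct f σ) σ.toRingEquiv σ.toRingEquiv _ (hpt f z hz σ),
      thePath_act, thePath_act]
    congr 1
  rw [h1, gQ, gQ, Path.diff_mul_diff]

end point

end Pool.Agent.H83.Kim
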