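import Pool.Agent.H83.Kim.Disc

/-! A rational point in the disc of the base point has the local class of the base point. -/

open Polynomial PowerSeries

noncomputable section

namespace Pool.Agent.H83.Kim

variable (f : ℤ[X]) [hf : Fact (aeval (0 : Qbar) f ≠ 0)] (ℓ : ℕ) [Fact ℓ.Prime]

omit hf in
theorem Path.diff_inv {A : Type} [CommRing A] {Ω₁ Ω₂ : Type*} [CommRing Ω₁] [CommRing Ω₂]
    {x : A →+* Ω₁} {y : A →+* Ω₂} (γ δ : Path x y) : (γ.diff δ)⁻¹ = δ.diff γ := by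
  rw [_root_.inv_eq_iff_mul_eq_one, Path.diff_mul_diff, Path.diff_self]

/-- The localised cocycle of a rational point, computed with the local path. -/
theorem gQ_local (z : ℚ) (hz : aeval (algebraMap ℚ Qbar z) f ≠ 0) (x : ℚ_[ℓ])
    (hxz : x = (z : ℚ_[ℓ])) (hx : aeval (algebraMap ℚ_[ℓ] (Qvbar ℓ) x) f ≠ 0)
    (hy : ((embed ℓ).comp (liftQ f z hz)).comp (algebraMap (OX f) (Xhat f)) =
      pt f (embed ℓ) (algebraMap ℚ_[ℓ] (Qvbar ℓ) x) hx)
    (σ : GalQ) (τ : GalQv ℓ) (h : ∀ a, τ (embed ℓ a) = embed ℓ (σ a)) :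
    (thePath f ((embed ℓ).comp (liftQ f z hz)) hy).diff
      (PathTo.act (hf := hf.out) (hx := hx) σ τ h
        (thePath f ((embed ℓ).comp (liftQ f z hz)) hy)) = gQ f z hz σ := by
  rw [PathTo.act, thePath_act]
  have e1 : (twistPt f σ τ.toRingEquiv ((embed ℓ).comp (liftQ f z hz))) =
      (embed ℓ).comp (twistPt f σ σ.toRingEquiv (liftQ f z hz)) := by
    ext g
    rw [twistPt_apply, RingHom.comp_apply, RingHom.comp_apply, twistPt_apply]
    exact h _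
  have hy' : ((embed ℓ).comp (twistPt f σ σ.toRingEquiv (liftQ f z hz))).comp
      (algebraMap (OX f) (Xhat f)) = pt f (embed ℓ) (algebraMap ℚ_[ℓ] (Qvbar ℓ) x) hx := by
    rw [RingHom.comp_assoc, twistPt_comp f σ σ.toRingEquiv _ (liftQ_comp f z hz) (hpt f z hz σ),
      embed_ptQ f z hz ℓ x hxz hx]
  rw [thePath_congr f (h' := (embed ℓ).comp (twistPt f σ σ.toRingEquiv (liftQ f z hz))) _ hy'
    (fun g => RingHom.congr_fun e1 g)]
  exact pathOf_diff_comp _ _ _ (embed ℓ) _ _ _ _ hy hy'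

theorem locEq_disc {p : ℕ} [hp : Fact p.Prime] (hpl : p ≠ ℓ) (n : ℕ) (s : ℚ_[ℓ])
    (hF : ∃ F ∈ BO ℓ, TT ℓ s ((f.map (Int.castRingHom Qbar) : Qbar[X]) : Qbar⟦X⟧) * F = 1)
    (z : ℚ) (hz : aeval (algebraMap ℚ Qbar z) f ≠ 0) (y : ℚ_[ℓ]) (hy : ‖y‖ < 1)
    (hyz : s * y = z) (x : ℚ_[ℓ]) (hx0 : x = 0) :
    LocEq f hf.out p n ℓ (cocQ f z hz p n) x := by
  subst hx0
  have hx : aeval (algebraMap ℚ_[ℓ] (Qvbar ℓ) (z : ℚ_[ℓ])) f ≠ 0 := by
    rw [← embed_algebraMap, aeval_embed]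
    exact (map_ne_zero (embed ℓ)).mpr hz
  -- the path to `z` from the global path
  have hy1 : ((embed ℓ).comp (liftQ f z hz)).comp (algebraMap (OX f) (Xhat f)) =
      pt f (embed ℓ) (algebraMap ℚ_[ℓ] (Qvbar ℓ) (z : ℚ_[ℓ])) hx := by
    rw [RingHom.comp_assoc, liftQ_comp, embed_ptQ f z hz ℓ (z : ℚ_[ℓ]) rfl hx]
  set γ := thePath f ((embed ℓ).comp (liftQ f z hz)) hy1 with hγ
  -- the path to `z` inside the disc
  have hY : ‖(algebraMap ℚ_[ℓ] (Qvbar ℓ) y : PadicAlgCl ℓ)‖ < 1 := by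
    rw [norm_algebraMap']
    exact hy
  obtain ⟨h, hh, hS⟩ := exists_disc_lift f ℓ s hF (algebraMap ℚ_[ℓ] (Qvbar ℓ) y) hY
    (algebraMap ℚ_[ℓ] (Qvbar ℓ) (z : ℚ_[ℓ])) (by rw [← hyz, map_mul]) hx
  set δ := thePath f h hh with hδ
  -- the constant path
  have hx' : aeval (algebraMap ℚ_[ℓ] (Qvbar ℓ) 0) f ≠ 0 := by
    have h0 : algebraMap ℚ_[ℓ] (Qvbar ℓ) 0 = embed ℓ 0 := by rw [map_zero, map_zero]
    rw [h0, aeval_embed]
    exact (map_ne_zero (embed ℓ)).mpr hf.out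
  let ε : Xhat f →+* Qbar := (PowerSeries.constantCoeff (R := Qbar)).comp
    ((Xhat f).val : Xhat f →+* Qbar⟦X⟧)
  have hε : (ε.comp (algebraMap (OX f) (Xhat f))) = basePt f hf.out := constantCoeff_expand f hf.out
  have hy0 : ((embed ℓ).comp ε).comp (algebraMap (OX f) (Xhat f)) =
      pt f (embed ℓ) (algebraMap ℚ_[ℓ] (Qvbar ℓ) 0) hx' := by
    rw [RingHom.comp_assoc, hε]
    apply OX_hom_ext
    intro P
    rw [RingHom.comp_apply, pt_algebraMap, basePt, pt_algebraMap, Polynomial.hom_eval₂,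
      RingHom.comp_id, map_zero, map_zero]
  refine ⟨hx', thePath f ((embed ℓ).comp ε) hy0, (UQ.of p n (γ.diff δ))⁻¹, ?_⟩
  intro σ τ hστ
  have e0 : (thePath f ((embed ℓ).comp ε) hy0).diff (PathTo.act (hf := hf.out) (hx := hx') σ τ hστ
      (thePath f ((embed ℓ).comp ε) hy0)) = 1 := by
    rw [PathTo.act, thePath_act]
    have e00 : ∀ hy', thePath f (twistPt f σ τ.toRingEquiv ((embed ℓ).comp ε)) hy' =
        thePath f ((embed ℓ).comp ε) hy0 := by
      intro hy'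
      apply thePath_congr
      intro g
      rw [twistPt_apply]
      change τ (embed ℓ (ε ((sigHat f σ).symm g))) = embed ℓ (ε g)
      rw [hστ]
      congr 1
      have h1 : ε (sigHat f σ ((sigHat f σ).symm g)) = σ (ε ((sigHat f σ).symm g)) := by
        change PowerSeries.constantCoeff (hat σ.toRingEquiv ((sigHat f σ).symm g).1) = _
        rw [← PowerSeries.coeff_zero_eq_constantCoeff_apply, coeff_hat,
          PowerSeries.coeff_zero_eq_constantCoeff_apply]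
        rfl
      rw [← h1, RingEquiv.apply_symm_apply]
    rw [e00, Path.diff_self]
  rw [e0, map_one, mul_one, inv_inv]
  have e1 := gQ_local f ℓ z hz (z : ℚ_[ℓ]) rfl hx hy1 σ τ hστ
  rw [← hγ] at e1
  have hh' := twistPt_comp f σ τ.toRingEquiv h hh (pt_coeffAct f (embed ℓ) _ hx σ τ.toRingEquiv hστ
    (τ.commutes _))
  have e2 : PathTo.act (hf := hf.out) (hx := hx) σ τ hστ δ = thePath f _ hh' := by
    rw [PathTo.act, hδ, thePath_act]
  have e3 : UQ.of p n (δ.diff (PathTo.act (hf := hf.out) (hx := hx) σ τ hστ δ)) = 1 := by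
    rw [e2]
    exact disc_diff f ℓ s hpl n hF _ hY _ hx h hh hS σ τ hστ (τ.commutes y) hh'
  have e4 : galPi1 f hf.out σ (δ.diff γ) = (PathTo.act (hf := hf.out) (hx := hx) σ τ hστ δ).diff
      (PathTo.act (hf := hf.out) (hx := hx) σ τ hστ γ) :=
    Path.actHom_diff _ _ _ _ _ _ _
  have e5 : gQ f z hz σ = γ.diff δ * δ.diff (PathTo.act (hf := hf.out) (hx := hx) σ τ hστ δ) *
      galPi1 f hf.out σ (γ.diff δ)⁻¹ := by
    rw [Path.diff_inv, e4, Path.diff_mul_diff, Path.diff_mul_diff, e1]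
  rw [cocQ, e5, map_mul, map_mul, e3, mul_one, galUn, ← map_inv, UQ.map_of]

end Pool.Agent.H83.Kim
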