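import Pool.Agent.H83.Kim.LocDisc

/-! The counterexample. -/

open Polynomial PowerSeries

noncomputable section

namespace Pool.Agent.H83.Kim

/-- The polynomial `16 t² - 8 t - 1`. -/
def f₀ : ℤ[X] := 16 * Polynomial.X ^ 2 - 8 * Polynomial.X - 1

/-- `(𝒳_f, 0, p, S)` is admissible: `𝒳_f = ℙ¹_ℤ ∖ 𝒟`, where `𝒟`, the closure of
`{∞} ∪ {f = 0}`, is reduced and horizontal with at least three complex points, `b = 0` is a point
of `𝒳_f(ℤ)`, `p` is an odd prime not in `S`, and `𝒟 → Spec ℤ` is étale over all primes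
outside `S` (in particular `𝒳_f` has good reduction outside `S`). -/
structure Admissible (f : ℤ[X]) (p : ℕ) (S : Finset ℕ) : Prop where
  horizontal : f.IsPrimitive
  reduced : Squarefree f
  three_points : 2 ≤ f.natDegree
  base : IsUnit (f.eval 0)
  prime : p.Prime
  odd : Odd p
  notMem : p ∉ S
  etale : ∀ v : ℕ, v.Prime → v ∉ S → (f.map (Int.castRingHom (ZMod v))).Separable ∧
    (f.map (Int.castRingHom (ZMod v))).natDegree = f.natDegree

theorem natDegree_f₀ : f₀.natDegree = 2 := by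
  rw [f₀]
  compute_degree!

theorem f₀_eval_zero : f₀.eval 0 = -1 := by
  rw [f₀]
  norm_num

theorem f₀_ne : aeval (0 : Qbar) f₀ ≠ 0 := by
  rw [f₀]
  simp only [map_sub, map_mul, map_pow, aeval_X, map_ofNat, map_one]
  norm_num

theorem f₀_admissible {p : ℕ} (hp : p.Prime) (hp2 : p ≠ 2) : Admissible f₀ p {2} where
  horizontal := by
    intro r hr
    have h1 := (Polynomial.C_dvd_iff_dvd_coeff r f₀).mp hr 0
    rw [Polynomial.coeff_zero_eq_eval_zero, f₀_eval_zero] at h1
    exact isUnit_of_dvd_unit h1 (by norm_num)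
  reduced := by
    rintro g ⟨h, hg⟩
    have h1 : derivative f₀ = 32 * Polynomial.X - 8 := by
      rw [f₀]
      simp only [derivative_sub, derivative_mul, derivative_X_pow, Polynomial.derivative_X, derivative_ofNat,
        Polynomial.derivative_one]
      simp only [Nat.cast_ofNat, map_ofNat]
      ring
    have h2 : (32 * Polynomial.X - 8 : ℤ[X]) ^ 2 - 64 * f₀ = Polynomial.C 128 := by
      rw [f₀]
      have : (Polynomial.C 128 : ℤ[X]) = 128 := rfl
      rw [this]
      ring
    have h3 : g * g ∣ Polynomial.C 128 := by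
      have hd : derivative f₀ = g * (2 * derivative g * h + g * derivative h) := by
        rw [hg, derivative_mul, derivative_mul]
        ring
      rw [← h2, ← h1, hd]
      refine ⟨(2 * derivative g * h + g * derivative h) ^ 2 - 64 * h, ?_⟩
      linear_combination (-64) * hg
    have h4 : g.natDegree = 0 := by
      have h5 : (g * g).natDegree ≤ (Polynomial.C (128 : ℤ)).natDegree :=
        Polynomial.natDegree_le_of_dvd h3 (by simp)
      have hg0 : g ≠ 0 := by
        rintro rfl
        rw [zero_mul, zero_dvd_iff] at h3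
        simp at h3
      rw [Polynomial.natDegree_mul hg0 hg0, Polynomial.natDegree_C] at h5
      omega
    rw [Polynomial.natDegree_eq_zero] at h4
    obtain ⟨c, rfl⟩ := h4
    have h6 : Polynomial.C c ∣ f₀ := ⟨Polynomial.C c * h, by rw [hg]; ring⟩
    have h7 := (Polynomial.C_dvd_iff_dvd_coeff c f₀).mp h6 0
    rw [Polynomial.coeff_zero_eq_eval_zero, f₀_eval_zero] at h7
    exact (isUnit_of_dvd_unit h7 (by norm_num)).map Polynomial.C
  three_points := natDegree_f₀.ge
  base := by
    rw [f₀_eval_zero]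
    norm_num
  prime := hp
  odd := hp.odd_of_ne_two hp2
  notMem := by simpa using hp2
  etale := by
    intro v hv hv2
    have hv2' : v ≠ 2 := by simpa using hv2
    have : Fact v.Prime := ⟨hv⟩
    have h2 : (2 : ZMod v) ≠ 0 := by
      intro h
      have h' : ((2 : ℕ) : ZMod v) = 0 := by exact_mod_cast h
      rw [ZMod.natCast_eq_zero_iff] at h'
      exact hv2' ((Nat.prime_dvd_prime_iff_eq hv Nat.prime_two).mp h')
    have hmap : f₀.map (Int.castRingHom (ZMod v)) = 16 * Polynomial.X ^ 2 - 8 * Polynomial.X - 1 := by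
      rw [f₀]
      simp
    constructor
    · rw [hmap, Polynomial.separable_def]
      have hd : derivative (16 * Polynomial.X ^ 2 - 8 * Polynomial.X - 1 : (ZMod v)[X]) =
          32 * Polynomial.X - 8 := by
        simp only [derivative_sub, derivative_mul, derivative_X_pow, Polynomial.derivative_X, derivative_ofNat,
          Polynomial.derivative_one]
        simp only [Nat.cast_ofNat, map_ofNat]
        ring
      rw [hd]
      have hC : Polynomial.C ((2 : ZMod v)⁻¹) * 2 = 1 := by
        have : (2 : (ZMod v)[X]) = Polynomial.C 2 := rfl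
        rw [this, ← Polynomial.C_mul, inv_mul_cancel₀ h2, Polynomial.C_1]
      set i := Polynomial.C ((2 : ZMod v)⁻¹) with hi
      refine ⟨-i, i ^ 7 * (32 * Polynomial.X - 8), ?_⟩
      have hf : (32 * Polynomial.X - 8 : (ZMod v)[X]) ^ 2 =
          64 * (16 * Polynomial.X ^ 2 - 8 * Polynomial.X - 1) + 128 := by ring
      set F : (ZMod v)[X] := 16 * Polynomial.X ^ 2 - 8 * Polynomial.X - 1 with hF
      set D : (ZMod v)[X] := 32 * Polynomial.X - 8 with hD
      have e1 : i ^ 7 * 64 = i := by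
        have : i ^ 7 * 64 = (i * 2) ^ 6 * i := by ring
        rw [this, hC, one_pow, one_mul]
      have e2 : i ^ 7 * 128 = 1 := by
        have : i ^ 7 * 128 = (i * 2) ^ 7 := by ring
        rw [this, hC, one_pow]
      linear_combination i ^ 7 * hf + F * e1 + e2
    · rw [hmap, natDegree_f₀]
      have h16 : (16 : ZMod v) ≠ 0 := by
        have : (16 : ZMod v) = 2 ^ 4 := by norm_num
        rw [this]
        exact pow_ne_zero _ h2
      compute_degree!

theorem TT_f₀ : TT 2 (1/4 : ℚ_[2]) ((f₀.map (Int.castRingHom Qbar) : Qbar[X]) : Qbar⟦X⟧) =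
    (PowerSeries.X ^ 2 - 2 * PowerSeries.X - 1 : ℤ⟦X⟧).map (Int.castRingHom (PadicAlgCl 2)) := by
  have h1 : ((f₀.map (Int.castRingHom Qbar) : Qbar[X]) : Qbar⟦X⟧) =
      16 * PowerSeries.X ^ 2 - 8 * PowerSeries.X - 1 := by
    rw [← Polynomial.coeToPowerSeries.ringHom_apply, f₀]
    simp only [Polynomial.map_sub, Polynomial.map_mul, Polynomial.map_pow, Polynomial.map_X,
      Polynomial.map_ofNat, Polynomial.map_one, map_sub, map_mul, map_pow, map_ofNat, map_one,
      Polynomial.coeToPowerSeries.ringHom_apply, Polynomial.coe_X]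
  rw [h1]
  simp only [map_sub, map_mul, map_pow, map_ofNat, map_one, TT_X, PowerSeries.map_X]
  have h2 : PowerSeries.C (algebraMap ℚ_[2] (Qvbar 2) (1/4)) * (4 : (Qvbar 2)⟦X⟧) = 1 := by
    have h3 : (4 : (Qvbar 2)⟦X⟧) = PowerSeries.C 4 := by rw [map_ofNat]
    rw [h3, ← map_mul]
    have h4 : algebraMap ℚ_[2] (Qvbar 2) (1/4) * 4 = 1 := by
      rw [map_div₀, map_one, map_ofNat]
      norm_num
    rw [h4, map_one]
  set c : (Qvbar 2)⟦X⟧ := PowerSeries.C (algebraMap ℚ_[2] (Qvbar 2) (1/4)) with hc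
  linear_combination (PowerSeries.X ^ 2 * (4 * c + 1) - 2 * PowerSeries.X) * h2

theorem main {p : ℕ} [hp : Fact p.Prime] (hp2 : p ≠ 2) (n : ℕ) :
    integralPts f₀ p ⊂ weaklyGlobal f₀ f₀_ne p n := by
  have hf : Fact (aeval (0 : Qbar) f₀ ≠ 0) := ⟨f₀_ne⟩
  rw [Set.ssubset_iff_subset_ne]
  refine ⟨integralPts_subset f₀ p n, ?_⟩
  intro heq
  -- the point `1/2`
  have hinv : ∀ (v : ℕ) [Fact v.Prime], v ≠ 2 → ∃ z : ℤ_[v], 2 * z = 1 := by
    intro v hv hv2
    have h1 : IsUnit (2 : ℤ_[v]) := by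
      rw [PadicInt.isUnit_iff]
      have h3 := (PadicInt.norm_natCast_eq_one_iff (p := v) (n := 2)).mpr
        ((Nat.coprime_primes hv.out Nat.prime_two).mpr hv2)
      exact_mod_cast h3
    obtain ⟨u, hu⟩ := h1
    exact ⟨(u⁻¹ : (ℤ_[v])ˣ), by rw [← hu, Units.mul_inv]⟩
  have hunit : ∀ (v : ℕ) [Fact v.Prime] (z : ℤ_[v]), 2 * z = 1 → IsUnit (aeval z f₀) := by
    intro v hv z hz
    have : aeval z f₀ = -1 := by
      rw [f₀]
      simp only [map_sub, map_mul, map_pow, aeval_X, map_ofNat, map_one]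
      linear_combination (8 * z) * hz
    rw [this]
    exact isUnit_one.neg
  have hcast : ∀ (v : ℕ) [Fact v.Prime] (z : ℤ_[v]), 2 * z = 1 → (z : ℚ_[v]) = ((1/2 : ℚ) : ℚ_[v]) := by
    intro v hv z hz
    have h1 : (2 : ℚ_[v]) * z = 1 := by exact_mod_cast congrArg (fun t : ℤ_[v] => (t : ℚ_[v])) hz
    push_cast
    rw [eq_div_iff two_ne_zero, mul_comm]
    exact h1
  have hz : aeval (algebraMap ℚ Qbar (1/2 : ℚ)) f₀ ≠ 0 := by
    rw [f₀]
    simp only [map_sub, map_mul, map_pow, aeval_X, map_ofNat, map_one, map_div₀]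
    norm_num
  obtain ⟨z, h2z⟩ := hinv p hp2
  have hzW : z ∈ weaklyGlobal f₀ f₀_ne p n := by
    refine ⟨hunit p z h2z, cocQ f₀ (1/2) hz p n, cocQ_isCocycle f₀ (1/2) hz p n, ?_, ?_⟩
    · intro v hv hvp
      by_cases hv2 : v = 2
      · subst hv2
        refine ⟨0, ?_, ?_⟩
        · have h0 : aeval (0 : ℤ_[2]) f₀ = -1 := by
            rw [f₀]
            simp only [map_sub, map_mul, map_pow, aeval_X, map_ofNat, map_one]
            ring
          rw [h0]
          exact isUnit_one.neg
        · refine locEq_disc f₀ 2 hp2 n (1/4) ?_ (1/2) hz 2 ?_ ?_ _ ?_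
          · have hu : IsUnit (PowerSeries.X ^ 2 - 2 * PowerSeries.X - 1 : ℤ⟦X⟧) := by
              rw [PowerSeries.isUnit_iff_constantCoeff]
              simp
            obtain ⟨g, hg⟩ := hu.exists_right_inv
            refine ⟨g.map (Int.castRingHom (PadicAlgCl 2)), int_mem_BO g, ?_⟩
            rw [TT_f₀]
            rw [← map_mul, hg, map_one]
          · exact_mod_cast Padic.norm_p_lt_one (p := 2)
          · push_cast
            norm_num
          · rfl
      · obtain ⟨x, hx⟩ := hinv v hv2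
        exact ⟨x, hunit v x hx, locEq_rational f₀ (1/2) hz p n v _ (hcast v x hx)⟩
    · exact locEq_rational f₀ (1/2) hz p n p _ (hcast p z h2z)
  rw [← heq] at hzW
  obtain ⟨m, -, hm⟩ := hzW
  rw [hm] at h2z
  have h3 : ((2 * m : ℤ) : ℤ_[p]) = ((1 : ℤ) : ℤ_[p]) := by push_cast; exact h2z
  have h4 : 2 * m = 1 := by exact_mod_cast h3
  omega

end Pool.Agent.H83.Kim
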