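import Mathlib

/-!
# Étale paths and étale fundamental groups (Grothendieck)

`Cov A` are the finite étale algebras over a ring `A` (the finite étale covers of `Spec A`),
`Fib x c` is the fibre of the cover `c` over the geometric point `x : A → Ω`, and an étale path
from `x` to `y` is an isomorphism between the two fibre functors.  `Path x x` is the étale
fundamental group of `Spec A` with base point `x`.
-/

noncomputable section

namespace Pool.Agent.H83.Kim

/-- The points of `Spec A` with values in the ring `R`. -/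
abbrev Pt (A R : Type*) [CommRing A] [CommRing R] : Type _ := A →+* R

/-- The automorphisms of the ring `R`. -/
abbrev Auto (R : Type*) [CommRing R] : Type _ := R ≃+* R

/-- A finite étale cover of `Spec A`: a finite étale ring homomorphism `s : A → B`. -/
structure Cov (A : Type) [CommRing A] where
  /-- the ring of functions of the cover -/
  B : Type
  [ring : CommRing B]
  /-- the structure homomorphism -/
  s : Pt A B
  finite : s.Finite
  etale : s.Etale

attribute [instance] Cov.ring

section

variable {A : Type} [CommRing A] {Ω Ω₁ Ω₂ Ω₃ : Type*} [CommRing Ω] [CommRing Ω₁] [CommRing Ω₂]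
  [CommRing Ω₃]

/-- The fibre over the point `x : A → Ω` of the cover `c`. -/
def Fib (x : Pt A Ω) (c : Cov A) : Type _ := {h : Pt c.B Ω // h.comp c.s = x}

/-- The ring homomorphism `φ : c.B → d.B` is a morphism between the covers `c` and `d`. -/
def IsMor {c d : Cov A} (φ : Pt c.B d.B) : Prop := φ.comp c.s = d.s

/-- The map between the fibres at `x` defined by the morphism of covers `φ` sends `h` to `h'`. -/
def Fib.Rel {x : Pt A Ω} {c d : Cov A} (φ : Pt c.B d.B) (h : Fib x d) (h' : Fib x c) : Prop :=
  h.1.comp φ = h'.1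

/-- Naturality of a family of bijections between the fibres at `x` and at `y`, for morphisms
`φ : c.B → d.B` of covers. -/
def IsNat {x : Pt A Ω₁} {y : Pt A Ω₂} (F : ∀ c : Cov A, Fib x c ≃ Fib y c) : Prop :=
  ∀ (c d : Cov A) (φ : Pt c.B d.B), IsMor φ → ∀ (h : Fib x d) (h' : Fib x c),
    Fib.Rel φ h h' → Fib.Rel φ (F d h) (F c h')

/-- An étale path from `x` to `y`: an isomorphism between the fibre functors at `x` and `y`. -/
structure Path (x : Pt A Ω₁) (y : Pt A Ω₂) where
  /-- the bijections between the fibres -/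
  map : ∀ c : Cov A, Fib x c ≃ Fib y c
  nat : IsNat map

/-- The bijections of the inverse path. -/
def Path.symmMap {x : Pt A Ω₁} {y : Pt A Ω₂} (γ : Path x y) (c : Cov A) : Fib y c ≃ Fib x c :=
  (γ.map c).symm

theorem Path.symm_nat {x : Pt A Ω₁} {y : Pt A Ω₂} (γ : Path x y) :
    IsNat γ.symmMap := by
    intro c d φ hφ h h' e
    change φ.comp c.s = d.s at hφ
    change h.1.comp φ = h'.1 at e
    have h1 := γ.nat c d φ hφ ((γ.map d).symm h)
      ⟨((γ.map d).symm h).1.comp φ, by
        rw [RingHom.comp_assoc, hφ, ((γ.map d).symm h).2]⟩ rfl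
    change ((γ.map d) ((γ.map d).symm h)).1.comp φ = _ at h1
    rw [Equiv.apply_symm_apply, e] at h1
    have h2 := (Equiv.symm_apply_eq (γ.map c)).mpr (Subtype.ext h1)
    exact (congrArg Subtype.val h2).symm

/-- The inverse path. -/
def Path.symm {x : Pt A Ω₁} {y : Pt A Ω₂} (γ : Path x y) : Path y x :=
  ⟨γ.symmMap, γ.symm_nat⟩

/-- The bijections of the composition of two paths. -/
def Path.transMap {x : Pt A Ω₁} {y : Pt A Ω₂} {z : Pt A Ω₃} (γ : Path x y) (δ : Path y z)
    (c : Cov A) : Fib x c ≃ Fib z c := (γ.map c).trans (δ.map c)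

theorem Path.trans_nat {x : Pt A Ω₁} {y : Pt A Ω₂} {z : Pt A Ω₃} (γ : Path x y) (δ : Path y z) :
    IsNat (γ.transMap δ) :=
  fun c d φ hφ h h' e => δ.nat c d φ hφ _ _ (γ.nat c d φ hφ h h' e)

/-- Composition of paths: first `γ`, then `δ`. -/
def Path.trans {x : Pt A Ω₁} {y : Pt A Ω₂} {z : Pt A Ω₃} (γ : Path x y) (δ : Path y z) :
    Path x z := ⟨γ.transMap δ, γ.trans_nat δ⟩

/-- The bijections of the constant path. -/
def Path.reflMap (x : Pt A Ω) (c : Cov A) : Fib x c ≃ Fib x c := Equiv.refl _

theorem Path.refl_nat (x : Pt A Ω) : IsNat (Path.reflMap x) := fun _ _ _ _ _ _ e => e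

/-- The constant path. -/
def Path.refl (x : Pt A Ω) : Path x x := ⟨Path.reflMap x, Path.refl_nat x⟩

theorem Path.ext {x : Pt A Ω₁} {y : Pt A Ω₂} {γ δ : Path x y}
    (h : ∀ (c : Cov A) (a : Fib x c), γ.map c a = δ.map c a) : γ = δ := by
  cases γ; cases δ
  congr
  funext c
  exact Equiv.ext (h c)

instance Path.instMul (x : Pt A Ω) : Mul (Path x x) := ⟨fun g h => h.trans g⟩

instance Path.instOne (x : Pt A Ω) : One (Path x x) := ⟨Path.refl x⟩

instance Path.instInv (x : Pt A Ω) : Inv (Path x x) := ⟨Path.symm⟩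

/-- The étale fundamental group with base point `x`. The product `g * h` is the path `h`
followed by the path `g`. -/
instance Path.instGroup (x : Pt A Ω) : Group (Path x x) :=
  Group.ofLeftAxioms (fun _ _ _ => rfl) (fun _ => rfl)
    (fun g => Path.ext fun c a => (g.map c).symm_apply_apply a)

/-- The set of all `g` in the fundamental group that send the element `a` of a fibre to `b`. -/
def Path.sending {x : Pt A Ω} (c : Cov A) (a b : Fib x c) : Set (Path x x) := {g | g.map c a = b}

/-- The topology of the étale fundamental group: the coarsest topology for which the action on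
every fibre is continuous, fibres being discrete. -/
instance Path.instTop (x : Pt A Ω) : TopologicalSpace (Path x x) :=
  TopologicalSpace.generateFrom {V | ∃ (c : Cov A) (a b : Fib x c), V = Path.sending c a b}

/-- The element `γ⁻¹ ∘ δ` of the fundamental group at `x` defined by two paths from `x` to `y`. -/
def Path.diff {x : Pt A Ω₁} {y : Pt A Ω₂} (γ δ : Path x y) : Path x x := δ.trans γ.symm

/-- The cover `c` with structure homomorphism twisted by an automorphism of `A`. -/
def Cov.twist (c : Cov A) (σ : Auto A) : Cov A where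
  B := c.B
  s := c.s.comp σ
  finite := c.finite.comp (RingHom.Finite.of_surjective _ σ.surjective)
  etale := RingHom.Etale.stableUnderComposition _ _ (RingHom.Etale.of_bijective σ.bijective) c.etale

/-- The automorphisms `σA` of `A` and `σ` of `Ω` are compatible with the point `x`. -/
def Compatible (x : Pt A Ω) (σA : Auto A) (σ : Auto Ω) : Prop := ∀ a, σ (x a) = x (σA a)

/-- Composition with `σ⁻¹`. -/
def postComp (B : Type) [CommRing B] (σ : Auto Ω) : Pt B Ω ≃ Pt B Ω where
  toFun k := (σ.symm : Ω →+* Ω).comp k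
  invFun k := (σ : Ω →+* Ω).comp k
  left_inv _ := RingHom.ext fun _ => σ.apply_symm_apply _
  right_inv _ := RingHom.ext fun _ => σ.symm_apply_apply _

theorem postComp_iff {x : Pt A Ω} {σA : Auto A} {σ : Auto Ω} (h : Compatible x σA σ) (c : Cov A)
    (k : Pt c.B Ω) : k.comp c.s = x ↔ (postComp c.B σ k).comp (c.twist σA).s = x := by
  constructor
  · intro hk
    ext a
    change σ.symm (k (c.s (σA a))) = x a
    have := RingHom.congr_fun hk (σA a)
    rw [RingHom.comp_apply] at this
    rw [this, ← h, RingEquiv.symm_apply_apply]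
  · intro hk
    ext a
    have := RingHom.congr_fun hk (σA.symm a)
    change σ.symm (k (c.s (σA (σA.symm a)))) = x (σA.symm a) at this
    rw [RingEquiv.apply_symm_apply, RingEquiv.symm_apply_eq, h, RingEquiv.apply_symm_apply] at this
    exact this

/-- The fibre of a twisted cover. -/
def Fib.twist {x : Pt A Ω} (σA : Auto A) (σ : Auto Ω) (h : Compatible x σA σ) (c : Cov A) :
    Fib x c ≃ Fib x (c.twist σA) :=
  (postComp c.B σ).subtypeEquiv (postComp_iff h c)

/-- The bijections of the translate of a path by a compatible system of automorphisms. -/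
def Path.actMap {x : Pt A Ω₁} {y : Pt A Ω₂} (σA : Auto A) (σ₁ : Auto Ω₁) (σ₂ : Auto Ω₂)
    (h₁ : Compatible x σA σ₁) (h₂ : Compatible y σA σ₂) (γ : Path x y) (c : Cov A) :
    Fib x c ≃ Fib y c :=
  ((Fib.twist σA σ₁ h₁ c).trans (γ.map (c.twist σA))).trans (Fib.twist σA σ₂ h₂ c).symm

theorem Path.act_nat {x : Pt A Ω₁} {y : Pt A Ω₂} (σA : Auto A) (σ₁ : Auto Ω₁) (σ₂ : Auto Ω₂)
    (h₁ : Compatible x σA σ₁) (h₂ : Compatible y σA σ₂) (γ : Path x y) :
    IsNat (γ.actMap σA σ₁ σ₂ h₁ h₂) := by
    intro c d φ hφ h h' e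
    change φ.comp c.s = d.s at hφ
    have hφ' : φ.comp (c.twist σA).s = (d.twist σA).s := by
      change φ.comp (c.s.comp (σA : A →+* A)) = d.s.comp (σA : A →+* A)
      rw [← RingHom.comp_assoc, hφ]
    have h1 := γ.nat (c.twist σA) (d.twist σA) φ hφ' (Fib.twist σA σ₁ h₁ d h)
      (Fib.twist σA σ₁ h₁ c h') (by
        ext b
        exact congrArg σ₁.symm (RingHom.congr_fun e b))
    ext b
    exact congrArg σ₂ (RingHom.congr_fun h1 b)

/-- The action of a compatible system of automorphisms (of the base ring and of the fields of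
values of the two points) on paths. -/
def Path.act {x : Pt A Ω₁} {y : Pt A Ω₂} (σA : Auto A) (σ₁ : Auto Ω₁) (σ₂ : Auto Ω₂)
    (h₁ : Compatible x σA σ₁) (h₂ : Compatible y σA σ₂) (γ : Path x y) : Path x y :=
  ⟨γ.actMap σA σ₁ σ₂ h₁ h₂, γ.act_nat σA σ₁ σ₂ h₁ h₂⟩

theorem Path.act_one {x : Pt A Ω} {σA : Auto A} {σ : Auto Ω} (h : Compatible x σA σ) :
    Path.act σA σ σ h h (1 : Path x x) = 1 :=
  Path.ext fun c a => (Fib.twist σA σ h c).symm_apply_apply a

theorem Path.act_mul {x : Pt A Ω} {σA : Auto A} {σ : Auto Ω} (h : Compatible x σA σ)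
    (g k : Path x x) : Path.act σA σ σ h h (g * k) = Path.act σA σ σ h h g * Path.act σA σ σ h h k := by
  apply Path.ext
  intro c a
  change (Fib.twist σA σ h c).symm (g.map _ (k.map _ (Fib.twist σA σ h c a))) =
    (Fib.twist σA σ h c).symm (g.map _ (Fib.twist σA σ h c ((Fib.twist σA σ h c).symm
      (k.map _ (Fib.twist σA σ h c a)))))
  rw [Equiv.apply_symm_apply]

theorem isOpen_path_eval {x : Pt A Ω} (c : Cov A) (a b : Fib x c) :
    IsOpen {g : Path x x | g.map c a = b} :=
  TopologicalSpace.isOpen_generateFrom_of_mem ⟨c, a, b, rfl⟩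

theorem continuous_path_iff {X : Type*} [TopologicalSpace X] {x : Pt A Ω} {f : X → Path x x} :
    Continuous f ↔ ∀ (c : Cov A) (a b : Fib x c), IsOpen {t : X | (f t).map c a = b} := by
  rw [continuous_generateFrom_iff]
  constructor
  · intro hf c a b
    exact hf _ ⟨c, a, b, rfl⟩
  · rintro h _ ⟨c, a, b, rfl⟩
    exact h c a b

theorem Path.act_continuous {x : Pt A Ω} {σA : Auto A} {σ : Auto Ω} (h : Compatible x σA σ) :
    Continuous (Path.act σA σ σ h h : Path x x → Path x x) := by
  rw [continuous_path_iff]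
  intro c a b
  have h1 := isOpen_path_eval (c.twist σA) (Fib.twist σA σ h c a) (Fib.twist σA σ h c b)
  convert h1 using 1
  ext g
  change (Fib.twist σA σ h c).symm (g.map (c.twist σA) (Fib.twist σA σ h c a)) = b ↔ _
  rw [Equiv.symm_apply_eq]
  rfl

/-- The action on the fundamental group, as a continuous homomorphism. -/
def Path.actHom {x : Pt A Ω} (σA : Auto A) (σ : Auto Ω) (h : Compatible x σA σ) :
    Path x x →ₜ* Path x x :=
  ⟨⟨⟨Path.act σA σ σ h h, Path.act_one h⟩, Path.act_mul h⟩, Path.act_continuous h⟩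

end

end Pool.Agent.H83.Kim
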