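import Pool.Agent.H83.Kim.ActPath
import Pool.Agent.H83.Kim.Extend

/-! The action of the fundamental group on the universal cover. -/

noncomputable section

namespace Pool.Agent.H83.Kim

section

variable {A W : Type} [CommRing A] [CommRing W] [IsDomain W] [Algebra A W]
variable {κ : Type} [Field κ]
variable (ε : W →+* κ) (hε : Function.Surjective ε) [IsAdicComplete (RingHom.ker ε) W]
    {x : A →+* κ} (hx : ε.comp (algebraMap A W) = x)

/-- The fibre at the base point. -/
def liftE (c : Cov A) : Fib (algebraMap A W) c ≃ Fib x c :=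
  Equiv.ofBijective _ (Fib.push_bijective_of_complete ε hε hx c)

theorem liftE_apply (c : Cov A) (χ : Fib (algebraMap A W) c) :
    liftE ε hε hx c χ = Fib.push ε hx χ := rfl

/-- The action on points with values in `W`. -/
def gact (g : Path x x) (c : Cov A) : Fib (algebraMap A W) c ≃ Fib (algebraMap A W) c :=
  ((liftE ε hε hx c).trans (g.map c)).trans (liftE ε hε hx c).symm

theorem push_gact (g : Path x x) (c : Cov A) (χ : Fib (algebraMap A W) c) :
    Fib.push ε hx (gact ε hε hx g c χ) = g.map c (Fib.push ε hx χ) :=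
  (liftE ε hε hx c).apply_symm_apply _

theorem gact_map (g : Path x x) {c d : Cov A} (φ : c.B →+* d.B) (hφ : φ.comp c.s = d.s)
    (χ : Fib (algebraMap A W) d) :
    gact ε hε hx g c (Fib.map φ hφ χ) = Fib.map φ hφ (gact ε hε hx g d χ) := by
  apply (liftE ε hε hx c).injective
  rw [liftE_apply, liftE_apply, push_gact]
  have e1 : ∀ χ : Fib (algebraMap A W) d, Fib.push ε hx (Fib.map φ hφ χ) = Fib.map φ hφ (Fib.push ε hx χ) :=
    fun _ => rfl
  rw [e1, e1, push_gact, g.natural]

theorem gact_mul (g g' : Path x x) (c : Cov A) (χ : Fib (algebraMap A W) c) :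
    gact ε hε hx (g * g') c χ = gact ε hε hx g c (gact ε hε hx g' c χ) := by
  apply (liftE ε hε hx c).injective
  rw [liftE_apply, liftE_apply, push_gact, push_gact, push_gact, Path.mul_map]

theorem gact_one (c : Cov A) (χ : Fib (algebraMap A W) c) :
    gact ε hε hx 1 c χ = χ := by
  apply (liftE ε hε hx c).injective
  rw [liftE_apply, liftE_apply, push_gact, Path.one_map]

variable [IsDomain A] [IsPrincipalIdealRing A] [FaithfulSMul A W]

/-- The inclusion of a finite unramified subalgebra, as a point. -/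
def FU.incl {B : Subalgebra A W} (hB : FU A W B) : Fib (algebraMap A W) hB.cov :=
  ⟨(B.val : B →+* W), RingHom.ext fun _ => rfl⟩

omit [IsDomain W] [IsDomain A] [IsPrincipalIdealRing A] [FaithfulSMul A W] in
theorem Ahat.exists_FU (b : Ahat A W) : ∃ B : Subalgebra A W, FU A W B ∧ b.1 ∈ B := b.2

/-- A finite unramified subalgebra containing a given element. -/
def Ahat.sub (b : Ahat A W) : Subalgebra A W := Classical.choose (Ahat.exists_FU b)

omit [IsDomain W] [IsDomain A] [IsPrincipalIdealRing A] [FaithfulSMul A W] in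
theorem Ahat.sub_FU (b : Ahat A W) : FU A W (Ahat.sub b) :=
  (Classical.choose_spec (Ahat.exists_FU b)).1

omit [IsDomain W] [IsDomain A] [IsPrincipalIdealRing A] [FaithfulSMul A W] in
theorem Ahat.mem_sub (b : Ahat A W) : b.1 ∈ Ahat.sub b :=
  (Classical.choose_spec (Ahat.exists_FU b)).2

/-- The action of an element of the fundamental group on the universal cover. -/
def psiFun (g : Path x x) (b : Ahat A W) : W :=
  (gact ε hε hx g (Ahat.sub_FU b).cov (Ahat.sub_FU b).incl).1
    (⟨b.1, Ahat.mem_sub b⟩ : Ahat.sub b)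

theorem gact_incl_eq (g : Path x x) {B C : Subalgebra A W} (hB : FU A W B) (hC : FU A W C)
    (h : B ≤ C) (b : B) :
    (gact ε hε hx g hB.cov hB.incl).1 b =
      (gact ε hε hx g hC.cov hC.incl).1 (⟨b.1, h b.2⟩ : C) := by
  let φ : hB.cov.B →+* hC.cov.B := (Subalgebra.inclusion h : B →ₐ[A] C).toRingHom
  have hφ : φ.comp hB.cov.s = hC.cov.s := RingHom.ext fun _ => rfl
  have h1 := gact_map ε hε hx g φ hφ hC.incl
  have h2 : Fib.map φ hφ hC.incl = hB.incl := rfl
  rw [h2] at h1
  rw [h1]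
  rfl

theorem psiFun_eq (g : Path x x) (b : Ahat A W) {B : Subalgebra A W} (hB : FU A W B) (hb : b.1 ∈ B) :
    psiFun ε hε hx g b = (gact ε hε hx g hB.cov hB.incl).1 (⟨b.1, hb⟩ : B) := by
  have h1 := gact_incl_eq ε hε hx g (Ahat.sub_FU b)
    ((Ahat.sub_FU b).sup hB) le_sup_left (⟨b.1, Ahat.mem_sub b⟩)
  have h2 := gact_incl_eq ε hε hx g hB
    ((Ahat.sub_FU b).sup hB) le_sup_right (⟨b.1, hb⟩)
  exact h1.trans h2.symm

theorem psiFun_comp (g : Path x x) {c : Cov A} (χ : Fib (algebraMap A W) c) (b : c.B) :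
    psiFun ε hε hx g (χ.toAhat b) = (gact ε hε hx g c χ).1 b := by
  let := c.s.toAlgebra
  have h1 : Module.Finite A c.B := c.finite
  have h2 : Algebra.Etale A c.B := c.etale
  let φ' : c.B →ₐ[A] W := { χ.1 with commutes' := fun a => RingHom.congr_fun χ.2 a }
  have hB : FU A W φ'.range := ⟨Module.Finite.of_surjective φ'.rangeRestrict.toLinearMap
    φ'.rangeRestrict_surjective, Algebra.FormallyUnramified.of_surjective φ'.rangeRestrict
      φ'.rangeRestrict_surjective⟩
  have hb : (χ.toAhat b).1 ∈ φ'.range := ⟨b, rfl⟩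
  rw [psiFun_eq ε hε hx g _ hB hb]
  let φ : c.B →+* hB.cov.B := φ'.rangeRestrict.toRingHom
  have hφ : φ.comp c.s = hB.cov.s := by
    ext a
    exact φ'.rangeRestrict.commutes a
  have h3 := gact_map ε hε hx g φ hφ hB.incl
  have h4 : Fib.map φ hφ hB.incl = χ := rfl
  rw [h4] at h3
  rw [h3]
  rfl

theorem psiFun_mem (g : Path x x) (b : Ahat A W) : psiFun ε hε hx g b ∈ Ahat A W := by
  obtain ⟨B, hB, hb⟩ := b.2
  rw [psiFun_eq ε hε hx g b hB hb]
  exact Fib.mem_Ahat _ _

/-- The action of an element of the fundamental group on the universal cover. -/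
def psi (g : Path x x) : Ahat A W →ₐ[A] Ahat A W where
  toFun b := ⟨psiFun ε hε hx g b, psiFun_mem ε hε hx g b⟩
  map_one' := by
    apply Subtype.ext
    change psiFun ε hε hx g 1 = 1
    rw [psiFun_eq ε hε hx g 1 (B := ⊥) FU.bot (one_mem _)]
    exact map_one (gact ε hε hx g (FU.bot : FU A W ⊥).cov (FU.bot : FU A W ⊥).incl).1
  map_mul' a b := by
    apply Subtype.ext
    obtain ⟨B, hB, ha⟩ := a.2
    obtain ⟨C, hC, hb⟩ := b.2
    have ha' := (le_sup_left : B ≤ B ⊔ C) ha
    have hb' := (le_sup_right : C ≤ B ⊔ C) hb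
    change psiFun ε hε hx g (a * b) = psiFun ε hε hx g a * psiFun ε hε hx g b
    rw [psiFun_eq ε hε hx g a (hB.sup hC) ha', psiFun_eq ε hε hx g b (hB.sup hC) hb',
      psiFun_eq ε hε hx g (a * b) (hB.sup hC) (mul_mem ha' hb')]
    exact map_mul (gact ε hε hx g (hB.sup hC).cov (hB.sup hC).incl).1 (⟨a.1, ha'⟩ : ↥(B ⊔ C)) ⟨b.1, hb'⟩
  map_zero' := by
    apply Subtype.ext
    change psiFun ε hε hx g 0 = 0
    rw [psiFun_eq ε hε hx g 0 (B := ⊥) FU.bot (zero_mem _)]
    exact map_zero (gact ε hε hx g (FU.bot : FU A W ⊥).cov (FU.bot : FU A W ⊥).incl).1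
  map_add' a b := by
    apply Subtype.ext
    obtain ⟨B, hB, ha⟩ := a.2
    obtain ⟨C, hC, hb⟩ := b.2
    have ha' := (le_sup_left : B ≤ B ⊔ C) ha
    have hb' := (le_sup_right : C ≤ B ⊔ C) hb
    change psiFun ε hε hx g (a + b) = psiFun ε hε hx g a + psiFun ε hε hx g b
    rw [psiFun_eq ε hε hx g a (hB.sup hC) ha', psiFun_eq ε hε hx g b (hB.sup hC) hb',
      psiFun_eq ε hε hx g (a + b) (hB.sup hC) (add_mem ha' hb')]
    exact map_add (gact ε hε hx g (hB.sup hC).cov (hB.sup hC).incl).1 (⟨a.1, ha'⟩ : ↥(B ⊔ C)) ⟨b.1, hb'⟩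
  commutes' a := by
    apply Subtype.ext
    change psiFun ε hε hx g (algebraMap A (Ahat A W) a) = algebraMap A W a
    rw [psiFun_eq ε hε hx g _ (B := ⊥) FU.bot (Subalgebra.algebraMap_mem _ a)]
    exact RingHom.congr_fun (gact ε hε hx g (FU.bot : FU A W ⊥).cov (FU.bot : FU A W ⊥).incl).2 a

theorem psi_toAhat (g : Path x x) {c : Cov A} (χ : Fib (algebraMap A W) c) (b : c.B) :
    psi ε hε hx g (χ.toAhat b) = (gact ε hε hx g c χ).toAhat b :=
  Subtype.ext (psiFun_comp ε hε hx g χ b)

theorem coe_psi (g : Path x x) (b : Ahat A W) {B : Subalgebra A W} (hB : FU A W B) (hb : b.1 ∈ B) :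
    (psi ε hε hx g b : W) = (gact ε hε hx g hB.cov hB.incl).1 (⟨b.1, hb⟩ : B) :=
  psiFun_eq ε hε hx g b hB hb

/-- Each element of the universal cover is the value of a point of a cover. -/
theorem exists_toAhat (b : Ahat A W) :
    ∃ (c : Cov A) (χ : Fib (algebraMap A W) c) (b' : c.B), χ.toAhat b' = b := by
  obtain ⟨B, hB, hb⟩ := b.2
  exact ⟨hB.cov, hB.incl, (⟨b.1, hb⟩ : B), rfl⟩

theorem psi_mul (g g' : Path x x) (b : Ahat A W) :
    psi ε hε hx (g * g') b = psi ε hε hx g (psi ε hε hx g' b) := by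
  obtain ⟨c, χ, b', rfl⟩ := exists_toAhat b
  rw [psi_toAhat, psi_toAhat, psi_toAhat, gact_mul]

theorem psi_one (b : Ahat A W) : psi ε hε hx 1 b = b := by
  obtain ⟨c, χ, b', rfl⟩ := exists_toAhat b
  rw [psi_toAhat, gact_one]

variable [IsAlgClosed κ]

/-- The difference of the paths defined by two points of the universal cover above the same
point translates one point into the other. -/
theorem psi_diff {Ω : Type} [Field Ω] [IsAlgClosed Ω] {y : A →+* Ω}
    (h h' : Ahat A W →+* Ω) (hy : h.comp (algebraMap A (Ahat A W)) = y)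
    (hy' : h'.comp (algebraMap A (Ahat A W)) = y) (b : Ahat A W) :
    h (psi ε hε hx ((pathOf ε hε hx h hy).diff (pathOf ε hε hx h' hy')) b) = h' b := by
  obtain ⟨c, χ, b', rfl⟩ := exists_toAhat b
  rw [psi_toAhat]
  exact (pathOf_diff_map ε hε hx h h' hy hy' c χ _).mp (push_gact ε hε hx _ c χ).symm b'

/-- Transitivity: every point of `B` with values in `W` is obtained from the inclusion by an
element of the fundamental group. -/
theorem exists_psi {B : Subalgebra A W} (hB : FU A W B) (χ : Fib (algebraMap A W) hB.cov) :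
    ∃ g : Path x x, ∀ (b : Ahat A W) (hb : b.1 ∈ B), (psi ε hε hx g b : W) = χ.1 (⟨b.1, hb⟩ : B) := by
  let j : B →+* Ahat A W := (Subalgebra.inclusion hB.le_Ahat).toRingHom
  have hj : j.comp (algebraMap A B) = algebraMap A (Ahat A W) := RingHom.ext fun _ => rfl
  have hint : j.IsIntegral := by
    apply RingHom.IsIntegral.tower_top (algebraMap A B) j
    rw [hj]
    exact algebraMap_isIntegral_iff.mpr inferInstance
  let χ₀ : B →+* W := χ.1
  have hχ₀ : ∀ a, χ₀ (algebraMap A B a) = algebraMap A W a := fun a => RingHom.congr_fun χ.2 a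
  obtain ⟨h, hh⟩ := exists_extension j (ε.comp χ₀) (Subalgebra.inclusion_injective _) hint
  have hy : h.comp (algebraMap A (Ahat A W)) = x := by
    ext a
    have e1 : h (algebraMap A (Ahat A W) a) = h (j (algebraMap A B a)) := rfl
    rw [RingHom.comp_apply, e1, hh, RingHom.comp_apply, hχ₀, ← hx]
    rfl
  have hy0 : (ε.comp ((Ahat A W).val : Ahat A W →+* W)).comp (algebraMap A (Ahat A W)) = x := by
    rw [RingHom.comp_assoc, ← hx]
    rfl
  set g := (pathOf ε hε hx (ε.comp ((Ahat A W).val : Ahat A W →+* W)) hy0).diff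
    (pathOf ε hε hx h hy) with hg
  refine ⟨g, ?_⟩
  have h1 := psi_diff ε hε hx (ε.comp ((Ahat A W).val : Ahat A W →+* W)) h hy0 hy
  have h2 : gact ε hε hx g hB.cov hB.incl = χ := by
    apply (liftE ε hε hx hB.cov).injective
    apply Subtype.ext
    ext b
    change ε ((gact ε hε hx g hB.cov hB.incl).1 b) = ε (χ.1 b)
    have h3 := h1 (j b)
    rw [← hg] at h3
    change ε (psi ε hε hx g (j b) : W) = _ at h3
    rw [coe_psi ε hε hx g (j b) hB b.2, hh] at h3
    exact h3
  intro b hb
  rw [coe_psi ε hε hx g b hB hb, h2]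

end

end Pool.Agent.H83.Kim
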