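import Pool.Agent.H83.Kim.Cont

/-! The cocycle of a rational point and its localisations. -/

open Polynomial PowerSeries

noncomputable section

namespace Pool.Agent.H83.Kim

variable (f : ℤ[X]) [hf : Fact (aeval (0 : Qbar) f ≠ 0)]
variable (z : ℚ) (hz : aeval (algebraMap ℚ Qbar z) f ≠ 0) (p n : ℕ)

/-- The cocycle of a rational point. -/
def cocQ (σ : GalQ) : Un f hf.out p n := UQ.of p n (gQ f z hz σ)

theorem cocQ_isCocycle : IsCocycle f hf.out p n (cocQ f z hz p n) where
  continuous := (UQ.continuous_of p n).comp (continuous_gQ f z hz)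
  cocycle σ τ := by
    rw [cocQ, gQ_mul, map_mul, cocQ, cocQ, galUn, UQ.map_of]

theorem embed_algebraMap (v : ℕ) [Fact v.Prime] (z : ℚ) :
    embed v (algebraMap ℚ Qbar z) = algebraMap ℚ_[v] (Qvbar v) (z : ℚ_[v]) := by
  rw [map_ratCast, ← map_ratCast (embed v)]
  congr 1

omit hf in
theorem aeval_embed (v : ℕ) [Fact v.Prime] (a : Qbar) : aeval (embed v a) f = embed v (aeval a f) := by
  rw [Polynomial.aeval_def, Polynomial.aeval_def, Polynomial.hom_eval₂]
  congr 1
  exact Subsingleton.elim _ _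

omit hf in
theorem embed_ptQ (v : ℕ) [Fact v.Prime] (x : ℚ_[v]) (hxz : x = (z : ℚ_[v]))
    (hx : aeval (algebraMap ℚ_[v] (Qvbar v) x) f ≠ 0) :
    (embed v).comp (ptQ f z hz) = pt f (embed v) (algebraMap ℚ_[v] (Qvbar v) x) hx := by
  apply OX_hom_ext
  intro P
  rw [RingHom.comp_apply, pt_algebraMap, pt_algebraMap, Polynomial.hom_eval₂, RingHom.comp_id,
    embed_algebraMap, hxz]

/-- The localisation of the class of a rational point is the class of that point. -/
theorem locEq_rational (v : ℕ) [Fact v.Prime] (x : ℚ_[v]) (hxz : x = (z : ℚ_[v])) :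
    LocEq f hf.out p n v (cocQ f z hz p n) x := by
  have hx : aeval (algebraMap ℚ_[v] (Qvbar v) x) f ≠ 0 := by
    rw [hxz, ← embed_algebraMap, aeval_embed]
    exact (map_ne_zero (embed v)).mpr hz
  have hy : ((embed v).comp (liftQ f z hz)).comp (algebraMap (OX f) (Xhat f)) =
      pt f (embed v) (algebraMap ℚ_[v] (Qvbar v) x) hx := by
    rw [RingHom.comp_assoc, liftQ_comp, embed_ptQ f z hz v x hxz hx]
  refine ⟨hx, thePath f ((embed v).comp (liftQ f z hz)) hy, 1, ?_⟩
  intro σ τ h
  rw [inv_one, one_mul, map_one, mul_one, cocQ]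
  congr 1
  rw [PathTo.act, thePath_act]
  have e1 : (twistPt f σ τ.toRingEquiv ((embed v).comp (liftQ f z hz))) =
      (embed v).comp (twistPt f σ σ.toRingEquiv (liftQ f z hz)) := by
    ext g
    rw [twistPt_apply, RingHom.comp_apply, RingHom.comp_apply, twistPt_apply]
    exact h _
  have hy' : ((embed v).comp (twistPt f σ σ.toRingEquiv (liftQ f z hz))).comp
      (algebraMap (OX f) (Xhat f)) = pt f (embed v) (algebraMap ℚ_[v] (Qvbar v) x) hx := by
    rw [RingHom.comp_assoc, twistPt_comp f σ σ.toRingEquiv _ (liftQ_comp f z hz) (hpt f z hz σ),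
      embed_ptQ f z hz v x hxz hx]
  rw [thePath_congr f (h' := (embed v).comp (twistPt f σ σ.toRingEquiv (liftQ f z hz))) _ hy'
    (fun g => RingHom.congr_fun e1 g)]
  exact (pathOf_diff_comp _ _ _ (embed v) _ _ _ _ hy hy').symm

/-- The integral points are weakly global. -/
theorem integralPts_subset [Fact p.Prime] : integralPts f p ⊆ weaklyGlobal f hf.out p n := by
  rintro _ ⟨m, hm, rfl⟩
  have hunit : ∀ (v : ℕ) [Fact v.Prime], IsUnit (aeval (m : ℤ_[v]) f) := by
    intro v _
    have h1 : aeval (m : ℤ_[v]) f = ((aeval m f : ℤ) : ℤ_[v]) := by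
      rw [Polynomial.aeval_def, Polynomial.aeval_def]
      have h2 := Polynomial.hom_eval₂ f (algebraMap ℤ ℤ) (Int.castRingHom ℤ_[v]) m
      rw [eq_intCast] at h2
      rw [h2]
      congr 1
    rw [h1]
    exact hm.map (Int.castRingHom ℤ_[v])
  have hz : aeval (algebraMap ℚ Qbar (m : ℚ)) f ≠ 0 := by
    have h1 : aeval (algebraMap ℚ Qbar (m : ℚ)) f = ((aeval m f : ℤ) : Qbar) := by
      rw [Polynomial.aeval_def, Polynomial.aeval_def]
      have h2 := Polynomial.hom_eval₂ f (algebraMap ℤ ℤ) (Int.castRingHom Qbar) m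
      rw [eq_intCast] at h2
      rw [h2, map_intCast]
      congr 1
    rw [h1]
    exact Int.cast_ne_zero.mpr hm.ne_zero
  refine ⟨hunit p, cocQ f m hz p n, cocQ_isCocycle f m hz p n, ?_, ?_⟩
  · intro v _ _
    exact ⟨m, hunit v, locEq_rational f m hz p n v _ (by push_cast; rfl)⟩
  · exact locEq_rational f m hz p n p _ (by push_cast; rfl)

end Pool.Agent.H83.Kim
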