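import Mathlib

/-! Valuation rings of locally compact ultrametric fields: discrete values and completeness. -/

open PowerSeries
open scoped NormedField Valued Pointwise

noncomputable section

namespace Pool.Agent.H83.Kim

variable (K : Type*) [NontriviallyNormedField K] [IsUltrametricDist K] [ProperSpace K]

theorem compactSpace_integer : CompactSpace 𝒪[K] := by
  apply isCompact_iff_compactSpace.mp
  have : ((𝒪[K] : Subring K) : Set K) = Metric.closedBall 0 1 := by
    ext x
    rw [SetLike.mem_coe, Valued.integer.mem_iff]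
    simp
  rw [this]
  exact isCompact_closedBall 0 1

theorem dvr_integer : IsDiscreteValuationRing 𝒪[K] := by
  have := compactSpace_integer K
  have : (Valued.v : Valuation K NNReal).IsNontrivial := by
    rw [Valuation.isNontrivial_iff_exists_lt_one]
    obtain ⟨x, hx0, hx1⟩ := NormedField.exists_norm_lt_one K
    refine ⟨x, by simpa using hx0, ?_⟩
    change ‖x‖₊ < 1
    exact_mod_cast hx1
  exact Valued.integer.isDiscreteValuationRing_of_compactSpace

theorem isAdicComplete_integer : IsAdicComplete (IsLocalRing.maximalIdeal 𝒪[K]) 𝒪[K] := by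
  have := compactSpace_integer K
  have := dvr_integer K
  exact {
    haus' := by
      have := IsHausdorff.of_isLocalRing (I := IsLocalRing.maximalIdeal 𝒪[K]) (M := 𝒪[K]) (Ideal.IsPrime.ne_top inferInstance)
      exact this.haus'
    prec' := by
      intro f hf
      let S n : Set 𝒪[K] := f n +ᵥ ((IsLocalRing.maximalIdeal 𝒪[K] ^ n : Ideal 𝒪[K]) : Set 𝒪[K])
      have hS n : S (n + 1) ⊆ S n := by
        apply (Set.vadd_set_subset_vadd_set_iff.mpr (Ideal.pow_le_pow_right n.le_succ)).trans
        simpa [S] using (hf n.le_succ).symm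
      have h n : IsClosed (S n) := (IsNoetherianRing.isClosed_ideal (IsLocalRing.maximalIdeal 𝒪[K] ^ n)).vadd (f n)
      obtain ⟨L, hL⟩ := (h 0).isCompact.nonempty_iInter_of_sequence_nonempty_isCompact_isClosed S hS
        (by simp [S]) h
      refine ⟨L, fun n ↦ ?_⟩
      obtain ⟨y, hy, rfl⟩ := Set.mem_iInter.mp hL n
      simpa [SModEq.sub_mem] using hy }

variable {K}

/-- A bounded family in a locally compact ultrametric field has a member of maximal norm. -/
theorem exists_max_norm {ι : Type*} [Nonempty ι] (u : ι → K) (M : ℝ) (hM : ∀ i, ‖u i‖ ≤ M) :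
    ∃ i₀, ∀ i, ‖u i‖ ≤ ‖u i₀‖ := by
  have := dvr_integer K
  obtain ⟨c, hc⟩ := NormedField.exists_lt_norm K (max M 0)
  have hc0 : 0 < ‖c‖ := lt_of_le_of_lt (le_max_right _ _) hc
  have hcM : M ≤ ‖c‖ := ((le_max_left _ _).trans_lt hc).le
  have hmem : ∀ i, u i / c ∈ 𝒪[K] := by
    intro i
    rw [Valued.integer.mem_iff, norm_div, div_le_one hc0]
    exact (hM i).trans hcM
  let w : ι → 𝒪[K] := fun i => ⟨u i / c, hmem i⟩
  obtain ⟨m, ⟨i₀, rfl⟩, hmin⟩ := WellFounded.has_min (wellFounded_lt (α := ℕ∞))
    (Set.range fun i => IsDiscreteValuationRing.addVal 𝒪[K] (w i)) (Set.range_nonempty _)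
  refine ⟨i₀, fun i => ?_⟩
  have h1 : IsDiscreteValuationRing.addVal 𝒪[K] (w i₀) ≤ IsDiscreteValuationRing.addVal 𝒪[K] (w i) :=
    not_lt.mp (hmin _ ⟨i, rfl⟩)
  rw [IsDiscreteValuationRing.addVal_le_iff_dvd] at h1
  obtain ⟨d, hd⟩ := h1
  have h2 : u i / c = u i₀ / c * d := congrArg Subtype.val hd
  have h3 : u i = u i₀ * d := by
    have : c ≠ 0 := norm_pos_iff.mp hc0
    field_simp at h2
    exact h2
  rw [h3, norm_mul]
  have := Valued.integer.norm_le_one d
  exact mul_le_of_le_one_right (norm_nonneg _) this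

end Pool.Agent.H83.Kim
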