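import Pool.Agent.H83.Kim.Bdd

/-! Weierstrass preparation for bounded power series; gcds and roots of units. -/

open PowerSeries
open scoped NormedField Valued Pointwise

noncomputable section

namespace Pool.Agent.H83.Kim

variable {K : Type*} [NontriviallyNormedField K] [IsUltrametricDist K] [ProperSpace K]

/-- Weierstrass preparation: a nonzero bounded power series is a polynomial times a unit. -/
theorem exists_poly_mul_unit {g : K⟦X⟧} (hg : g ∈ BK K) (hg0 : g ≠ 0) :
    ∃ (Q : Polynomial K) (u v : K⟦X⟧), u ∈ BK K ∧ v ∈ BK K ∧ u * v = 1 ∧ g = Q * u := by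
  obtain ⟨i₀, hi⟩ := exists_max_coeff hg
  have hc : coeff i₀ g ≠ 0 := by
    intro h
    apply hg0
    ext i
    have := hi i
    rw [h, norm_zero] at this
    simpa using norm_le_zero_iff.mp this
  set c := coeff i₀ g with hcdef
  have hcn : 0 < ‖c‖ := norm_pos_iff.mpr hc
  have hle : ∀ i, ‖coeff i (C c⁻¹ * g)‖ ≤ 1 := by
    intro i
    rw [coeff_C_mul, norm_mul, norm_inv]
    rw [inv_mul_le_iff₀ hcn, mul_one]
    exact hi i
  obtain ⟨h, hh⟩ := exists_int_of_le_one hle
  have hunit : coeff i₀ h = 1 := by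
    apply Subtype.ext
    have : (𝒪[K]).subtype (coeff i₀ h) = coeff i₀ (C c⁻¹ * g) := by rw [← hh, coeff_map]
    rw [coeff_C_mul, ← hcdef, inv_mul_cancel₀ hc] at this
    exact this
  have := dvr_integer K
  have := isAdicComplete_integer K
  have hres : h.map (IsLocalRing.residue 𝒪[K]) ≠ 0 := by
    intro h0
    have h1 := congrArg (coeff i₀) h0
    rw [coeff_map, hunit, map_one, map_zero] at h1
    exact one_ne_zero h1
  obtain ⟨P, w, hP⟩ := exists_isWeierstrassFactorization hres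
  obtain ⟨w', hw'⟩ := hP.isUnit.exists_right_inv
  refine ⟨Polynomial.C c * P.map (𝒪[K]).subtype, w.map (𝒪[K]).subtype, w'.map (𝒪[K]).subtype,
    int_mem_BK w, int_mem_BK w', by rw [← map_mul, hw', map_one], ?_⟩
  have h2 : C c⁻¹ * g = (P.map (𝒪[K]).subtype : Polynomial K) * w.map (𝒪[K]).subtype := by
    rw [← hh, hP.eq_mul, map_mul, Polynomial.polynomial_map_coe]
  have h3 : g = C c * (C c⁻¹ * g) := by
    rw [← mul_assoc, ← map_mul, mul_inv_cancel₀ hc, map_one, one_mul]
  rw [h3, h2, Polynomial.coe_mul, Polynomial.coe_C, mul_assoc]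

/-- Finitely many bounded power series have a greatest common divisor that is a combination
of them. -/
theorem exists_gcd {ι : Type*} [Fintype ι] (g : ι → K⟦X⟧) (hg : ∀ i, g i ∈ BK K) :
    ∃ (d : K⟦X⟧) (r s : ι → K⟦X⟧), (∀ i, r i ∈ BK K) ∧ (∀ i, s i ∈ BK K) ∧
      d = ∑ i, r i * g i ∧ ∀ i, g i = s i * d := by
  classical
  have hex : ∀ i, ∃ (Q : Polynomial K) (u v : K⟦X⟧), u ∈ BK K ∧ v ∈ BK K ∧ u * v = 1 ∧ g i = Q * u := by
    intro i
    by_cases h : g i = 0
    · exact ⟨0, 1, 1, (BK K).one_mem, (BK K).one_mem, one_mul 1, by simp [h]⟩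
    · exact exists_poly_mul_unit (hg i) h
  choose Q u v hu hv huv hgQ using hex
  obtain ⟨P, hP⟩ := IsPrincipalIdealRing.principal (Ideal.span (Set.range Q))
  have hPmem : P ∈ Ideal.span (Set.range Q) := by rw [hP]; exact Ideal.mem_span_singleton_self P
  rw [Ideal.mem_span_range_iff_exists_fun] at hPmem
  obtain ⟨c, hc⟩ := hPmem
  have hdiv : ∀ i, ∃ t, Q i = P * t := by
    intro i
    have : Q i ∈ Ideal.span (Set.range Q) := Ideal.subset_span ⟨i, rfl⟩
    rw [hP] at this
    exact Ideal.mem_span_singleton.mp this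
  choose t ht using hdiv
  refine ⟨P, fun i => (c i : K⟦X⟧) * v i, fun i => (t i : K⟦X⟧) * u i,
    fun i => (BK K).mul_mem (poly_mem_BK _) (hv i), fun i => (BK K).mul_mem (poly_mem_BK _) (hu i), ?_, ?_⟩
  · rw [← hc]
    rw [← Polynomial.coeToPowerSeries.ringHom_apply, map_sum]
    refine Finset.sum_congr rfl fun i _ => ?_
    rw [Polynomial.coeToPowerSeries.ringHom_apply, Polynomial.coe_mul, hgQ i]
    calc (c i : K⟦X⟧) * (Q i : K⟦X⟧) = c i * Q i * 1 := by ring
      _ = c i * Q i * (u i * v i) := by rw [huv i]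
      _ = c i * v i * (Q i * u i) := by ring
  · intro i
    rw [hgQ i, ht i, Polynomial.coe_mul]
    ring

/-- Units of bounded power series are constants times `p`-th powers of units, if `p` is a unit. -/
theorem exists_root {p : ℕ} (hp : p ≠ 0) (hpn : ‖(p : K)‖ = 1) {u v : K⟦X⟧} (hu : u ∈ BK K)
    (hv : v ∈ BK K) (huv : u * v = 1) :
    ∃ (κ : K) (s s' : K⟦X⟧), s ∈ BK K ∧ s' ∈ BK K ∧ s * s' = 1 ∧ κ ≠ 0 ∧ u = C κ * s ^ p := by
  have hle := norm_coeff_le_of_mul_eq_one hu hv huv
  have hκ : coeff 0 u ≠ 0 := by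
    intro h
    have := congrArg (coeff 0) huv
    simp only [coeff_zero_eq_constantCoeff, map_mul, map_one] at this h
    rw [h, zero_mul] at this
    exact zero_ne_one this
  set κ := coeff 0 u with hκdef
  have hcn : 0 < ‖κ‖ := norm_pos_iff.mpr hκ
  have hle' : ∀ i, ‖coeff i (C κ⁻¹ * u)‖ ≤ 1 := by
    intro i
    rw [coeff_C_mul, norm_mul, norm_inv]
    rw [inv_mul_le_iff₀ hcn, mul_one]
    exact hle i
  obtain ⟨w, hw⟩ := exists_int_of_le_one hle'
  have hw0 : constantCoeff w = 1 := by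
    apply Subtype.ext
    have : (𝒪[K]).subtype (coeff 0 w) = coeff 0 (C κ⁻¹ * u) := by rw [← hw, coeff_map]
    rw [coeff_C_mul, ← hκdef, inv_mul_cancel₀ hκ] at this
    rw [← coeff_zero_eq_constantCoeff_apply]
    exact this
  have hpu : IsUnit ((p : 𝒪[K])) := by
    rw [Valued.integer.isUnit_iff_norm_eq_one]
    exact hpn
  have hmonic : (Polynomial.X ^ p - Polynomial.C w : Polynomial 𝒪[K]⟦X⟧).Monic :=
    Polynomial.monic_X_pow_sub_C w hp
  obtain ⟨s, hs, hs'⟩ := (IsAdicComplete.henselianRing (𝒪[K]⟦X⟧) (Ideal.span {X})).is_henselian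
    (Polynomial.X ^ p - Polynomial.C w) hmonic 1 (by
      rw [Ideal.mem_span_singleton, X_dvd_iff]
      simp [hw0]) (by
      have : (Polynomial.derivative (Polynomial.X ^ p - Polynomial.C w : Polynomial 𝒪[K]⟦X⟧)).eval 1 = (p : 𝒪[K]⟦X⟧) := by
        simp [Polynomial.derivative_X_pow]
      rw [this]
      have h2 : IsUnit ((p : 𝒪[K]⟦X⟧)) := by
        have := hpu.map (C (R := 𝒪[K]))
        simpa using this
      exact h2.map _)
  have hsp : s ^ p = w := by
    have := hs
    simp only [Polynomial.IsRoot, Polynomial.eval_sub, Polynomial.eval_pow, Polynomial.eval_X,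
      Polynomial.eval_C] at this
    exact sub_eq_zero.mp this
  have hsu : IsUnit s := by
    rw [isUnit_iff_constantCoeff]
    rw [Ideal.mem_span_singleton, X_dvd_iff, map_sub, map_one, sub_eq_zero] at hs'
    rw [hs']
    exact isUnit_one
  obtain ⟨s', hss⟩ := hsu.exists_right_inv
  refine ⟨κ, s.map (𝒪[K]).subtype, s'.map (𝒪[K]).subtype, int_mem_BK s, int_mem_BK s', by
    rw [← map_mul, hss, map_one], hκ, ?_⟩
  rw [← map_pow, hsp, hw, ← mul_assoc, ← map_mul, mul_inv_cancel₀ hκ, map_one, one_mul]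

end Pool.Agent.H83.Kim
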